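import Pool.Agent.Lib.H44V.Defs

/-!
# A2 (S): a socle element of `S_P` for `P` an associated prime of `S`

`P = ann(w)` for some `w : S` (`isAssociatedPrime_iff`, compare `regular_or_socle` in
`Helper92.DepthTwo`). Put `c = w / 1`. If `c = 0` then `s w = 0` for some `s ∉ P`, contradiction.
If `a = b / s` lies in the maximal ideal then `b ∈ P`, so `b w = 0` and `a c = 0`.
-/

set_option autoImplicit false
open CategoryTheory CategoryTheory.Abelian IsLocalRing
open Pool.Agent.Lib.Helper92

namespace Pool.Agent.Lib.H44V
universe u
variable {S : Type u} [CommRing S]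

theorem A2_socle [IsNoetherianRing S] (P : Ideal S) [P.IsPrime] (hP : P ∈ associatedPrimes S S) :
    ∃ c : Localization.AtPrime P, c ≠ 0 ∧
      ∀ a ∈ maximalIdeal (Localization.AtPrime P), a * c = 0 := by
  obtain ⟨-, w, hw⟩ := isAssociatedPrime_iff.mp (AssociatedPrimes.mem_iff.mp hP)
  have hmem : ∀ a : S, a ∈ P ↔ a * w = 0 := by
    intro a
    rw [hw, Submodule.mem_colon_singleton, Submodule.mem_bot, smul_eq_mul]
  refine ⟨algebraMap S (Localization.AtPrime P) w, ?_, ?_⟩
  · intro h0
    rw [IsLocalization.map_eq_zero_iff P.primeCompl] at h0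
    obtain ⟨s, hs⟩ := h0
    exact s.2 ((hmem s.1).2 hs)
  · intro a ha
    obtain ⟨⟨b, s⟩, hbs⟩ := IsLocalization.surj P.primeCompl a
    have hb : algebraMap S (Localization.AtPrime P) b ∈ maximalIdeal (Localization.AtPrime P) := by
      rw [← hbs]
      exact Ideal.mul_mem_right _ _ ha
    have hb' : b ∈ Ideal.under S (maximalIdeal (Localization.AtPrime P)) := hb
    rw [IsLocalization.AtPrime.comap_maximalIdeal (Localization.AtPrime P) P] at hb'
    have h1 := (hmem b).1 hb'
    have hu := IsLocalization.map_units (Localization.AtPrime P) s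
    apply hu.mul_left_cancel
    rw [mul_zero]
    calc algebraMap S (Localization.AtPrime P) s * (a * algebraMap S (Localization.AtPrime P) w)
        = (a * algebraMap S (Localization.AtPrime P) s) * algebraMap S (Localization.AtPrime P) w := by
          ring
      _ = 0 := by
          rw [hbs, ← map_mul]
          show algebraMap S (Localization.AtPrime P) (b * w) = 0
          rw [h1, map_zero]

end Pool.Agent.Lib.H44V
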