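import Pool.Agent.Lib.H44V.L1
import Pool.Agent.Lib.H44V.A2

/-!
# A3 (M): constant rank at the associated primes of `S`

Induction on `n` (for all `Y`). `n = 0`: `Y = 0`, `χ = 0`. `n = 1`: `Y` is projective, hence free
(`Module.free_of_flat_of_isLocalRing`), `χ` is its rank (localisation of a basis:
`Module.Basis.ofIsLocalizedModule`, or `Module.finrank_of_isLocalizedModule_of_free`).
`n + 2`: choose a surjection `f : (Fin b → S) → Y` (`Module.Finite.exists_fin'`) with kernel `K`;
`K` has `HasProjectiveDimensionLT K (n + 1)`
(`LinearMap.shortExact_shortComplexKer`, `hasProjectiveDimensionLT_X₃_iff`; compare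
`Helper92.free_of_pd`), so by induction `K_P` is free of rank `χ_K` for every associated prime
`P`. By `L1_pd` the module `Y_P` has finite projective dimension over `S_P`, and by `A2_socle`
and `Helper92.free_of_pd` with `k = 0` (`Jx x 0 = ⊥`, `WReg _ x 0` is void) it is free. The
localised sequence `0 → K_P → S_P^b → Y_P → 0` is exact (`LocalizedModule.map_exact` and
injectivity), so `rank Y_P = b - χ_K` (`Module.finrank_of_exact`-type lemma, or split the sequence:
`Y_P` is free, hence `S_P^b ≃ K_P × Y_P`).
-/

set_option autoImplicit false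
open CategoryTheory CategoryTheory.Abelian IsLocalRing
open Pool.Agent.Lib.Helper92

namespace Pool.Agent.Lib.H44V
universe u
variable {S : Type u} [CommRing S]

/-- additivity of the rank for a split sequence of free modules. -/
lemma A3_split (R : Type u) [CommRing R] [Nontrivial R] {K G Y : Type u} [AddCommGroup K]
    [Module R K] [AddCommGroup G] [Module R G] [AddCommGroup Y] [Module R Y] [Module.Free R K]
    [Module.Finite R K] [Module.Free R Y] [Module.Finite R Y] (f : K →ₗ[R] G) (g : G →ₗ[R] Y)
    (hf : Function.Injective f) (hg : Function.Surjective g) (hfg : Function.Exact f g) :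
    Module.finrank R G = Module.finrank R K + Module.finrank R Y := by
  obtain ⟨s, hs⟩ := Module.projective_lifting_property g LinearMap.id hg
  obtain ⟨e, -⟩ := hfg.splitSurjectiveEquiv hf ⟨s, hs⟩
  rw [e.finrank_eq, Module.finrank_prod]

lemma A3_free [IsNoetherianRing S] (n : ℕ) (Y : Type u) [AddCommGroup Y]
    [Module S Y] [Module.Finite S Y] (h : HasProjectiveDimensionLT (ModuleCat.of S Y) n)
    (P : Ideal S) [P.IsPrime] (hP : P ∈ associatedPrimes S S) :
    Module.Free (Localization.AtPrime P) (LocalizedModule P.primeCompl Y) := by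
  obtain ⟨c, hc, hcm⟩ := A2_socle P hP
  have h1 := L1_pd P n Y h
  refine free_of_pd (R := Localization.AtPrime P) (fun _ => 0) 0 (fun j hj => absurd hj (by omega))
    c ?_ ?_ n (LocalizedModule P.primeCompl Y) (fun j hj => absurd hj (by omega)) h1
  · change ¬ c ∈ (⊥ : Ideal _)
    rwa [Ideal.mem_bot]
  · intro a ha
    change a * c ∈ (⊥ : Ideal _)
    rw [Ideal.mem_bot]
    exact hcm a ha

lemma A3_seq (P : Ideal S) [P.IsPrime] {K G Y : Type u} [AddCommGroup K]
    [Module S K] [AddCommGroup G] [Module S G] [AddCommGroup Y] [Module S Y]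
    [Module.Finite S K] [Module.Finite S Y] (f : K →ₗ[S] G) (g : G →ₗ[S] Y)
    (hf : Function.Injective f) (hg : Function.Surjective g) (hfg : Function.Exact f g)
    [Module.Free (Localization.AtPrime P) (LocalizedModule P.primeCompl K)]
    [Module.Free (Localization.AtPrime P) (LocalizedModule P.primeCompl Y)] :
    Module.finrank (Localization.AtPrime P) (LocalizedModule P.primeCompl G) =
      Module.finrank (Localization.AtPrime P) (LocalizedModule P.primeCompl K) +
      Module.finrank (Localization.AtPrime P) (LocalizedModule P.primeCompl Y) := by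
  have e1 := LocalizedModule.map_injective P.primeCompl f hf
  have e2 := LocalizedModule.map_surjective P.primeCompl g hg
  have e3 := LocalizedModule.map_exact P.primeCompl f g hfg
  exact A3_split (Localization.AtPrime P) (LocalizedModule.map P.primeCompl f)
    (LocalizedModule.map P.primeCompl g) e1 e2 e3

theorem A3_rank [IsNoetherianRing S] [IsLocalRing S] (n : ℕ) (Y : Type u) [AddCommGroup Y]
    [Module S Y] [Module.Finite S Y] (h : HasProjectiveDimensionLT (ModuleCat.of S Y) n) :
    ∃ χ : ℤ, ∀ (P : Ideal S) [P.IsPrime], P ∈ associatedPrimes S S →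
      Module.Free (Localization.AtPrime P) (LocalizedModule P.primeCompl Y) ∧
      (Module.finrank (Localization.AtPrime P) (LocalizedModule P.primeCompl Y) : ℤ) = χ := by
  suffices hs : ∃ χ : ℤ, ∀ (P : Ideal S) [P.IsPrime], P ∈ associatedPrimes S S →
      (Module.finrank (Localization.AtPrime P) (LocalizedModule P.primeCompl Y) : ℤ) = χ by
    obtain ⟨χ, hχ⟩ := hs
    exact ⟨χ, fun P _ hP => ⟨A3_free n Y h P hP, hχ P hP⟩⟩
  have hfr : ∀ (Z : Type u) [AddCommGroup Z] [Module S Z] [Module.Finite S Z],
      HasProjectiveDimensionLT (ModuleCat.of S Z) 1 →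
      ∀ (P : Ideal S) [P.IsPrime],
      (Module.finrank (Localization.AtPrime P) (LocalizedModule P.primeCompl Z) : ℤ) =
        (Module.finrank S Z : ℤ) := by
    intro Z _ _ _ h P _
    have h1 : Projective (ModuleCat.of S Z) := projective_iff_hasProjectiveDimensionLT_one.mpr h
    have h2 : Module.Projective S Z := (IsProjective.iff_projective (R := S) Z).mpr h1
    have h3 : Module.Free S Z := Module.free_of_flat_of_isLocalRing
    have h4 := Module.finrank_of_isLocalizedModule_of_free (Localization.AtPrime P) P.primeCompl
      (LocalizedModule.mkLinearMap P.primeCompl Z)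
    rw [h4]
  induction n using Nat.strong_induction_on generalizing Y with
  | _ n ih =>
  rcases n with _ | _ | n
  · have h1 : HasProjectiveDimensionLT (ModuleCat.of S Y) 1 :=
      hasProjectiveDimensionLT_of_ge _ 0 1 (by omega)
    exact ⟨Module.finrank S Y, fun P _ _ => hfr Y h1 P⟩
  · exact ⟨Module.finrank S Y, fun P _ _ => hfr Y h P⟩
  · obtain ⟨b, f, hf⟩ := Module.Finite.exists_fin' S Y
    have hex := LinearMap.shortExact_shortComplexKer hf
    have hproj : Projective (ModuleCat.of S (Fin b → S)) := inferInstance
    have hK : HasProjectiveDimensionLT (ModuleCat.of S (LinearMap.ker f)) (n + 1) :=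
      (hex.hasProjectiveDimensionLT_X₃_iff n hproj).mp h
    obtain ⟨χ, hχ⟩ := ih (n + 1) (by omega) (LinearMap.ker f) hK
    refine ⟨b - χ, fun P _ hP => ?_⟩
    have h1 := A3_free (n + 1) (LinearMap.ker f) hK P hP
    have h2 := A3_free (n + 2) Y h P hP
    have h3 := A3_seq P (LinearMap.ker f).subtype f Subtype.val_injective hf
      (LinearMap.exact_subtype_ker_map f)
    have h4 := Module.finrank_of_isLocalizedModule_of_free (Localization.AtPrime P) P.primeCompl
      (LocalizedModule.mkLinearMap P.primeCompl (Fin b → S))
    rw [Module.finrank_fin_fun] at h4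
    have h5 := hχ P hP
    rw [h4] at h3
    omega

end Pool.Agent.Lib.H44V
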