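import Pool.Agent.Lib.H44V.K1

/-!
# D1 (S/M): `Ext^j(Z, Y) = 0` for `Z` of finite length and `j < depth Y`

Induction on `IsFiniteLength` (constructors `of_subsingleton`, `of_simple_quotient`): for
`N : Submodule S Z` with `Z ⧸ N` simple there is a short exact sequence
`0 → N → Z → Z ⧸ N → 0`; `Ext^j(Z ⧸ N, Y) → Ext^j(Z, Y) → Ext^j(N, Y)` is exact
(`Ext.contravariant_sequence_exact₂`); a simple module over the local ring `S` is isomorphic to
`S ⧸ maximalIdeal S` (`isSimpleModule_iff_quot_maximal`, `IsLocalRing.eq_maximalIdeal`), and an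
isomorphism of the first argument preserves `Subsingleton (Ext _ Y j)` (compare
`Helper92.van_quot`).
-/

set_option autoImplicit false
open CategoryTheory CategoryTheory.Abelian IsLocalRing
open Pool.Agent.Lib.Helper92

namespace Pool.Agent.Lib.H44V
universe u
variable {S : Type u} [CommRing S]

lemma D1_iso {X Y : Type u} [AddCommGroup X] [Module S X]
    [AddCommGroup Y] [Module S Y] (e : X ≃ₗ[S] Y) (W : ModuleCat.{u} S) (j : ℕ)
    (h : Subsingleton (Ext (ModuleCat.of S X) W j)) :
    Subsingleton (Ext (ModuleCat.of S Y) W j) := by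
  refine ⟨fun a b => ?_⟩
  rw [← sub_eq_zero]
  generalize a - b = v
  have h1 : (Ext.mk₀ (ModuleCat.ofHom e.symm.toLinearMap)).comp
      ((Ext.mk₀ (ModuleCat.ofHom e.toLinearMap)).comp v (zero_add j)) (zero_add j) = v := by
    rw [Ext.mk₀_comp_mk₀_assoc]
    have : ModuleCat.ofHom e.symm.toLinearMap ≫ ModuleCat.ofHom e.toLinearMap =
        𝟙 (ModuleCat.of S Y) := by
      ext y
      simp
    rw [this, Ext.mk₀_id_comp]
  have h2 : (Ext.mk₀ (ModuleCat.ofHom e.toLinearMap)).comp v (zero_add j) = 0 :=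
    @Subsingleton.elim _ h _ _
  rw [← h1, h2, Ext.comp_zero]

theorem D1_ext [IsLocalRing S] (Y : ModuleCat.{u} S) (d : ℕ) (hY : Dp Y d) (Z : Type u)
    [AddCommGroup Z] [Module S Z] (hZ : IsFiniteLength S Z) (j : ℕ) (hj : j < d) :
    Subsingleton (Ext (ModuleCat.of S Z) Y j) := by
  induction hZ with
  | @of_subsingleton M _ _ _ =>
    refine ⟨fun a b => ?_⟩
    rw [← sub_eq_zero]
    generalize a - b = v
    rw [← Ext.mk₀_id_comp v]
    have : (𝟙 (ModuleCat.of S M)) = 0 := by
      ext y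
      exact Subsingleton.elim (α := M) _ _
    rw [this, Ext.mk₀_zero, Ext.zero_comp]
  | @of_simple_quotient M _ _ N hs hN ih =>
    have h1 : Subsingleton (Ext (ModuleCat.of S (M ⧸ N)) Y j) := by
      obtain ⟨J, hJ, ⟨e⟩⟩ := (isSimpleModule_iff_quot_maximal (R := S) (M := M ⧸ N)).mp hs
      have := IsLocalRing.eq_maximalIdeal hJ
      subst this
      exact D1_iso e.symm Y j (hY j hj)
    have hex := K1_exact j N.subtype N.mkQ Subtype.val_injective (Submodule.mkQ_surjective N)
      (LinearMap.exact_subtype_mkQ N) Y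
    refine ⟨fun a b => ?_⟩
    rw [← sub_eq_zero]
    generalize a - b = v
    obtain ⟨w, hw⟩ := (hex v).mp (@Subsingleton.elim _ ih _ _)
    rw [← hw, @Subsingleton.elim _ h1 w 0, map_zero]

end Pool.Agent.Lib.H44V
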