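import Pool.Agent.Lib.H44V.Defs

/-!
# D4 (M): a finite module supported at the maximal ideal has finite length

`Z` is generated by finitely many `z_i`; `N = Module.annihilator S Z`. A prime `P ≠ m` does not
contain `N` (product of the `s_i ∉ P` with `s_i z_i = 0`). So `N = ⊤` (then `Z = 0`) or the only
prime containing `N` is `m`, so `m^t ≤ N` for some `t`, the ring `S ⧸ m^t` (or `S ⧸ N`) is
Artinian (Noetherian of dimension zero, `isArtinianRing_iff_isNoetherianRing_krullDimLE_zero` or
similar; or filter `Z` by `m^i Z`: the quotients are finite-dimensional over `S ⧸ m`), and `Z` is a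
finite module over it; `isFiniteLength_iff_isNoetherian_isArtinian`.
-/

set_option autoImplicit false
open CategoryTheory CategoryTheory.Abelian IsLocalRing
open Pool.Agent.Lib.Helper92

namespace Pool.Agent.Lib.H44V
universe u
variable {S : Type u} [CommRing S]

theorem D4_fl [IsNoetherianRing S] [IsLocalRing S] (Z : Type u) [AddCommGroup Z] [Module S Z]
    [Module.Finite S Z]
    (h : ∀ (P : Ideal S) [P.IsPrime], P ≠ maximalIdeal S → ∀ z : Z, ∃ s, s ∉ P ∧ s • z = 0) :
    IsFiniteLength S Z := by
  classical
  obtain ⟨T, hT⟩ := Module.Finite.fg_top (R := S) (M := Z)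
  set N : Ideal S := Module.annihilator S Z with hN
  have hprime : ∀ P : Ideal S, P.IsPrime → N ≤ P → P = maximalIdeal S := by
    intro P hP hNP
    by_contra hne
    have h1 : ∀ z : Z, ∃ s, s ∉ P ∧ s • z = 0 := h P hne
    choose s hs hsz using h1
    have h2 : (∏ z ∈ T, s z) ∈ N := by
      rw [hN, Module.mem_annihilator]
      intro y
      have hy : y ∈ Submodule.span S (T : Set Z) := by rw [hT]; trivial
      induction hy using Submodule.span_induction with
      | mem y hy =>
        have hyT : y ∈ T := hy
        rw [← Finset.prod_erase_mul T s hyT, mul_smul, hsz, smul_zero]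
      | zero => rw [smul_zero]
      | add x y _ _ hx hy => rw [smul_add, hx, hy, add_zero]
      | smul a x _ hx => rw [smul_comm, hx, smul_zero]
    have h3 := hNP h2
    rw [hP.prod_mem_iff] at h3
    obtain ⟨z, -, hz⟩ := h3
    exact hs z hz
  have hdim : Ring.KrullDimLE 0 (S ⧸ N) := by
    rw [Ring.krullDimLE_zero_iff]
    intro Q hQ
    have h1 : (Q.comap (Ideal.Quotient.mk N)).IsPrime := Ideal.comap_isPrime _ Q
    have h2 : N ≤ Q.comap (Ideal.Quotient.mk N) := by
      intro x hx
      rw [Ideal.mem_comap, Ideal.Quotient.eq_zero_iff_mem.2 hx]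
      exact Q.zero_mem
    have h3 := hprime _ h1 h2
    have h4 : (Q.comap (Ideal.Quotient.mk N)).IsMaximal := by
      rw [h3]
      exact maximalIdeal.isMaximal S
    rcases Ideal.map_eq_top_or_isMaximal_of_surjective (Ideal.Quotient.mk N)
      Ideal.Quotient.mk_surjective h4 with h5 | h5
    · rw [Ideal.map_comap_of_surjective _ Ideal.Quotient.mk_surjective] at h5
      exact absurd h5 hQ.ne_top
    · rwa [Ideal.map_comap_of_surjective _ Ideal.Quotient.mk_surjective] at h5
  have hart : IsArtinianRing (S ⧸ N) := by
    rw [isArtinianRing_iff_isNoetherianRing_krullDimLE_zero]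
    exact ⟨inferInstance, hdim⟩
  letI : Module (S ⧸ N) Z := Module.quotientAnnihilator
  have htow : IsScalarTower S (S ⧸ N) Z :=
    Module.IsTorsionBySet.isScalarTower (Module.isTorsionBySet_annihilator S Z)
  have hfin : Module.Finite (S ⧸ N) Z := Module.Finite.of_restrictScalars_finite S (S ⧸ N) Z
  have hZ : IsArtinian (S ⧸ N) Z := inferInstance
  rw [isFiniteLength_iff_isNoetherian_isArtinian]
  exact ⟨inferInstance, isArtinian_of_surjective_algebraMap (S := S) (R := S ⧸ N)
    Ideal.Quotient.mk_surjective⟩

end Pool.Agent.Lib.H44V
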