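import Pool.Agent.Lib.H44V.K1

/-!
# F1 (M): `Ext^1(Y, B^+) = 0` makes `B ⊗ K → B ⊗ G` injective

`B^+ = CharacterModule B = (B →+ AddCircle 1)`. Let `0 → K → G → Y → 0` be exact. As
`Ext^1(Y, B^+) = 0`, every `S`-linear map `K → B^+` extends to `G → B^+`
(`Ext.covariant`… no: the contravariant sequence
`Ext.contravariant_sequence_exact₁`: `Hom(G, B^+) → Hom(K, B^+) → Ext^1(Y, B^+)`).
By the adjunction `(K →ₗ[S] B^+) ≃ (B ⊗ K)^+` (`CharacterModule.homEquiv`, `CharacterModule.curry`,
`uncurry`) the map `(B ⊗ G)^+ → (B ⊗ K)^+` is surjective, so `B ⊗ K → B ⊗ G` is injective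
(`CharacterModule.dual_surjective_iff_injective`; or: a nonzero element is detected by a character,
`CharacterModule.exists_character_apply_ne_zero_of_ne_zero`).
-/

set_option autoImplicit false
open CategoryTheory CategoryTheory.Abelian IsLocalRing TensorProduct
open Pool.Agent.Lib.Helper92

namespace Pool.Agent.Lib.H44V
universe u

/-- extension of a map along a monomorphism when `Ext^1` vanishes. -/
lemma F1_extend {S : Type u} [CommRing S] {K G Y : Type u}
    [AddCommGroup K] [Module S K] [AddCommGroup G] [Module S G] [AddCommGroup Y] [Module S Y]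
    (f : K →ₗ[S] G) (g : G →ₗ[S] Y) (hf : Function.Injective f) (hg : Function.Surjective g)
    (hfg : Function.Exact f g) {E : Type u} [AddCommGroup E] [Module S E]
    (hE : Subsingleton (Ext (ModuleCat.of S Y) (ModuleCat.of S E) 1)) (φ : K →ₗ[S] E) :
    ∃ ψ : G →ₗ[S] E, ψ ∘ₗ f = φ := by
  have hS := K1_sc_exact f g hf hg hfg
  have h0 : hS.extClass.comp (Ext.mk₀ (ModuleCat.ofHom φ)) (add_zero 1) = 0 :=
    @Subsingleton.elim _ hE _ _
  obtain ⟨x, hx⟩ := Ext.contravariant_sequence_exact₁ hS (ModuleCat.of S E)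
    (Ext.mk₀ (ModuleCat.ofHom φ)) (add_zero 1) h0
  obtain ⟨ψ, rfl⟩ := (Ext.mk₀_bijective _ _).2 x
  rw [Ext.mk₀_comp_mk₀] at hx
  have h1 := (Ext.mk₀_bijective _ _).1 hx
  refine ⟨ψ.hom, ?_⟩
  have h2 := congrArg ModuleCat.Hom.hom h1
  exact h2

theorem F1_inj (S B : Type u) [CommRing S] [CommRing B] [Algebra S B] {K G Y : Type u}
    [AddCommGroup K] [Module S K] [AddCommGroup G] [Module S G] [AddCommGroup Y] [Module S Y]
    (f : K →ₗ[S] G) (g : G →ₗ[S] Y) (hf : Function.Injective f) (hg : Function.Surjective g)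
    (hfg : Function.Exact f g)
    (hE : Subsingleton (Ext (ModuleCat.of S Y) (ModuleCat.of S (CharacterModule B)) 1)) :
    Function.Injective (LinearMap.lTensor B f) := by
  have h1 : Function.Injective (f.rTensor B) := by
    rw [rTensor_injective_iff_lcomp_surjective]
    intro φ
    obtain ⟨ψ, hψ⟩ := F1_extend f g hf hg hfg hE φ
    exact ⟨ψ, hψ⟩
  rwa [LinearMap.lTensor_inj_iff_rTensor_inj]

end Pool.Agent.Lib.H44V
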