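import Pool.Agent.Lib.H44V.Defs

/-!
# D2 (M/L): the Auslander-Buchsbaum inequality `depth S ≥ pd Y + depth Y`

Write `k = Qt (maximalIdeal S)`. Suppose `Dp S (n + a)` fails, let `d < n + a` be minimal with
`Ext^d(k, S) ≠ 0` (`Nat.find`); then `Ext^d(k, S^b) ≠ 0` for `b > 0` and `Ext^i(k, S^b) = 0` for
`i < d`. Induction on `n`, for all `Y`, `a`.
`n = 0`: `Y` is projective and not zero, so free of positive rank
(`Module.free_of_flat_of_isLocalRing`), and `S` is a retract of `Y`; so `Ext^d(k, Y) ≠ 0`,
contradiction to `Dp Y a`.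
`n ≥ 1`: `Helper92.exists_minimal_presentation`: `f : (Fin b → S) → Y` onto with kernel `K` contained
in `m (Fin b → S)`; `K` has `HasProjectiveDimensionLT K n` and not `HasProjectiveDimensionLT K (n-1)`
(`hasProjectiveDimensionLT_X₃_iff`; for `n = 1`: `K ≠ 0` because otherwise `Y` is free).
From `0 → K → S^b → Y → 0`: `Ext^{i-1}(k, Y) → Ext^i(k, K) → Ext^i(k, S^b)`.
* If `d ≥ a + 1`: `Ext^i(k, K) = 0` for `i < a + 1` (note `Ext^0(k, K) → Ext^0(k, S^b)` is
  injective). Induction hypothesis with `(n - 1, K, a + 1)`: `Dp S (n - 1 + (a + 1))`, contradiction.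
* If `d ≤ a` and `n = 1`: `K` is free of positive rank and the map
  `Ext^d(k, K) → Ext^d(k, S^b)` is zero, because it is given by a matrix with entries in `m` and
  `m` kills `Ext^d(k, _)` (`Helper92.smul_ext_eq_zero`; write the inclusion `K ≃ S^c → S^b` as a
  sum of matrix entries times coordinate maps, compare `Helper92.lift_free`). It is also injective,
  because `Ext^{d-1}(k, Y) = 0` (`d - 1 < a`, or `d = 0`). So `Ext^d(k, K) = 0`, contradiction.
* If `d ≤ a` and `n ≥ 2`: `Ext^i(k, K) = 0` for `i < d`. Induction hypothesis with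
  `(n - 1, K, d)`: `Dp S (n - 1 + d)`, and `d < n - 1 + d`, contradiction.
-/

set_option autoImplicit false
open CategoryTheory CategoryTheory.Abelian IsLocalRing
open Pool.Agent.Lib.Helper92

namespace Pool.Agent.Lib.H44V
universe u
variable {S : Type u} [CommRing S]

lemma D2_iso {A B W : ModuleCat.{u} S} (e : A ≅ B) (j : ℕ) (h : Subsingleton (Ext W A j)) :
    Subsingleton (Ext W B j) := by
  refine ⟨fun a b => ?_⟩
  rw [← sub_eq_zero]
  have h1 : (a - b).comp (Ext.mk₀ e.inv) (add_zero j) = 0 := @Subsingleton.elim _ h _ _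
  calc a - b = (a - b).comp (Ext.mk₀ (𝟙 B)) (add_zero j) := (Ext.comp_mk₀_id (a - b)).symm
    _ = (a - b).comp (Ext.mk₀ (e.inv ≫ e.hom)) (add_zero j) := by rw [e.inv_hom_id]
    _ = ((a - b).comp (Ext.mk₀ e.inv) (add_zero j)).comp (Ext.mk₀ e.hom) (add_zero j) := by
        rw [Ext.comp_assoc_of_third_deg_zero, Ext.mk₀_comp_mk₀]
    _ = 0 := by rw [h1, Ext.zero_comp]

/-- a retract of a module with vanishing `Ext`. -/
lemma D2_retract {A B W : ModuleCat.{u} S} (i : A ⟶ B) (r : B ⟶ A) (h : i ≫ r = 𝟙 A) (j : ℕ)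
    (hB : Subsingleton (Ext W B j)) : Subsingleton (Ext W A j) := by
  refine ⟨fun a b => ?_⟩
  rw [← sub_eq_zero]
  have h1 : (a - b).comp (Ext.mk₀ i) (add_zero j) = 0 := @Subsingleton.elim _ hB _ _
  calc a - b = (a - b).comp (Ext.mk₀ (𝟙 A)) (add_zero j) := (Ext.comp_mk₀_id (a - b)).symm
    _ = (a - b).comp (Ext.mk₀ (i ≫ r)) (add_zero j) := by rw [h]
    _ = ((a - b).comp (Ext.mk₀ i) (add_zero j)).comp (Ext.mk₀ r) (add_zero j) := by
        rw [Ext.comp_assoc_of_third_deg_zero, Ext.mk₀_comp_mk₀]
    _ = 0 := by rw [h1, Ext.zero_comp]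

/-- `Ext` into a finite power. -/
lemma D2_pow {W : ModuleCat.{u} S} (b : ℕ) (j : ℕ) (h : Subsingleton (Ext W (ModuleCat.of S S) j)) :
    Subsingleton (Ext W (ModuleCat.of S (Fin b → S)) j) := by
  refine ⟨fun x y => ?_⟩
  rw [← sub_eq_zero]
  generalize x - y = v
  have hid : (𝟙 (ModuleCat.of S (Fin b → S))) = ∑ k : Fin b,
      ModuleCat.ofHom (LinearMap.proj (R := S) (φ := fun _ : Fin b => S) k) ≫
        ModuleCat.ofHom (LinearMap.single S (fun _ : Fin b => S) k) := by
    ext1
    rw [ModuleCat.hom_sum]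
    refine LinearMap.ext fun x => ?_
    rw [LinearMap.sum_apply]
    change x = ∑ k, Pi.single k (x k)
    exact (Finset.univ_sum_single x).symm
  rw [← Ext.comp_mk₀_id v, hid, Ext.mk₀_sum, Ext.comp_sum]
  refine Finset.sum_eq_zero fun k _ => ?_
  rw [← Ext.mk₀_comp_mk₀, ← Ext.comp_assoc_of_third_deg_zero]
  rw [@Subsingleton.elim _ h (v.comp (Ext.mk₀ (ModuleCat.ofHom (LinearMap.proj (R := S)
    (φ := fun _ : Fin b => S) k))) (add_zero j)) 0, Ext.zero_comp]

/-- a map with entries in the maximal ideal is zero on `Ext^j(k, _)`. -/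
lemma D2_zero [IsLocalRing S] {A : ModuleCat.{u} S} {b : ℕ} (f : A ⟶ ModuleCat.of S (Fin b → S))
    (c : ℕ) (e : ModuleCat.of S (Fin c → S) ≅ A)
    (hf : ∀ v : A, ∀ i, (f.hom v) i ∈ maximalIdeal S) (j : ℕ)
    (v : Ext (Qt (maximalIdeal S)) A j) : v.comp (Ext.mk₀ f) (add_zero j) = 0 := by
  have h1 : v = (v.comp (Ext.mk₀ e.inv) (add_zero j)).comp (Ext.mk₀ e.hom) (add_zero j) := by
    rw [Ext.comp_assoc_of_third_deg_zero, Ext.mk₀_comp_mk₀, e.inv_hom_id, Ext.comp_mk₀_id]
  rw [h1, Ext.comp_assoc_of_third_deg_zero, Ext.mk₀_comp_mk₀]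
  generalize v.comp (Ext.mk₀ e.inv) (add_zero j) = w
  -- decompose
  have hsum : e.hom ≫ f = ∑ l : Fin c, ∑ i : Fin b, (f.hom (e.hom.hom (Pi.single l 1)) i) •
      (ModuleCat.ofHom (LinearMap.proj (R := S) (φ := fun _ : Fin c => S) l) ≫
        ModuleCat.ofHom (LinearMap.single S (fun _ : Fin b => S) i)) := by
    ext1
    rw [ModuleCat.hom_sum]
    refine LinearMap.ext fun x => ?_
    have hx : x = ∑ l, x l • (Pi.single l (1 : S) : Fin c → S) := by
      conv_lhs => rw [← Finset.univ_sum_single x]
      refine Finset.sum_congr rfl fun l _ => ?_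
      rw [← Pi.single_smul, smul_eq_mul, mul_one]
    change f.hom (e.hom.hom x) = _
    conv_lhs => rw [hx, map_sum, map_sum]
    rw [LinearMap.sum_apply]
    refine Finset.sum_congr rfl fun l _ => ?_
    rw [map_smul, map_smul, ModuleCat.hom_sum, LinearMap.sum_apply]
    funext i
    rw [Finset.sum_apply, Finset.sum_eq_single i]
    · change x l • (f.hom (e.hom.hom (Pi.single l 1))) i =
        (f.hom (e.hom.hom (Pi.single l 1)) i) • (Pi.single i (x l) : Fin b → S) i
      rw [Pi.single_eq_same, smul_eq_mul, smul_eq_mul, mul_comm]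
    · intro k _ hk
      change (f.hom (e.hom.hom (Pi.single l 1)) k) • (Pi.single k (x l) : Fin b → S) i = 0
      rw [Pi.single_eq_of_ne (Ne.symm hk), smul_zero]
    · intro h; exact absurd (Finset.mem_univ i) h
  rw [hsum, Ext.mk₀_sum, Ext.comp_sum]
  refine Finset.sum_eq_zero fun l _ => ?_
  rw [Ext.mk₀_sum, Ext.comp_sum]
  refine Finset.sum_eq_zero fun i _ => ?_
  rw [Ext.mk₀_smul, Ext.comp_smul]
  exact smul_ext_eq_zero _ (hf _ i)

theorem D2_ab [IsNoetherianRing S] [IsLocalRing S] (n : ℕ) (Y : Type u) [AddCommGroup Y]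
    [Module S Y] [Module.Finite S Y] (h1 : HasProjectiveDimensionLT (ModuleCat.of S Y) (n + 1))
    (h2 : ¬ HasProjectiveDimensionLT (ModuleCat.of S Y) n) (a : ℕ)
    (ha : Dp (ModuleCat.of S Y) a) : Dp (ModuleCat.of S S) (n + a) := by
  classical
  by_contra hcon
  unfold Dp at hcon
  push Not at hcon
  have hex : ∃ d, ¬ Subsingleton (Ext (Qt (maximalIdeal S)) (ModuleCat.of S S) d) := by
    obtain ⟨d, -, hd⟩ := hcon
    exact ⟨d, by rwa [not_subsingleton_iff_nontrivial]⟩
  obtain ⟨d, hdmin, hdn, hd⟩ : ∃ d, (∀ i < d,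
      Subsingleton (Ext (Qt (maximalIdeal S)) (ModuleCat.of S S) i)) ∧ d < n + a ∧
      ¬ Subsingleton (Ext (Qt (maximalIdeal S)) (ModuleCat.of S S) d) := by
    refine ⟨Nat.find hex, fun i hi => ?_, ?_, Nat.find_spec hex⟩
    · exact not_not.mp (Nat.find_min hex hi)
    · obtain ⟨d, hd1, hd2⟩ := hcon
      exact (Nat.find_le (h := hex) (n := d) (by rwa [not_subsingleton_iff_nontrivial])).trans_lt hd1
  clear hcon hex
  have hfreeY : ∀ (Z : Type u) [AddCommGroup Z] [Module S Z] [Module.Finite S Z],
      HasProjectiveDimensionLT (ModuleCat.of S Z) 1 → ∃ c : ℕ,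
        Nonempty ((Fin c → S) ≃ₗ[S] Z) := by
    intro Z _ _ _ h
    have h1 : Projective (ModuleCat.of S Z) := projective_iff_hasProjectiveDimensionLT_one.mpr h
    have h2 : Module.Projective S Z := (IsProjective.iff_projective (R := S) Z).mpr h1
    have : Module.Free S Z := Module.free_of_flat_of_isLocalRing
    exact ⟨_, ⟨(Module.finBasis S Z).equivFun.symm⟩⟩
  have hne : ∀ c : ℕ, c ≠ 0 →
      ¬ Subsingleton (Ext (Qt (maximalIdeal S)) (ModuleCat.of S (Fin c → S)) d) := by
    intro c hc hsub
    obtain ⟨c', rfl⟩ := Nat.exists_eq_succ_of_ne_zero hc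
    apply hd
    refine D2_retract (ModuleCat.ofHom (LinearMap.single S (fun _ : Fin (c' + 1) => S) 0))
      (ModuleCat.ofHom (LinearMap.proj (R := S) (φ := fun _ : Fin (c' + 1) => S) 0)) ?_ d hsub
    ext
    change (Pi.single 0 (1 : S) : Fin (c' + 1) → S) 0 = 1
    rw [Pi.single_eq_same]
  induction n generalizing Y a with
  | zero =>
    obtain ⟨c, ⟨e⟩⟩ := hfreeY Y h1
    have hc : c ≠ 0 := by
      rintro rfl
      apply h2
      rw [hasProjectiveDimensionLT_zero_iff_isZero, ModuleCat.isZero_iff_subsingleton]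
      exact e.symm.injective.subsingleton
    exact hne c hc (D2_iso e.symm.toModuleIso d (ha d (by omega)))
  | succ n ih =>
    obtain ⟨b, f, hf, hmin⟩ := exists_minimal_presentation (R := S) Y
    have hex := LinearMap.shortExact_shortComplexKer hf
    have hproj : Projective (ModuleCat.of S (Fin b → S)) := inferInstance
    have hK1 : HasProjectiveDimensionLT (ModuleCat.of S (LinearMap.ker f)) (n + 1) :=
      (hex.hasProjectiveDimensionLT_X₃_iff n hproj).mp h1
    have hstep : ∀ i, (∀ l, l + 1 = i → l < a) →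
        Subsingleton (Ext (Qt (maximalIdeal S)) (ModuleCat.of S (Fin b → S)) i) →
        Subsingleton (Ext (Qt (maximalIdeal S)) (ModuleCat.of S (LinearMap.ker f)) i) := by
      intro i hi hsub
      refine ⟨fun x y => ?_⟩
      rw [← sub_eq_zero]
      generalize x - y = v
      have h0 : v.comp (Ext.mk₀ (f.shortComplexKer).f) (add_zero i) = 0 :=
        @Subsingleton.elim _ hsub _ _
      rcases i with _ | i
      · have hinj := Ext.postcomp_mk₀_injective_of_mono (Qt (maximalIdeal S))
          (f.shortComplexKer).f (hf := hex.mono_f)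
        apply hinj
        rw [map_zero]
        exact h0
      · obtain ⟨w, hw⟩ := Ext.covariant_sequence_exact₁ _ hex v h0 (n₀ := i) rfl
        rw [← hw, @Subsingleton.elim _ (ha i (hi i rfl)) w 0, Ext.zero_comp]
    by_cases hda : a + 1 ≤ d
    · -- `d ≥ a + 1`
      by_cases hn : HasProjectiveDimensionLT (ModuleCat.of S (LinearMap.ker f)) n
      · rcases n with _ | n
        · -- then `Y` is free
          have : HasProjectiveDimensionLT (ModuleCat.of S (LinearMap.ker f)) 0 := hn
          rw [hasProjectiveDimensionLT_zero_iff_isZero,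
            ModuleCat.isZero_iff_subsingleton] at this
          apply h2
          have hinj : Function.Injective f := by
            rw [← LinearMap.ker_eq_bot]
            exact Submodule.subsingleton_iff_eq_bot.mp this
          have hfree : Module.Free S Y := Module.Free.of_equiv (LinearEquiv.ofBijective f ⟨hinj, hf⟩)
          have : Projective (ModuleCat.of S Y) :=
            (IsProjective.iff_projective (R := S) Y).mp inferInstance
          exact projective_iff_hasProjectiveDimensionLT_one.mp this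
        · exact h2 ((hex.hasProjectiveDimensionLT_X₃_iff n hproj).mpr hn)
      · refine ih (LinearMap.ker f) hK1 hn (a + 1) ?_ (by omega)
        intro i hi
        exact hstep i (fun l hl => by omega) (D2_pow b i (hdmin i (by omega)))
    · push Not at hda
      have hn : ¬ HasProjectiveDimensionLT (ModuleCat.of S (LinearMap.ker f)) n := by
        intro hn
        rcases n with _ | n
        · have : HasProjectiveDimensionLT (ModuleCat.of S (LinearMap.ker f)) 0 := hn
          rw [hasProjectiveDimensionLT_zero_iff_isZero,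
            ModuleCat.isZero_iff_subsingleton] at this
          apply h2
          have hinj : Function.Injective f := by
            rw [← LinearMap.ker_eq_bot]
            exact Submodule.subsingleton_iff_eq_bot.mp this
          have hfree : Module.Free S Y := Module.Free.of_equiv (LinearEquiv.ofBijective f ⟨hinj, hf⟩)
          have : Projective (ModuleCat.of S Y) :=
            (IsProjective.iff_projective (R := S) Y).mp inferInstance
          exact projective_iff_hasProjectiveDimensionLT_one.mp this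
        · exact h2 ((hex.hasProjectiveDimensionLT_X₃_iff n hproj).mpr hn)
      rcases n with _ | n
      · -- `n = 1`
        obtain ⟨c, ⟨e⟩⟩ := hfreeY (LinearMap.ker f) hK1
        have hc : c ≠ 0 := by
          rintro rfl
          apply hn
          rw [hasProjectiveDimensionLT_zero_iff_isZero, ModuleCat.isZero_iff_subsingleton]
          exact e.symm.injective.subsingleton
        apply hne c hc
        refine D2_iso e.symm.toModuleIso d ?_
        refine ⟨fun x y => ?_⟩
        rw [← sub_eq_zero]
        generalize x - y = v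
        have h0 : v.comp (Ext.mk₀ (f.shortComplexKer).f) (add_zero d) = 0 := by
          refine D2_zero (A := ModuleCat.of S (LinearMap.ker f)) (f.shortComplexKer).f c
            e.toModuleIso ?_ d v
          intro v i
          exact hmin v.1 v.2 i
        rcases d with _ | d
        · have hinj := Ext.postcomp_mk₀_injective_of_mono (Qt (maximalIdeal S))
            (f.shortComplexKer).f (hf := hex.mono_f)
          apply hinj
          rw [map_zero]
          exact h0
        · obtain ⟨w, hw⟩ := Ext.covariant_sequence_exact₁ _ hex v h0 (n₀ := d) rfl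
          rw [← hw, @Subsingleton.elim _ (ha d (by omega)) w 0, Ext.zero_comp]
      · refine ih (LinearMap.ker f) hK1 hn d ?_ (by omega)
        intro i hi
        exact hstep i (fun l hl => by omega) (D2_pow b i (hdmin i hi))

end Pool.Agent.Lib.H44V
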