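import Pool.Agent.Lib.H44V.K1
import Pool.Agent.Lib.H44V.D2

/-!
# F4 (S/M): depth of a cokernel; kernels supported at the maximal ideal

`F4_coker`: `Ext^j(k, G) → Ext^j(k, Y) → Ext^(j+1)(k, K)` (`Ext.covariant_sequence_exact₃`).
`F4_inj`: let `z ∈ ker f`, `z ≠ 0`. The ideal `ann z` is contained in no prime `Q ≠ m`, so
`m^t z = 0` for some `t`; take the least one and `w ∈ m^(t-1) z`, `w ≠ 0`, `m w = 0`: this gives a
nonzero map `T ⧸ m → K`, contradicting `Ext^0(k, K) = 0` (compare `D3_socle`;
`Ext.addEquiv₀`, `ModuleCat.homAddEquiv`).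
-/

set_option autoImplicit false
open CategoryTheory CategoryTheory.Abelian IsLocalRing TensorProduct
open Pool.Agent.Lib.Helper92

namespace Pool.Agent.Lib.H44V
universe u

theorem F4_coker (T : Type u) [CommRing T] [IsLocalRing T] {K G Y : Type u}
    [AddCommGroup K] [Module T K] [AddCommGroup G] [Module T G] [AddCommGroup Y] [Module T Y]
    (f : K →ₗ[T] G) (g : G →ₗ[T] Y) (hf : Function.Injective f) (hg : Function.Surjective g)
    (hfg : Function.Exact f g) (d : ℕ) (hG : Dp (ModuleCat.of T G) d)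
    (hK : Dp (ModuleCat.of T K) (d + 1)) : Dp (ModuleCat.of T Y) d := by
  intro j hj
  have hS := K1_sc_exact f g hf hg hfg
  refine ⟨fun x y => ?_⟩
  rw [← sub_eq_zero]
  generalize x - y = v
  have h0 : v.comp hS.extClass (rfl : j + 1 = j + 1) = 0 :=
    @Subsingleton.elim _ (hK (j + 1) (by omega)) _ _
  obtain ⟨w, hw⟩ := Ext.covariant_sequence_exact₃ _ hS v rfl h0
  have hw0 : w = 0 := @Subsingleton.elim _ (hG j hj) w 0
  rw [← hw, hw0, Ext.zero_comp]
  rfl

lemma F4_hom {T : Type u} [CommRing T] [IsLocalRing T] {K : Type u} [AddCommGroup K] [Module T K]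
    (hK : Dp (ModuleCat.of T K) 1) (w : K) (hw : ∀ a ∈ maximalIdeal T, a • w = 0) : w = 0 := by
  have h1 : Subsingleton (Ext (Qt (maximalIdeal T)) (ModuleCat.of T K) 0) := hK 0 (by omega)
  have h2 : Subsingleton (Qt (maximalIdeal T) ⟶ ModuleCat.of T K) :=
    Ext.addEquiv₀.symm.subsingleton
  have h3 : Subsingleton ((T ⧸ maximalIdeal T) →ₗ[T] K) :=
    (ModuleCat.homAddEquiv (M := Qt (maximalIdeal T)) (N := ModuleCat.of T K)).symm.subsingleton
  let φ : (T ⧸ maximalIdeal T) →ₗ[T] K := Submodule.liftQ (maximalIdeal T)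
    (LinearMap.toSpanSingleton T K w) (fun a ha => by
      rw [LinearMap.mem_ker, LinearMap.toSpanSingleton_apply]
      exact hw a ha)
  have h4 : φ (Submodule.Quotient.mk 1) = w := by
    change (1 : T) • w = w
    rw [one_smul]
  rw [← h4, @Subsingleton.elim _ h3 φ 0, LinearMap.zero_apply]

theorem F4_inj (T : Type u) [CommRing T] [IsLocalRing T] [IsNoetherianRing T] {K G : Type u}
    [AddCommGroup K] [Module T K] [AddCommGroup G] [Module T G] (f : K →ₗ[T] G)
    (hK : Dp (ModuleCat.of T K) 1)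
    (h : ∀ (Q : Ideal T) [Q.IsPrime], Q ≠ maximalIdeal T → ∀ z : K, f z = 0 →
      ∃ t, t ∉ Q ∧ t • z = 0) : Function.Injective f := by
  rw [injective_iff_map_eq_zero]
  intro z hz
  by_contra hne
  -- the annihilator of `z`
  let N : Ideal T := Ideal.span ({t | t • z = 0})
  have hNmem : ∀ t, t ∈ N ↔ t • z = 0 := by
    intro t
    constructor
    · intro ht
      induction ht using Submodule.span_induction with
      | mem x hx => exact hx
      | zero => exact zero_smul _ _
      | add x y _ _ hx hy => rw [add_smul, hx, hy, add_zero]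
      | smul a x _ hx => rw [smul_eq_mul, mul_smul, hx, smul_zero]
    · intro ht
      exact Ideal.subset_span ht
  have hrad : maximalIdeal T ≤ N.radical := by
    rw [Ideal.radical_eq_sInf]
    refine le_sInf ?_
    rintro Q ⟨hNQ, hQ⟩
    by_contra hmQ
    have hQm : Q ≠ maximalIdeal T := fun h => hmQ h.ge
    obtain ⟨t, ht, htz⟩ := h Q hQm z hz
    exact ht (hNQ ((hNmem t).mpr htz))
  obtain ⟨n, hn⟩ := Ideal.exists_pow_le_of_le_radical_of_fg hrad (IsNoetherian.noetherian _)
  -- minimal power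
  classical
  have hex : ∃ n, ∀ a ∈ (maximalIdeal T) ^ n, a • z = 0 := ⟨n, fun a ha => (hNmem a).mp (hn ha)⟩
  have hspec := Nat.find_spec hex
  rcases hk : Nat.find hex with _ | k
  · rw [hk] at hspec
    apply hne
    have := hspec 1 (by rw [pow_zero, Ideal.one_eq_top]; trivial)
    rwa [one_smul] at this
  · have hmin := Nat.find_min hex (m := k) (by omega)
    push Not at hmin
    obtain ⟨a, ha, haz⟩ := hmin
    apply haz
    refine F4_hom hK _ ?_
    intro b hb
    rw [hk] at hspec
    rw [← mul_smul]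
    apply hspec
    rw [pow_succ, mul_comm b a]
    exact Ideal.mul_mem_mul ha hb

theorem F4_pi (T : Type u) [CommRing T] [IsLocalRing T] (d : ℕ) (h : Dp (ModuleCat.of T T) d)
    (G : Type u) [AddCommGroup G] [Module T G] [Module.Free T G] [Module.Finite T G] :
    Dp (ModuleCat.of T G) d := by
  intro j hj
  have h1 := D2_pow (W := Qt (maximalIdeal T)) (Module.finrank T G) j (h j hj)
  exact D2_iso (Module.finBasis T G).equivFun.symm.toModuleIso j h1

end Pool.Agent.Lib.H44V
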