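import Pool.Agent.Lib.H44V.Defs

/-!
# K1 (M): the length of `Ext^n(-, S)`

All from the exact sequence `Ext^n(Z, S) → Ext^n(Y, S) → Ext^n(X, S) → Ext^{n+1}(Z, S)`
(`Ext.contravariant_sequence_exact₂`, `…₁`) for `0 → X → Y → Z → 0`, whose maps
`v ↦ (Ext.mk₀ _).comp v` are `S`-linear (`Ext.comp_smul`, `Ext.comp_add`), and
`Module.length_eq_add_of_exact`, `Module.length_le_of_injective`,
`Module.length_le_of_surjective`. The short exact sequence in `ModuleCat`:
`ModuleCat.shortComplex_shortExact` (see `Helper92.sesI_exact`). `K1_iso`: composition with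
`Ext.mk₀` of the isomorphism. `K1_pi`: `Ext^n(ι → Y, S) ≃ ι → Ext^n(Y, S)` (components: composition
with `Ext.mk₀` of `LinearMap.single` and `LinearMap.proj`, compare `Helper92.lift_free`) and
`Module.length_pi_of_fintype`.
-/

set_option autoImplicit false
open CategoryTheory CategoryTheory.Abelian IsLocalRing
open Pool.Agent.Lib.Helper92

namespace Pool.Agent.Lib.H44V
universe u
variable {S : Type u} [CommRing S]

variable {X Y Z : Type u} [AddCommGroup X] [Module S X] [AddCommGroup Y] [Module S Y]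
  [AddCommGroup Z] [Module S Z]

/-- composition with a morphism in the first variable, as a linear map. -/
noncomputable def K1_pre {A B : ModuleCat.{u} S} (n : ℕ) (φ : A ⟶ B) (W : ModuleCat.{u} S) :
    Ext B W n →ₗ[S] Ext A W n where
  toFun v := (Ext.mk₀ φ).comp v (zero_add n)
  map_add' a b := Ext.comp_add _ _ _ _
  map_smul' c a := Ext.comp_smul _ _ _ _

/-- the short complex. -/
noncomputable def K1_sc (f : X →ₗ[S] Y) (g : Y →ₗ[S] Z) (hfg : Function.Exact f g) :
    ShortComplex (ModuleCat.{u} S) :=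
  ModuleCat.shortComplexOfCompEqZero f g hfg.linearMap_comp_eq_zero

lemma K1_sc_exact (f : X →ₗ[S] Y) (g : Y →ₗ[S] Z) (hf : Function.Injective f)
    (hg : Function.Surjective g) (hfg : Function.Exact f g) : (K1_sc f g hfg).ShortExact :=
  ModuleCat.shortComplex_shortExact _ hfg hf hg

lemma K1_exact (n : ℕ) (f : X →ₗ[S] Y) (g : Y →ₗ[S] Z) (hf : Function.Injective f)
    (hg : Function.Surjective g) (hfg : Function.Exact f g) (W : ModuleCat.{u} S) :
    Function.Exact (K1_pre n (ModuleCat.ofHom g) W) (K1_pre n (ModuleCat.ofHom f) W) := by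
  intro v
  constructor
  · intro hv
    obtain ⟨w, hw⟩ := Ext.contravariant_sequence_exact₂ (K1_sc_exact f g hf hg hfg) W v hv
    exact ⟨w, hw⟩
  · rintro ⟨w, rfl⟩
    change (Ext.mk₀ (ModuleCat.ofHom f)).comp ((Ext.mk₀ (ModuleCat.ofHom g)).comp w (zero_add n))
      (zero_add n) = 0
    rw [Ext.mk₀_comp_mk₀_assoc]
    have : ModuleCat.ofHom f ≫ ModuleCat.ofHom g = 0 := (K1_sc f g hfg).zero
    rw [this, Ext.mk₀_zero, Ext.zero_comp]

theorem K1_add (n : ℕ) (f : X →ₗ[S] Y) (g : Y →ₗ[S] Z) (hf : Function.Injective f)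
    (hg : Function.Surjective g) (hfg : Function.Exact f g) :
    lam n (ModuleCat.of S Y) ≤ lam n (ModuleCat.of S X) + lam n (ModuleCat.of S Z) := by
  have hex := K1_exact n f g hf hg hfg (ModuleCat.of S S)
  set φ := K1_pre n (ModuleCat.ofHom g) (ModuleCat.of S S)
  set ψ := K1_pre n (ModuleCat.ofHom f) (ModuleCat.of S S)
  have h1 := Module.length_eq_add_of_exact (LinearMap.ker ψ).subtype ψ.rangeRestrict
    (Submodule.subtype_injective _) ψ.surjective_rangeRestrict (by
      intro y
      constructor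
      · intro hy
        refine ⟨⟨y, ?_⟩, rfl⟩
        exact congrArg Subtype.val hy
      · rintro ⟨z, rfl⟩
        exact Subtype.ext z.2)
  have h2 : Module.length S (LinearMap.ker ψ) ≤ lam n (ModuleCat.of S Z) := by
    refine Module.length_le_of_surjective (LinearMap.codRestrict (LinearMap.ker ψ) φ ?_) ?_
    · intro w
      exact (hex _).mpr ⟨w, rfl⟩
    · rintro ⟨y, hy⟩
      obtain ⟨w, hw⟩ := (hex y).mp hy
      exact ⟨w, Subtype.ext hw⟩
  have h3 : Module.length S (LinearMap.range ψ) ≤ lam n (ModuleCat.of S X) :=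
    Module.length_le_of_injective (LinearMap.range ψ).subtype (Submodule.subtype_injective _)
  change Module.length S (Ext (ModuleCat.of S Y) (ModuleCat.of S S) n) ≤ _
  rw [h1, add_comm]
  exact add_le_add h3 h2

theorem K1_ker (n : ℕ) (f : X →ₗ[S] Y) (g : Y →ₗ[S] Z) (hf : Function.Injective f)
    (hg : Function.Surjective g) (hfg : Function.Exact f g)
    (hX : Subsingleton (Ext (ModuleCat.of S X) (ModuleCat.of S S) n)) :
    lam n (ModuleCat.of S Y) ≤ lam n (ModuleCat.of S Z) := by
  have hex := K1_exact n f g hf hg hfg (ModuleCat.of S S)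
  refine Module.length_le_of_surjective (K1_pre n (ModuleCat.ofHom g) (ModuleCat.of S S)) ?_
  intro y
  exact (hex y).mp (@Subsingleton.elim _ hX _ _)

theorem K1_coker (n : ℕ) (f : X →ₗ[S] Y) (g : Y →ₗ[S] Z) (hf : Function.Injective f)
    (hg : Function.Surjective g) (hfg : Function.Exact f g)
    (hZ : Subsingleton (Ext (ModuleCat.of S Z) (ModuleCat.of S S) (n + 1))) :
    lam n (ModuleCat.of S X) ≤ lam n (ModuleCat.of S Y) := by
  refine Module.length_le_of_surjective (K1_pre n (ModuleCat.ofHom f) (ModuleCat.of S S)) ?_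
  intro v
  have h0 : (K1_sc_exact f g hf hg hfg).extClass.comp v (add_comm 1 n) = 0 :=
    @Subsingleton.elim _ hZ _ _
  obtain ⟨w, hw⟩ := Ext.contravariant_sequence_exact₁ (K1_sc_exact f g hf hg hfg)
    (ModuleCat.of S S) v (add_comm 1 n) h0
  exact ⟨w, hw⟩

theorem K1_iso (n : ℕ) (e : X ≃ₗ[S] Y) :
    lam n (ModuleCat.of S X) = lam n (ModuleCat.of S Y) := by
  have key : ∀ (A B : Type u) [AddCommGroup A] [Module S A] [AddCommGroup B] [Module S B]
      (e : A ≃ₗ[S] B), lam n (ModuleCat.of S A) ≤ lam n (ModuleCat.of S B) := by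
    intro A B _ _ _ _ e
    refine Module.length_le_of_surjective
      (K1_pre n (ModuleCat.ofHom e.toLinearMap) (ModuleCat.of S S)) ?_
    intro v
    refine ⟨K1_pre n (ModuleCat.ofHom e.symm.toLinearMap) (ModuleCat.of S S) v, ?_⟩
    change (Ext.mk₀ (ModuleCat.ofHom e.toLinearMap)).comp
      ((Ext.mk₀ (ModuleCat.ofHom e.symm.toLinearMap)).comp v (zero_add n)) (zero_add n) = v
    rw [Ext.mk₀_comp_mk₀_assoc]
    have : ModuleCat.ofHom e.toLinearMap ≫ ModuleCat.ofHom e.symm.toLinearMap =
        𝟙 (ModuleCat.of S A) := by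
      ext x
      exact e.symm_apply_apply x
    rw [this, Ext.mk₀_id_comp]
  exact le_antisymm (key X Y e) (key Y X e.symm)

theorem K1_pi (n : ℕ) (ι : Type) [Fintype ι] :
    lam n (ModuleCat.of S (ι → Y)) = Fintype.card ι * lam n (ModuleCat.of S Y) := by
  classical
  let pr : ι → (ModuleCat.of S (ι → Y) ⟶ ModuleCat.of S Y) := fun i =>
    ModuleCat.ofHom (LinearMap.proj (R := S) (φ := fun _ : ι => Y) i)
  let si : ι → (ModuleCat.of S Y ⟶ ModuleCat.of S (ι → Y)) := fun i =>
    ModuleCat.ofHom (LinearMap.single S (fun _ : ι => Y) i)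
  have h1 : ∀ i j, si i ≫ pr j = if i = j then 𝟙 _ else 0 := by
    intro i j
    ext y
    change (Pi.single i y : ι → Y) j = _
    by_cases hij : i = j
    · subst hij
      rw [Pi.single_eq_same, if_pos rfl]
      rfl
    · rw [Pi.single_eq_of_ne (Ne.symm hij), if_neg hij]
      rfl
  have h2 : 𝟙 (ModuleCat.of S (ι → Y)) = ∑ i, pr i ≫ si i := by
    ext1
    rw [ModuleCat.hom_sum]
    refine LinearMap.ext fun x => ?_
    rw [LinearMap.sum_apply]
    change x = ∑ k, Pi.single k (x k)
    exact (Finset.univ_sum_single x).symm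
  let W := ModuleCat.of S S
  let E : Ext (ModuleCat.of S (ι → Y)) W n ≃ₗ[S] (ι → Ext (ModuleCat.of S Y) W n) :=
    LinearEquiv.ofBijective (LinearMap.pi fun i => K1_pre n (si i) W) (by
      constructor
      · intro v w hvw
        have h3 : ∀ v : Ext (ModuleCat.of S (ι → Y)) W n,
            v = ∑ i, (Ext.mk₀ (pr i)).comp ((Ext.mk₀ (si i)).comp v (zero_add n)) (zero_add n) := by
          intro v
          conv_lhs => rw [← Ext.mk₀_id_comp v, h2, Ext.mk₀_sum, Ext.sum_comp]
          refine Finset.sum_congr rfl fun i _ => ?_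
          rw [Ext.mk₀_comp_mk₀_assoc]
        rw [h3 v, h3 w]
        refine Finset.sum_congr rfl fun i _ => ?_
        have := congrFun hvw i
        change (Ext.mk₀ (si i)).comp v (zero_add n) = (Ext.mk₀ (si i)).comp w (zero_add n) at this
        rw [this]
      · intro v
        refine ⟨∑ i, (Ext.mk₀ (pr i)).comp (v i) (zero_add n), ?_⟩
        funext j
        change (Ext.mk₀ (si j)).comp (∑ i, (Ext.mk₀ (pr i)).comp (v i) (zero_add n))
          (zero_add n) = v j
        rw [Ext.comp_sum, Finset.sum_eq_single j]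
        · rw [Ext.mk₀_comp_mk₀_assoc, h1, if_pos rfl, Ext.mk₀_id_comp]
        · intro i _ hij
          rw [Ext.mk₀_comp_mk₀_assoc, h1, if_neg (Ne.symm hij), Ext.mk₀_zero, Ext.zero_comp]
        · intro h; exact absurd (Finset.mem_univ j) h)
  change Module.length S (Ext (ModuleCat.of S (ι → Y)) W n) = _
  rw [E.length_eq, Module.length_pi_of_fintype]
  simp [lam, W]

end Pool.Agent.Lib.H44V
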