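import Pool.Agent.Lib.H44V.Defs

/-!
# D5 (M): a regular sequence on `S/I` gives the vanishing of `Ext^j_S(k, S/I)`

Lift the elements of `rs` to `S` (`List.map` of a section of `Ideal.Quotient.mk`); the lifted list
is regular on the `S`-module `S ⧸ I` (`isWeaklyRegular_map_algebraMap_iff`-type lemmas or
`AddEquiv.isRegular_congr`), and its members lie in the maximal ideal of `S` (a regular sequence
does not generate the unit ideal). Then Mathlib's
`ModuleCat.subsingleton_ext_of_exists_isRegular` with the ideal `maximalIdeal S`,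
`N = Qt (maximalIdeal S)`, `M = Qt I` (compare its use in `Helper92.perfect_free`).
-/

set_option autoImplicit false
open CategoryTheory CategoryTheory.Abelian IsLocalRing
open Pool.Agent.Lib.Helper92

namespace Pool.Agent.Lib.H44V
universe u
variable {S : Type u} [CommRing S]

theorem D5_depth [IsNoetherianRing S] [IsLocalRing S] {I : Ideal S} (rs : List (S ⧸ I))
    (hrs : RingTheory.Sequence.IsRegular (S ⧸ I) rs) (d : ℕ) (hd : d ≤ rs.length) :
    Dp (Qt I) d := by
  obtain ⟨ss, rfl⟩ : ∃ ss : List S, ss.map (algebraMap S (S ⧸ I)) = rs :=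
    (List.map_surjective_iff.mpr Ideal.Quotient.mk_surjective) rs
  rw [List.length_map] at hd
  have hnt : Nontrivial (S ⧸ I) := by
    by_contra h
    rw [not_nontrivial_iff_subsingleton] at h
    exact hrs.top_ne_smul (Subsingleton.elim _ _)
  have hmem : ∀ s ∈ ss, s ∈ maximalIdeal S := by
    intro s hs
    by_contra h
    have hu : IsUnit s := by
      by_contra h'
      exact h h'
    have h1 : Ideal.ofList (ss.map (algebraMap S (S ⧸ I))) = ⊤ :=
      Ideal.eq_top_of_isUnit_mem _ (Ideal.subset_span (List.mem_map_of_mem hs))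
        (hu.map (algebraMap S (S ⧸ I)))
    apply hrs.top_ne_smul
    rw [h1, Submodule.top_smul]
  have hw : RingTheory.Sequence.IsWeaklyRegular (S ⧸ I) ss :=
    (RingTheory.Sequence.isWeaklyRegular_map_algebraMap_iff (S ⧸ I) (S ⧸ I) ss).mp
      hrs.toIsWeaklyRegular
  have hr : RingTheory.Sequence.IsRegular (S ⧸ I) ss :=
    (IsLocalRing.isRegular_iff_isWeaklyRegular_of_subset_maximalIdeal hmem).mpr hw
  intro j hj
  have hlt : maximalIdeal S • (⊤ : Submodule S (S ⧸ I)) < ⊤ := by
    rw [lt_top_iff_ne_top]
    intro h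
    have h2 := Submodule.eq_bot_of_le_smul_of_le_jacobson_bot (maximalIdeal S)
      (⊤ : Submodule S (S ⧸ I)) Module.Finite.fg_top h.ge (IsLocalRing.maximalIdeal_le_jacobson _)
    exact top_ne_bot h2
  refine ModuleCat.subsingleton_ext_of_exists_isRegular (maximalIdeal S) (Qt (maximalIdeal S)) ?_
    (Qt I) hlt ss hmem hr j (by omega)
  rw [Module.support_eq_zeroLocus]
  change PrimeSpectrum.zeroLocus (Module.annihilator S (S ⧸ maximalIdeal S) : Set S) ⊆ _
  rw [Ideal.annihilator_quotient]

end Pool.Agent.Lib.H44V
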