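import Pool.Agent.Lib.H44V.Defs

/-!
# L2 (M): localisation of a basis of the normal module

Write `A = Localization.AtPrime P`, `I' = I.map (algebraMap S A)`. `I → I'`, `y ↦ y / 1`, and
`S ⧸ I → A ⧸ I'` are localisations (`IsLocalizedModule P.primeCompl`). Every `g : I →ₗ[S] S ⧸ I`
induces `g' : I' →ₗ[A] A ⧸ I'` (`IsLocalizedModule.map` / `mapExtendScalars`) with
`g' (y / 1) = mk (a / 1)` if `g y = mk a`; take `h' i = (h i)'`.
indep: let `∑ a_i h'_i = 0`; multiplying by a common denominator (a unit of `A`) we may assume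
`a_i = α_i / 1`. For each generator `y` of `I` (finitely many) `(∑ α_i h_i) y` becomes zero in
`A ⧸ I'`, so is killed by some `s ∉ P`; so `∑ s α_i h_i = 0` for one `s ∉ P`, `s α_i ∈ I`,
`a_i ∈ I'`. span: given `g' : I' →ₗ A ⧸ I'`; for the finitely many generators `y` of `I` and a
common denominator `s`, `s g'(y / 1)` is the image of `S ⧸ I`; after another multiplication by some
`s ∉ P` the finitely many relations between the generators are respected, so `s g' = (g)'` for some
`g : I →ₗ[S] S ⧸ I`. (This is Mathlib's `IsLocalizedModule` instance for Hom of a finitely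
presented module: `Mathlib.Algebra.Module.FinitePresentation`, `IsLocalizedModule S
(IsLocalizedModule.map S f g)`.)
-/

set_option autoImplicit false
open CategoryTheory CategoryTheory.Abelian IsLocalRing
open Pool.Agent.Lib.Helper92

namespace Pool.Agent.Lib.H44V
universe u
variable {S : Type u} [CommRing S]

theorem L2_gen [IsNoetherianRing S] (P : Ideal S) [P.IsPrime] {I : Ideal S} {r : ℕ}
    {h : Fin r → (I →ₗ[S] (S ⧸ I))} (hb : NBasis I h) (J : Ideal (Localization.AtPrime P))
    (hJ : Submodule.localized' (Localization.AtPrime P) P.primeCompl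
      (Algebra.linearMap S (Localization.AtPrime P)) I = J)
    (hmem : ∀ y ∈ I, algebraMap S (Localization.AtPrime P) y ∈ J) :
    ∃ h' : Fin r → (J →ₗ[Localization.AtPrime P] (Localization.AtPrime P ⧸ J)),
      NBasis J h' ∧ ∀ (i : Fin r) (y : I) (a : S), h i y = Submodule.Quotient.mk a →
        h' i ⟨algebraMap S (Localization.AtPrime P) y, hmem y y.2⟩ =
          Submodule.Quotient.mk (algebraMap S (Localization.AtPrime P) a) := by
  subst hJ
  let A := Localization.AtPrime P
  let T := P.primeCompl
  let f : I →ₗ[S] Submodule.localized' A T (Algebra.linearMap S A) I :=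
    Submodule.toLocalized' A T (Algebra.linearMap S A) I
  let g : (S ⧸ I) →ₗ[S] (A ⧸ Submodule.localized' A T (Algebra.linearMap S A) I) :=
    Submodule.toLocalizedQuotient' A T (Algebra.linearMap S A) I
  have hfp : Module.FinitePresentation S I := Module.finitePresentation_of_finite S I
  let Φ : (I →ₗ[S] (S ⧸ I)) →ₗ[S] (Submodule.localized' A T (Algebra.linearMap S A) I →ₗ[A]
      (A ⧸ Submodule.localized' A T (Algebra.linearMap S A) I)) :=
    IsLocalizedModule.mapExtendScalars T f g A
  have hΦ : IsLocalizedModule T Φ :=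
    Module.FinitePresentation.isLocalizedModule_mapExtendScalars T f g A
  have hsum : ∀ (α : Fin r → S), ∑ i, algebraMap S A (α i) • Φ (h i) = Φ (∑ i, α i • h i) := by
    intro α
    rw [map_sum]
    refine Finset.sum_congr rfl fun i _ => ?_
    rw [map_smul, algebraMap_smul]
  have hunit : ∀ t : T, IsUnit (algebraMap S A (t : S)) := fun t => IsLocalization.map_units A t
  refine ⟨fun i => Φ (h i), ⟨?_, ?_⟩, ?_⟩
  · intro a ha i
    obtain ⟨b, hbI⟩ := IsLocalization.exist_integer_multiples_of_finite T a
    choose α hα using hbI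
    have h1 : Φ (∑ i, α i • h i) = 0 := by
      rw [← hsum]
      have h2 : ∀ i, algebraMap S A (α i) • Φ (h i) = algebraMap S A (b : S) • (a i • Φ (h i)) := by
        intro i
        rw [hα i, smul_smul, Algebra.smul_def]
      rw [Finset.sum_congr rfl fun i _ => h2 i, ← Finset.smul_sum, ha, smul_zero]
    obtain ⟨s, hs⟩ := (IsLocalizedModule.eq_zero_iff T Φ).1 h1
    have h3 : ∑ i, ((s : S) * α i) • h i = 0 := by
      rw [← hs, Submonoid.smul_def, Finset.smul_sum]
      exact Finset.sum_congr rfl fun i _ => (smul_smul _ _ _).symm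
    have h4 := hb.indep _ h3 i
    have h5 : algebraMap S A ((s : S) * α i) ∈
        Submodule.localized' A T (Algebra.linearMap S A) I := hmem _ h4
    rw [map_mul, hα i, Algebra.smul_def] at h5
    obtain ⟨u, hu⟩ := (hunit s).mul (hunit b)
    have h6 : a i = (↑u⁻¹ : A) • (algebraMap S A (s : S) * (algebraMap S A (b : S) * a i)) := by
      rw [← mul_assoc, ← hu, smul_eq_mul, ← mul_assoc, Units.inv_mul, one_mul]
    rw [h6]
    exact Submodule.smul_mem _ _ h5
  · intro g'
    obtain ⟨⟨x, s⟩, hx⟩ := IsLocalizedModule.surj T Φ g'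
    obtain ⟨a, ha⟩ := hb.span x
    obtain ⟨u, hu⟩ := hunit s
    refine ⟨fun i => (↑u⁻¹ : A) * algebraMap S A (a i), ?_⟩
    have h1 : g' = (↑u⁻¹ : A) • (algebraMap S A (s : S) • g') := by
      rw [smul_smul, ← hu, Units.inv_mul, one_smul]
    have h2 : algebraMap S A (s : S) • g' = ∑ i, algebraMap S A (a i) • Φ (h i) := by
      rw [hsum, ← ha, ← hx, algebraMap_smul]
      rfl
    rw [h1, h2, Finset.smul_sum]
    exact Finset.sum_congr rfl fun i _ => smul_smul _ _ _
  · intro i y a hy
    have h1 : (⟨algebraMap S (Localization.AtPrime P) y, hmem y y.2⟩ :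
        Submodule.localized' A T (Algebra.linearMap S A) I) = f y := rfl
    have h2 : Φ (h i) (f y) = g (h i y) := IsLocalizedModule.map_apply T f g (h i) y
    rw [h1, h2, hy]
    rfl

theorem L2_nbasis [IsNoetherianRing S] (P : Ideal S) [P.IsPrime] {I : Ideal S} {r : ℕ}
    {h : Fin r → (I →ₗ[S] (S ⧸ I))} (hb : NBasis I h) :
    ∃ h' : Fin r → ((I.map (algebraMap S (Localization.AtPrime P)) :
        Ideal (Localization.AtPrime P)) →ₗ[Localization.AtPrime P]
        (Localization.AtPrime P ⧸ I.map (algebraMap S (Localization.AtPrime P)))),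
      NBasis (I.map (algebraMap S (Localization.AtPrime P))) h' ∧
      ∀ (i : Fin r) (y : I) (a : S), h i y = Submodule.Quotient.mk a →
        h' i ⟨algebraMap S (Localization.AtPrime P) y, Ideal.mem_map_of_mem _ y.2⟩ =
          Submodule.Quotient.mk (algebraMap S (Localization.AtPrime P) a) := by
  exact L2_gen P hb _ (Ideal.localized'_eq_map _ _ _) fun y hy => Ideal.mem_map_of_mem _ hy

end Pool.Agent.Lib.H44V
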