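import Pool.Agent.Lib.H44V.E1
import Pool.Agent.Lib.H44V.D4

/-!
# E2 (S/M): `Ext^n(S/I, S)` has finite length

`E2_ci`: by induction on `j ≤ r`: `HasProjectiveDimensionLT (Qt (Jx x j)) (j + 1)`, from
`Helper92.sesT_exact` and `ShortComplex.ShortExact.hasProjectiveDimensionLT_X₃`; `Jx x 0 = ⊥` and
`S ⧸ ⊥ ≃ S` is projective (see `Helper92.GenExt.base`).
`E2_le`: by `Helper92.GenExt.base` and `Helper92.GenExt.step` there is a `GenExt (Jx x r) r u`
class `u`; it is not zero: otherwise `u.comp (Ext.mk₀ (pt 1)) = 0` and `GenExt.inj` gives `1 ∈ I`. So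
`Ext^r(Qt I, S)` is not a subsingleton, hence `r ≤ n`.
`E2_fin`: `Ext (Qt I) S n` is a finite `S`-module (`ModuleCat.finite_ext`). For a prime `P ≠ m`
the module `LocalizedModule P.primeCompl (S ⧸ I)` is isomorphic to `S_P ⧸ I S_P` (see `L1_qt`), so
`E1_ann` gives `s ∉ P` killing it. So it has finite length by `D4_fl`
(`Module.length_ne_top_iff`).
-/

set_option autoImplicit false
open CategoryTheory CategoryTheory.Abelian IsLocalRing
open Pool.Agent.Lib.Helper92

namespace Pool.Agent.Lib.H44V
universe u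
variable {S : Type u} [CommRing S]

theorem E2_ci {I : Ideal S} {r : ℕ} (h : CI I r) : HasProjectiveDimensionLT (Qt I) (r + 1) := by
  obtain ⟨x, hreg, rfl⟩ := h
  suffices h : ∀ j ≤ r, HasProjectiveDimensionLT (Qt (Jx x j)) (j + 1) from h r le_rfl
  intro j
  induction j with
  | zero =>
    intro _
    have : Projective (Qt (⊥ : Ideal S)) := by
      have : Projective (ModuleCat.of S S) := inferInstance
      exact Projective.of_iso (Submodule.quotEquivOfEqBot (⊥ : Ideal S) rfl).symm.toModuleIso this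
    change HasProjectiveDimensionLT (Qt (⊥ : Ideal S)) 1
    infer_instance
  | succ j ih =>
    intro hj
    have h1 := ih (by omega)
    have h2 : HasProjectiveDimensionLT (Qt (Jx x j)) (j + 2) :=
      hasProjectiveDimensionLT_of_ge _ (j + 1) (j + 2) (by omega)
    exact (sesT_exact (Jx x j) (x j) (hreg j (by omega))).hasProjectiveDimensionLT_X₃
      (j + 1) h1 h2

theorem E2_gen (x : ℕ → S) (r : ℕ) (hreg : ∀ j < r, IsSMulRegular (S ⧸ Jx x j) (x j)) :
    ∀ j ≤ r, ∃ u : Ext (Qt (Jx x j)) (ModuleCat.of S S) j, GenExt (Jx x j) j u := by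
  intro j
  induction j with
  | zero => exact fun _ => ⟨_, GenExt.base _ rfl⟩
  | succ j ih =>
    intro hj
    obtain ⟨u, hu⟩ := ih (by omega)
    have h1 : ∃ u : Ext (Qt (Jx x j ⊔ Ideal.span {x j})) (ModuleCat.of S S) (1 + j),
      GenExt (Jx x j ⊔ Ideal.span {x j}) (1 + j) u := ⟨_, hu.step (x j) (hreg j (by omega))⟩
    rw [add_comm 1 j] at h1
    exact h1

theorem E2_le {I : Ideal S} (hI : I ≠ ⊤) {r n : ℕ} (h : CI I r)
    (hpd : HasProjectiveDimensionLT (Qt I) (n + 1)) : r ≤ n := by
  by_contra hlt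
  obtain ⟨x, hreg, rfl⟩ := h
  obtain ⟨u, hu⟩ := E2_gen x r hreg r le_rfl
  have h1 : Subsingleton (Ext (Qt (Jx x r)) (ModuleCat.of S S) r) :=
    HasProjectiveDimensionLT.subsingleton _ (n + 1) r (by omega) _
  have h2 := hu.inj (ModuleCat.of S S) (1 : S) (Subsingleton.elim _ _)
  apply hI
  rw [Ideal.eq_top_iff_one]
  have h3 : (Jx x r) • (⊤ : Submodule S S) = Jx x r := by
    rw [smul_eq_mul]; exact Ideal.mul_top _
  rw [← h3]
  exact h2

theorem E2_loc (P : Ideal S) [P.IsPrime] (n : ℕ) (I : Ideal S)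
    (h : HasProjectiveDimensionLT (Qt (I.map (algebraMap S (Localization.AtPrime P)))) n) :
    HasProjectiveDimensionLT
      (ModuleCat.of (Localization.AtPrime P) (LocalizedModule P.primeCompl (S ⧸ I))) n := by
  have h1 : HasProjectiveDimensionLT (Qt (Submodule.localized' (Localization P.primeCompl)
      P.primeCompl (Algebra.linearMap S (Localization P.primeCompl)) I)) n := by
    rw [Ideal.localized'_eq_map]
    exact h
  let e : (LocalizedModule P.primeCompl (S ⧸ I)) ≃ₗ[S]
      (Localization P.primeCompl ⧸ (Submodule.localized' (Localization P.primeCompl) P.primeCompl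
        (Algebra.linearMap S (Localization P.primeCompl)) I)) :=
    IsLocalizedModule.linearEquiv P.primeCompl (LocalizedModule.mkLinearMap P.primeCompl (S ⧸ I))
      (Submodule.toLocalizedQuotient' (Localization P.primeCompl) P.primeCompl
        (Algebra.linearMap S (Localization P.primeCompl)) I)
  let e' := e.extendScalarsOfIsLocalization P.primeCompl (Localization P.primeCompl)
  exact hasProjectiveDimensionLT_of_iso
    (X := Qt (Submodule.localized' (Localization P.primeCompl)
      P.primeCompl (Algebra.linearMap S (Localization P.primeCompl)) I))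
    (X' := ModuleCat.of (Localization P.primeCompl) (LocalizedModule P.primeCompl (S ⧸ I)))
    e'.symm.toModuleIso n

theorem E2_fin [IsNoetherianRing S] [IsLocalRing S] (n : ℕ) (I : Ideal S)
    (h : ∀ (P : Ideal S) [P.IsPrime], P ≠ maximalIdeal S →
      HasProjectiveDimensionLT (Qt (I.map (algebraMap S (Localization.AtPrime P)))) n) :
    lam n (Qt I) ≠ ⊤ := by
  unfold lam
  rw [Module.length_ne_top_iff]
  refine D4_fl _ fun P _ hP z => ?_
  obtain ⟨s, hs, hs'⟩ := E1_ann P n (S ⧸ I) (E2_loc P n I (h P hP))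
  exact ⟨s, hs, hs' _ z⟩

end Pool.Agent.Lib.H44V
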