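import Pool.Agent.Lib.H44V.F2

/-!
# F3 (M): `Ext^i(A/(x), B^+) = 0` if `x` is regular on `A` and on `B`

Induction on `r`. `r = 0`: `A ⧸ ⊥` is projective. Step: `J = Jx x r`,
`0 → A/J → A/J → A/(J + x_r) → 0` (`Helper92.sesT_exact`). For `i ≥ 2`:
`Ext^(i-1)(A/J, E) → Ext^i(A/(J+x), E) → Ext^i(A/J, E)` has zero ends. For `i = 1`: every class in
`Ext^1(A/(J+x), E)` comes from some `φ : A/J → E`, and it is zero as soon as `φ = x_r • ψ`.
`E = B^+`: maps `φ : A/J → B^+` correspond to elements `φ(1) ∈ B^+` killed by `J`, i.e. to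
characters of `B / J B`, `J B = Jx (algebraMap ∘ x) r`; multiplication by `x_r` is injective on
`B / J B` by `hB`, so dually surjective on characters
(`CharacterModule.dual_surjective_of_injective`).
-/

set_option autoImplicit false
open CategoryTheory CategoryTheory.Abelian IsLocalRing TensorProduct
open Pool.Agent.Lib.Helper92

namespace Pool.Agent.Lib.H44V
universe u

lemma F3_Jx_map {A B : Type u} [CommRing A] [CommRing B] (f : A →+* B) (x : ℕ → A) (r : ℕ) :
    (Jx x r).map f = Jx (fun i => f (x i)) r := by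
  induction r with
  | zero => exact Ideal.map_bot
  | succ r ih =>
    change (Jx x r ⊔ Ideal.span {x r}).map f = Jx (fun i => f (x i)) r ⊔ Ideal.span {f (x r)}
    rw [Ideal.map_sup, ih, Ideal.map_span, Set.image_singleton]

lemma F3_tensor {A B : Type u} [CommRing A] [CommRing B] [Algebra A B] (J : Ideal A) (x : A)
    (h : IsSMulRegular (B ⧸ J.map (algebraMap A B)) (algebraMap A B x)) :
    Function.Injective ((LinearMap.lsmul A (A ⧸ J) x).rTensor B) := by
  have h1 : ∀ z : (A ⧸ J) ⊗[A] B, (LinearMap.lsmul A (A ⧸ J) x).rTensor B z = x • z := by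
    intro z
    induction z with
    | zero => simp
    | tmul a b => simp [TensorProduct.smul_tmul']
    | add a b ha hb => rw [map_add, ha, hb, smul_add]
  rw [injective_iff_map_eq_zero]
  intro z hz
  rw [h1] at hz
  let e := TensorProduct.quotTensorEquivQuotSMul B J
  have h2 : x • e z = 0 := by rw [← map_smul, hz, map_zero]
  obtain ⟨b, hb⟩ := Submodule.mkQ_surjective _ (e z)
  rw [← hb, Submodule.mkQ_apply, ← Submodule.Quotient.mk_smul, Submodule.Quotient.mk_eq_zero,
    Ideal.smul_top_eq_map, Submodule.restrictScalars_mem] at h2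
  have h3 : algebraMap A B x • (Ideal.Quotient.mk (J.map (algebraMap A B)) b) =
      algebraMap A B x • (0 : B ⧸ J.map (algebraMap A B)) := by
    rw [smul_zero]
    change Ideal.Quotient.mk (J.map (algebraMap A B)) (algebraMap A B x * b) = 0
    rw [Ideal.Quotient.eq_zero_iff_mem, ← Algebra.smul_def]
    exact h2
  have h4 := h h3
  rw [Ideal.Quotient.eq_zero_iff_mem] at h4
  have h5 : e z = 0 := by
    rw [← hb, Submodule.mkQ_apply, Submodule.Quotient.mk_eq_zero, Ideal.smul_top_eq_map]
    exact h4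
  exact (LinearEquiv.map_eq_zero_iff e).mp h5

theorem F3_koszul (A B : Type u) [CommRing A] [CommRing B] [Algebra A B] (x : ℕ → A) (r : ℕ)
    (hreg : ∀ j < r, IsSMulRegular (A ⧸ Jx x j) (x j))
    (hB : ∀ j < r, IsSMulRegular (B ⧸ Jx (fun i => algebraMap A B (x i)) j)
      (algebraMap A B (x j))) :
    ∀ i, 1 ≤ i → Subsingleton
      (Ext (Qt (Jx x r)) (ModuleCat.of A (CharacterModule B)) i) := by
  induction r with
  | zero =>
    intro i hi
    have : Module.Projective A (A ⧸ (Jx x 0)) :=
      Module.Projective.of_equiv (Submodule.quotEquivOfEqBot (Jx x 0) rfl).symm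
    exact F2_proj (G := A ⧸ (Jx x 0)) _ i hi
  | succ r ih =>
    intro i hi
    have ih' := ih (fun j hj => hreg j (by omega)) (fun j hj => hB j (by omega))
    have hx := hreg r (by omega)
    have hS := sesT_exact (Jx x r) (x r) hx
    have hBr := hB r (by omega)
    rw [← F3_Jx_map (algebraMap A B) x r] at hBr
    have hinj := F3_tensor (Jx x r) (x r) hBr
    rw [rTensor_injective_iff_lcomp_surjective] at hinj
    obtain ⟨k, rfl⟩ := Nat.exists_eq_add_of_le hi
    refine ⟨fun a b => ?_⟩
    rw [← sub_eq_zero]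
    generalize a - b = v
    have h0 : (Ext.mk₀ (sesT (Jx x r) (x r)).g).comp v (zero_add _) = 0 :=
      @Subsingleton.elim _ (ih' (1 + k) hi) _ _
    obtain ⟨w, hw⟩ := Ext.contravariant_sequence_exact₃ hS _ v h0 rfl
    rcases Nat.eq_zero_or_pos k with rfl | hk
    · obtain ⟨φ, rfl⟩ := (Ext.mk₀_bijective _ _).2 w
      let φ' : (A ⧸ Jx x r) →ₗ[A] CharacterModule B := φ.hom
      obtain ⟨χ, hχ⟩ := hinj φ'
      let χ' : (sesT (Jx x r) (x r)).X₂ ⟶ ModuleCat.of A (CharacterModule B) := ModuleCat.ofHom χ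
      have hφ : φ = (sesT (Jx x r) (x r)).f ≫ χ' := by
        apply ModuleCat.hom_ext
        exact hχ.symm
      rw [← hw, hφ, ← Ext.mk₀_comp_mk₀]
      exact hS.extClass_comp_assoc _
    · have hw0 : w = 0 := @Subsingleton.elim _ (ih' k hk) _ _
      rw [← hw, hw0, Ext.comp_zero]
      rfl

end Pool.Agent.Lib.H44V
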