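import Pool.Agent.Lib.H44V.F1

/-!
# F5 (M): the predicate `PEx` (Tor-vanishing away from the maximal ideal of `T`)

`F5_step`: for `0 → K → G → Y → 0`, `G` projective, `Ext^i(K, E) → Ext^(i+1)(Y, E)` is injective
for `i ≥ 1` (`Ext^i(G, E) = 0`); so the same `B` works for `K`.
`F5_ker`: take `B` for `Q`. By `F1_inj` `B ⊗[S] K → B ⊗[S] G` is injective. The map
`T ⊗[S] K → B ⊗[S] K`, `t ⊗ z ↦ (algebraMap t) ⊗ z`, is the localisation of the `T`-module
`T ⊗[S] K` at `Q`: `B ⊗[S] K ≃ B ⊗[T] (T ⊗[S] K)`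
(`TensorProduct.AlgebraTensorModule.cancelBaseChange`, `isLocalizedModule_iff_isBaseChange`). So
`z` maps to zero in `B ⊗[S] K` and is killed by some `t ∉ Q`
(`IsLocalizedModule.eq_zero_iff`).
-/

set_option autoImplicit false
open CategoryTheory CategoryTheory.Abelian IsLocalRing TensorProduct
open Pool.Agent.Lib.Helper92

namespace Pool.Agent.Lib.H44V
universe u

/-- away from the maximal ideal of `T` the module `Y` is Tor-independent of `T`. -/
def PEx (S T : Type u) [CommRing S] [CommRing T] [Algebra S T] [IsLocalRing T]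
    (Y : ModuleCat.{u} S) : Prop :=
  ∀ (Q : Ideal T) [Q.IsPrime], Q ≠ maximalIdeal T →
    ∃ (B : Type u) (_ : CommRing B) (_ : Algebra T B) (_ : Algebra S B)
      (_ : IsScalarTower S T B) (_ : IsLocalization.AtPrime B Q),
      ∀ i, 1 ≤ i → Subsingleton (Ext Y (ModuleCat.of S (CharacterModule B)) i)

theorem F5_step (S T : Type u) [CommRing S] [CommRing T] [Algebra S T] [IsLocalRing T]
    {K G Y : Type u} [AddCommGroup K] [Module S K] [AddCommGroup G] [Module S G]
    [AddCommGroup Y] [Module S Y] [Module.Projective S G]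
    (f : K →ₗ[S] G) (g : G →ₗ[S] Y) (hf : Function.Injective f) (hg : Function.Surjective g)
    (hfg : Function.Exact f g) (hY : PEx S T (ModuleCat.of S Y)) :
    PEx S T (ModuleCat.of S K) := by
  intro Q _ hQ
  obtain ⟨B, i1, i2, i3, i4, i5, h⟩ := hY Q hQ
  refine ⟨B, i1, i2, i3, i4, i5, ?_⟩
  intro i hi
  have hS := K1_sc_exact f g hf hg hfg
  refine ⟨fun x y => ?_⟩
  rw [← sub_eq_zero]
  generalize x - y = v
  have h0 : hS.extClass.comp v (rfl : 1 + i = 1 + i) = 0 :=
    @Subsingleton.elim _ (h (1 + i) (by omega)) _ _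
  obtain ⟨w, hw⟩ := Ext.contravariant_sequence_exact₁ hS _ v rfl h0
  have hproj : Projective (ModuleCat.of S G) := (IsProjective.iff_projective (R := S) G).mp inferInstance
  have hw0 : w = 0 := by
    obtain ⟨k, rfl⟩ := Nat.exists_eq_add_of_le hi
    have : HasProjectiveDimensionLT (ModuleCat.of S G) 1 :=
      projective_iff_hasProjectiveDimensionLT_one.mp hproj
    exact @Subsingleton.elim _ (HasProjectiveDimensionLT.subsingleton (ModuleCat.of S G) 1 (1 + k)
      (by omega) _) w 0
  rw [← hw, hw0, Ext.comp_zero]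
  rfl

theorem F5_ker (S T : Type u) [CommRing S] [CommRing T] [Algebra S T] [IsLocalRing T]
    {K G Y : Type u} [AddCommGroup K] [Module S K] [AddCommGroup G] [Module S G]
    [AddCommGroup Y] [Module S Y]
    (f : K →ₗ[S] G) (g : G →ₗ[S] Y) (hf : Function.Injective f) (hg : Function.Surjective g)
    (hfg : Function.Exact f g) (hY : PEx S T (ModuleCat.of S Y)) (Q : Ideal T) [Q.IsPrime]
    (hQ : Q ≠ maximalIdeal T) (z : T ⊗[S] K) (hz : LinearMap.lTensor T f z = 0) :
    ∃ t, t ∉ Q ∧ t • z = 0 := by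
  obtain ⟨B, i1, i2, i3, i4, i5, h⟩ := hY Q hQ
  have hinj : Function.Injective (LinearMap.lTensor B f) :=
    F1_inj S B f g hf hg hfg (h 1 le_rfl)
  let h1 : T ⊗[S] K →ₗ[T] B ⊗[S] K :=
    TensorProduct.AlgebraTensorModule.map (Algebra.linearMap T B) LinearMap.id
  let h2 : T ⊗[S] G →ₗ[T] B ⊗[S] G :=
    TensorProduct.AlgebraTensorModule.map (Algebra.linearMap T B) LinearMap.id
  have hnat : ∀ w : T ⊗[S] K, LinearMap.lTensor B f (h1 w) = h2 (LinearMap.lTensor T f w) := by
    intro w
    induction w with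
    | zero => simp
    | tmul t k => simp [h1, h2]
    | add a b ha hb => rw [map_add, map_add, map_add, map_add, ha, hb]
  have hz1 : h1 z = 0 := by
    apply hinj
    rw [hnat, hz, map_zero, map_zero]
  have hbc1 : IsBaseChange T (TensorProduct.mk S T K 1) := TensorProduct.isBaseChange S K T
  have hbc2 : IsBaseChange B (TensorProduct.mk S B K 1) := TensorProduct.isBaseChange S K B
  have hcomp : (h1.restrictScalars S) ∘ₗ (TensorProduct.mk S T K 1) = TensorProduct.mk S B K 1 := by
    ext k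
    simp [h1]
  have hbc : IsBaseChange B h1 := by
    apply IsBaseChange.of_comp hbc1
    rw [hcomp]
    exact hbc2
  have hloc : IsLocalizedModule Q.primeCompl h1 :=
    (isLocalizedModule_iff_isBaseChange Q.primeCompl B h1).mpr hbc
  obtain ⟨t, ht⟩ := (IsLocalizedModule.eq_zero_iff Q.primeCompl h1).mp hz1
  exact ⟨t.1, t.2, ht⟩

end Pool.Agent.Lib.H44V
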