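import Pool.Agent.Lib.H44V.Defs

/-!
# P1 (M): powers of a regular sequence in a local ring, in any order

Regular sequences contained in the maximal ideal of a Noetherian local ring may be permuted:
`IsLocalRing.isWeaklyRegular_of_perm_of_subset_maximalIdeal`. Work with lists
`(List.range r).map x`; conversions between `Jx` and lists:
`Helper92.ofList_range_map`, `Helper92.isRegular_list` (its proof), `isWeaklyRegular_iff_Fin`,
`isWeaklyRegular_append_iff`. If the last element of a weakly regular list is replaced by a
power, the list remains weakly regular (`IsSMulRegular.pow`); with permutations this gives: for all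
`a k ≠ 0` the list of the `x k ^ a k` is weakly regular in every order.
`P1_nzd`: the list of the `x k ^ a k`, `k ≠ i`, followed by `x i`, is weakly regular.
`P1_pow`: the sequence `x k ^ q`.
-/

set_option autoImplicit false
open CategoryTheory CategoryTheory.Abelian IsLocalRing
open Pool.Agent.Lib.Helper92

namespace Pool.Agent.Lib.H44V
universe u
variable {S : Type u} [CommRing S]

open RingTheory.Sequence in
lemma P1_last [IsNoetherianRing S] [IsLocalRing S] {l : List S} {y : S}
    (h : IsWeaklyRegular S (l ++ [y])) (n : ℕ) : IsWeaklyRegular S (l ++ [y ^ n]) := by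
  rw [isWeaklyRegular_append_iff, isWeaklyRegular_singleton_iff] at h ⊢
  exact ⟨h.1, h.2.pow n⟩

open RingTheory.Sequence in
lemma P1_list [IsNoetherianRing S] [IsLocalRing S] {ι : Type*} (x : ι → S) (a : ι → ℕ)
    (hx : ∀ k, x k ∈ maximalIdeal S) (ha : ∀ k, a k ≠ 0) (L : List ι) :
    ∀ l₂ : List S, (∀ y ∈ l₂, y ∈ maximalIdeal S) → IsWeaklyRegular S (L.map x ++ l₂) →
      IsWeaklyRegular S (L.map (fun k => x k ^ a k) ++ l₂) := by
  induction L with
  | nil =>
    intro l₂ _ h
    exact h
  | cons k L ih =>
    intro l₂ hl₂ h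
    have hmem : ∀ (b : ι → ℕ), (∀ k, b k ≠ 0) → ∀ M : List ι, ∀ y ∈ M.map (fun k => x k ^ b k),
        y ∈ maximalIdeal S := by
      intro b hb M y hy
      obtain ⟨k', _, rfl⟩ := List.mem_map.1 hy
      exact Ideal.pow_mem_of_mem _ (hx k') _ (Nat.pos_of_ne_zero (hb k'))
    have hmem1 : ∀ M : List ι, ∀ y ∈ M.map x, y ∈ maximalIdeal S := by
      intro M y hy
      obtain ⟨k', _, rfl⟩ := List.mem_map.1 hy
      exact hx k'
    have h1 : IsWeaklyRegular S ((L.map x ++ l₂) ++ [x k]) := by
      refine IsLocalRing.isWeaklyRegular_of_perm_of_subset_maximalIdeal h ?_ ?_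
      · rw [List.map_cons, List.cons_append]
        exact (List.perm_append_singleton _ _).symm
      · intro y hy
        rw [List.mem_append] at hy
        rcases hy with hy | hy
        · exact hmem1 _ y hy
        · exact hl₂ y hy
    have h2 := P1_last h1 (a k)
    rw [List.append_assoc] at h2
    have hk : x k ^ a k ∈ maximalIdeal S :=
      Ideal.pow_mem_of_mem _ (hx k) _ (Nat.pos_of_ne_zero (ha k))
    have h3 := ih (l₂ ++ [x k ^ a k]) (by
      intro y hy
      rw [List.mem_append, List.mem_singleton] at hy
      rcases hy with hy | hy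
      · exact hl₂ y hy
      · rw [hy]; exact hk) h2
    refine IsLocalRing.isWeaklyRegular_of_perm_of_subset_maximalIdeal h3 ?_ ?_
    · rw [List.map_cons, List.cons_append, ← List.append_assoc]
      exact List.perm_append_singleton _ _
    · intro y hy
      rw [List.mem_append, List.mem_append, List.mem_singleton] at hy
      rcases hy with hy | hy | hy
      · exact hmem a ha _ y hy
      · exact hl₂ y hy
      · rw [hy]; exact hk

open RingTheory.Sequence in
lemma P1_wr (x : ℕ → S) (r : ℕ) (hreg : ∀ j < r, IsSMulRegular (S ⧸ Jx x j) (x j)) :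
    IsWeaklyRegular S ((List.range r).map x) := by
  constructor
  intro i hi
  have hi' : i < r := by simpa using hi
  have h1 : ((List.range r).map x)[i] = x i := by simp
  have h2 : (Ideal.ofList (((List.range r).map x).take i) • (⊤ : Submodule S S)) = Jx x i := by
    rw [List.map_take.symm, List.take_range, min_eq_left hi'.le, ofList_range_map, smul_eq_mul]
    exact Ideal.mul_top _
  rw [h1]
  exact ((Submodule.quotEquivOfEq _ _ h2).isSMulRegular_congr _).mpr (hreg i hi')

theorem P1_nzd [IsNoetherianRing S] [IsLocalRing S] (x : ℕ → S) (r : ℕ)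
    (hm : ∀ j < r, x j ∈ maximalIdeal S) (hreg : ∀ j < r, IsSMulRegular (S ⧸ Jx x j) (x j))
    (a : Fin r → ℕ) (ha : ∀ k, a k ≠ 0) (i : Fin r) (z : S)
    (hz : x i * z ∈ Ideal.span ((fun k : Fin r => x k ^ a k) '' {k | k ≠ i})) :
    z ∈ Ideal.span ((fun k : Fin r => x k ^ a k) '' {k | k ≠ i}) := by
  have h0 := P1_wr x r hreg
  have e1 : (List.range r).map x = (List.finRange r).map (fun k : Fin r => x k) := by
    rw [← List.map_coe_finRange_eq_range, List.map_map]
    rfl
  rw [e1] at h0
  set F : List (Fin r) := (List.finRange r).filter (fun k => decide (k ≠ i)) with hF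
  have hperm : List.Perm (List.finRange r) (F ++ [i]) := by
    refine (List.perm_ext_iff_of_nodup (List.nodup_finRange r) ?_).2 ?_
    · rw [List.nodup_append]
      refine ⟨(List.nodup_finRange r).filter _, List.nodup_singleton _, ?_⟩
      intro b hb c hc hbc
      rw [List.mem_singleton] at hc
      rw [hF, List.mem_filter] at hb
      simp [hbc, hc] at hb
    · intro b
      by_cases hb : b = i
      · simp [hb, hF]
      · simp [hb, hF]
  have h1 : RingTheory.Sequence.IsWeaklyRegular S (F.map (fun k : Fin r => x k) ++ [x i]) := by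
    refine IsLocalRing.isWeaklyRegular_of_perm_of_subset_maximalIdeal h0 ?_ ?_
    · have := hperm.map (fun k : Fin r => x k)
      simpa using this
    · intro y hy
      obtain ⟨k, _, rfl⟩ := List.mem_map.1 hy
      exact hm k k.2
  have h2 := P1_list (fun k : Fin r => x k) a (fun k => hm k k.2) ha F [x i] (by
    intro y hy
    rw [List.mem_singleton] at hy
    rw [hy]
    exact hm i i.2) h1
  rw [RingTheory.Sequence.isWeaklyRegular_append_iff,
    RingTheory.Sequence.isWeaklyRegular_singleton_iff] at h2
  have h3 := h2.2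
  have h4 : Ideal.ofList (F.map (fun k : Fin r => x k ^ a k)) =
      Ideal.span ((fun k : Fin r => x k ^ a k) '' {k | k ≠ i}) := by
    unfold Ideal.ofList
    congr 1
    ext y
    simp only [Set.mem_ofPred_eq, List.mem_map, Set.mem_image, hF, List.mem_filter,
      decide_eq_true_eq]
    constructor
    · rintro ⟨k, ⟨_, hk⟩, rfl⟩
      exact ⟨k, hk, rfl⟩
    · rintro ⟨k, hk, rfl⟩
      exact ⟨k, ⟨List.mem_finRange k, hk⟩, rfl⟩
  have h5 : (Ideal.ofList (F.map (fun k : Fin r => x k ^ a k)) • (⊤ : Submodule S S)) =
      Ideal.span ((fun k : Fin r => x k ^ a k) '' {k | k ≠ i}) := by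
    rw [h4, smul_eq_mul]
    exact Ideal.mul_top _
  have h6 := ((Submodule.quotEquivOfEq _ _ h5).isSMulRegular_congr _).mp h3
  have h7 : x i • (Submodule.Quotient.mk z :
      S ⧸ Ideal.span ((fun k : Fin r => x k ^ a k) '' {k | k ≠ i})) = x i • 0 := by
    rw [smul_zero, ← Submodule.Quotient.mk_smul, Submodule.Quotient.mk_eq_zero, smul_eq_mul]
    exact hz
  exact (Submodule.Quotient.mk_eq_zero _).1 (h6 h7)

theorem P1_pow [IsNoetherianRing S] [IsLocalRing S] (x : ℕ → S) (r : ℕ)
    (hm : ∀ j < r, x j ∈ maximalIdeal S) (hreg : ∀ j < r, IsSMulRegular (S ⧸ Jx x j) (x j))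
    (q : ℕ) (hq : q ≠ 0) : ∀ j < r, IsSMulRegular (S ⧸ Jx (fun i => x i ^ q) j) (x j ^ q) := by
  have h0 := P1_wr x r hreg
  have e1 : (List.range r).map x = (List.finRange r).map (fun k : Fin r => x k) := by
    rw [← List.map_coe_finRange_eq_range, List.map_map]
    rfl
  have e2 : (List.range r).map (fun i => x i ^ q) =
      (List.finRange r).map (fun k : Fin r => x k ^ q) := by
    rw [← List.map_coe_finRange_eq_range, List.map_map]
    rfl
  rw [e1] at h0
  have h1 := P1_list (fun k : Fin r => x k) (fun _ => q) (fun k => hm k k.2) (fun _ => hq)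
    (List.finRange r) [] (by simp) (by rw [List.append_nil]; exact h0)
  rw [List.append_nil, ← e2] at h1
  intro j hj
  have h2 := h1.regular_mod_prev j (by simpa using hj)
  have h3 : ((List.range r).map (fun i => x i ^ q))[j]'(by simpa using hj) = x j ^ q := by simp
  have h4 : (Ideal.ofList (((List.range r).map (fun i => x i ^ q)).take j) •
      (⊤ : Submodule S S)) = Jx (fun i => x i ^ q) j := by
    rw [List.map_take.symm, List.take_range, min_eq_left hj.le, ofList_range_map, smul_eq_mul]
    exact Ideal.mul_top _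
  rw [h3] at h2
  exact ((Submodule.quotEquivOfEq _ _ h4).isSMulRegular_congr _).mp h2

end Pool.Agent.Lib.H44V
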