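import Pool.Agent.Lib.H44V.F2
import Pool.Agent.Lib.H44V.F3
import Pool.Agent.Lib.H44V.F5
import Pool.Agent.Lib.H44V.P1

/-!
# F7 (M): `PEx` for `S/I` and the Frobenius algebra `Fr S p e`

`T = Fr S p e` is the ring `S` with `algebraMap s = s^q`, `q = p^e`. Let `Q ≠ m` be a prime of `T`,
i.e. a prime `P` of `S`. Put `A = Localization.AtPrime P` (of characteristic `p`) and
`B = Fr A p e`: it is an `A`-algebra, a `T`-algebra through the ring map `S → A`
(`algebraMap S A` read as `T → B`), and an `S`-algebra by composition; `IsScalarTower S T B` and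
`IsScalarTower S A B` both say `(s / 1)^q = s^q / 1`. `IsLocalization.AtPrime B Q` is the
localisation property of `A`. Let `E = CharacterModule B`, an `A`-module and `S`-module.
By `F2_flat` (`A` is flat over `S`) it suffices that `Ext^j_A(A ⊗[S] (S ⧸ I), E) = 0` for `j ≥ 1`, and
`A ⊗[S] (S ⧸ I) ≃ A ⧸ I A` over `A`. If `I ≤ P`: `I A = Jx x r` with `x` regular
(`hloc`), `x j` in the maximal ideal of `A`; by `P1_pow` the `x j ^ q` are regular,
and `F3_koszul` applies (`algebraMap A B (x i) = x i ^ q`, `B ⧸ _` is `A ⧸ _` as a ring). If `I ≰ P`: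
`I A = ⊤` and the module is zero.
-/

set_option autoImplicit false
open CategoryTheory CategoryTheory.Abelian IsLocalRing TensorProduct
open Pool.Agent.Lib.Helper92

namespace Pool.Agent.Lib.H44V
universe u

lemma F7_reg (A : Type u) [CommRing A] (p e : ℕ) (y : ℕ → Fr A p e) (y' : ℕ → A) (hy : y = y')
    (r : ℕ) (h : ∀ j < r, IsSMulRegular (A ⧸ Jx y' j) (y' j)) :
    ∀ j < r, IsSMulRegular (Fr A p e ⧸ Jx y j) (y j) := by
  subst hy
  exact h

lemma F7_iso {S : Type u} [CommRing S] {X Y : Type u} [AddCommGroup X] [Module S X]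
    [AddCommGroup Y] [Module S Y] (e : X ≃ₗ[S] Y) (W : ModuleCat.{u} S) (j : ℕ)
    (h : Subsingleton (Ext (ModuleCat.of S X) W j)) :
    Subsingleton (Ext (ModuleCat.of S Y) W j) := by
  refine ⟨fun a b => ?_⟩
  rw [← sub_eq_zero]
  generalize a - b = v
  have h1 : (Ext.mk₀ (ModuleCat.ofHom e.symm.toLinearMap)).comp
      ((Ext.mk₀ (ModuleCat.ofHom e.toLinearMap)).comp v (zero_add j)) (zero_add j) = v := by
    rw [Ext.mk₀_comp_mk₀_assoc]
    have : ModuleCat.ofHom e.symm.toLinearMap ≫ ModuleCat.ofHom e.toLinearMap =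
        𝟙 (ModuleCat.of S Y) := by
      ext y
      simp
    rw [this, Ext.mk₀_id_comp]
  have h2 : (Ext.mk₀ (ModuleCat.ofHom e.toLinearMap)).comp v (zero_add j) = 0 :=
    @Subsingleton.elim _ h _ _
  rw [← h1, h2, Ext.comp_zero]

/-- vanishing over the localisation. -/
lemma F7_loc (A : Type u) [CommRing A] (p : ℕ) [Fact p.Prime] [CharP A p] (e : ℕ)
    [IsNoetherianRing A] [IsLocalRing A] {I : Ideal A} (r : ℕ)
    (hI : I = ⊤ ∨ (I ≤ maximalIdeal A ∧ CI I r)) (i : ℕ) (hi : 1 ≤ i) :
    Subsingleton (Ext (Qt I) (ModuleCat.of A (CharacterModule (Fr A p e))) i) := by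
  rcases hI with rfl | ⟨hm, x, hx, rfl⟩
  · have : Subsingleton (A ⧸ (⊤ : Ideal A)) := Ideal.Quotient.subsingleton_iff.mpr rfl
    have : Module.Projective A (A ⧸ (⊤ : Ideal A)) := inferInstance
    exact F2_proj (G := A ⧸ (⊤ : Ideal A)) _ i hi
  · have hxm : ∀ j < r, x j ∈ maximalIdeal A := by
      intro j hj
      apply hm
      clear hm hx
      induction r with
      | zero => omega
      | succ r ih =>
        rcases Nat.lt_succ_iff_lt_or_eq.mp hj with h | rfl
        · exact Ideal.mem_sup_left (ih h)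
        · exact Ideal.mem_sup_right (Ideal.mem_span_singleton_self _)
    have hpow := P1_pow x r hxm hx (p ^ e) (pow_ne_zero _ (Fact.out : p.Prime).ne_zero)
    refine F3_koszul A (Fr A p e) x r hx ?_ i hi
    exact F7_reg A p e _ (fun i => x i ^ p ^ e) rfl r hpow

/-- the algebra structure on the Frobenius algebras. -/
@[instance_reducible]
noncomputable def F7_alg (S A : Type u) [CommRing S] [CommRing A] [Algebra S A] (p e : ℕ) :
    Algebra (Fr S p e) (Fr A p e) :=
  (algebraMap S A : S →+* A).toAlgebra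

theorem F7_pex (S : Type u) [CommRing S] (p : ℕ) [Fact p.Prime] [CharP S p] (e : ℕ)
    [IsNoetherianRing S] [IsLocalRing S] {I : Ideal S} (r : ℕ)
    (hloc : ∀ (P : Ideal S) [P.IsPrime], I ≤ P → P ≠ maximalIdeal S →
      CI (I.map (algebraMap S (Localization.AtPrime P))) r) :
    PEx S (Fr S p e) (Qt I) := by
  intro Q hQp hQ
  let P : Ideal S := Q
  have hP : P.IsPrime := hQp
  let A := Localization.AtPrime P
  have hA : CharP A p := by
    apply ringChar.eq_iff.mp
    apply CharP.ringChar_of_prime_eq_zero (Fact.out : p.Prime)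
    rw [← map_natCast (algebraMap S A), CharP.cast_eq_zero, map_zero]
  let i1 : Algebra (Fr S p e) (Fr A p e) := F7_alg S A p e
  let i2 : Algebra S (Fr A p e) :=
    ((algebraMap A (Fr A p e)).comp (algebraMap S A)).toAlgebra
  have t1 : IsScalarTower S (Fr S p e) (Fr A p e) := by
    apply IsScalarTower.of_algebraMap_eq
    intro s
    change (algebraMap S A s) ^ p ^ e = algebraMap S A (s ^ p ^ e)
    rw [map_pow]
  have t2 : IsScalarTower S A (Fr A p e) := by
    apply IsScalarTower.of_algebraMap_eq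
    intro s
    rfl
  have hl : IsLocalization.AtPrime A P := inferInstance
  refine ⟨Fr A p e, inferInstance, i1, i2, t1, ⟨hl.map_units, hl.surj, hl.exists_of_eq⟩, ?_⟩
  intro i hi
  have t3 : IsScalarTower S A (CharacterModule (Fr A p e)) := by
    constructor
    intro a b c
    ext y
    rw [CharacterModule.smul_apply, CharacterModule.smul_apply, CharacterModule.smul_apply,
      smul_assoc, smul_comm]
  refine F2_flat S A (CharacterModule (Fr A p e)) i (S ⧸ I) ?_ hi
  intro j hj
  have hA2 : Subsingleton (Ext (Qt (I.map (algebraMap S A)))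
      (ModuleCat.of A (CharacterModule (Fr A p e))) j) := by
    apply F7_loc A p e r _ j hj
    by_cases hIP : I ≤ P
    · right
      refine ⟨?_, hloc P hIP hQ⟩
      rw [Ideal.map_le_iff_le_comap]
      intro s hs
      rw [Ideal.mem_comap, IsLocalization.AtPrime.to_map_mem_maximal_iff A P]
      exact hIP hs
    · left
      obtain ⟨s, hs, hsP⟩ := Set.not_subset.mp hIP
      rw [Ideal.eq_top_iff_one]
      have h1 : IsUnit (algebraMap S A s) := IsLocalization.map_units A (⟨s, hsP⟩ : P.primeCompl)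
      exact ((Ideal.eq_top_of_isUnit_mem _ (Ideal.mem_map_of_mem _ hs) h1) ▸ Submodule.mem_top)
  exact F7_iso (Algebra.TensorProduct.quotIdealMapEquivTensorQuot A I).toLinearEquiv _ j hA2

end Pool.Agent.Lib.H44V
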