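import Pool.Agent.Lib.H44V.F6
import Pool.Agent.Lib.H44V.F7

/-!
# F8 (S/M): the lower bound for `Ext^n(S/I^[q], S)`

`F6_lower` with `T = Fr S p e`, `N = n` (`Dp` for `T` is `Dp` for `S`), `Y = S ⧸ I`, `PEx` from
`F7_pex`: a surjective `T`-linear map `Ext^n_T(T ⊗[S] (S ⧸ I), T) → T ⧸ m T`. Over `T` (which is `S`
as a ring) `T ⊗[S] (S ⧸ I) ≃ T ⧸ I T` (`TensorProduct.quotTensorEquivQuotSMul`,
`Algebra.TensorProduct...`) and `I T = fpow p e I`; `m T = fpow p e m ≤ m^q`, so `T ⧸ m T` maps onto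
`S ⧸ m^q`. `Module.length_le_of_surjective` and invariance of `lam` under isomorphism.
-/

set_option autoImplicit false
open CategoryTheory CategoryTheory.Abelian IsLocalRing TensorProduct
open Pool.Agent.Lib.Helper92

namespace Pool.Agent.Lib.H44V
universe u

lemma F8_T (S : Type u) [CommRing S] (p : ℕ) [Fact p.Prime] [CharP S p] (e : ℕ)
    [IsNoetherianRing S] [IsLocalRing S] {I : Ideal S} (r n : ℕ) (hn : n ≠ 0)
    (hS : Dp (ModuleCat.of (Fr S p e) (Fr S p e)) n)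
    (h1 : HasProjectiveDimensionLT (Qt I) (n + 1)) (h2 : ¬ HasProjectiveDimensionLT (Qt I) n)
    (hloc : ∀ (P : Ideal S) [P.IsPrime], I ≤ P → P ≠ maximalIdeal S →
      CI (I.map (algebraMap S (Localization.AtPrime P))) r) :
    Module.length (Fr S p e) (Fr S p e ⧸ (maximalIdeal (Fr S p e)) ^ (p ^ e)) ≤
      lam n (Qt (I.map (algebraMap S (Fr S p e)))) := by
  have hP := F7_pex S p e r hloc
  obtain ⟨φ, hφ⟩ := (F6_lower S (Fr S p e) n hS n (S ⧸ I) le_rfl h1 hP).2 hn h2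
  have e1 := K1_iso n (Algebra.TensorProduct.quotIdealMapEquivTensorQuot (Fr S p e) I).toLinearEquiv
  have hle : (maximalIdeal S).map (algebraMap S (Fr S p e)) ≤ (maximalIdeal (Fr S p e)) ^ (p ^ e) := by
    rw [Ideal.map_le_iff_le_comap]
    intro s hs
    rw [Ideal.mem_comap, Fr_algebraMap]
    exact Ideal.pow_mem_pow hs (p ^ e)
  calc Module.length (Fr S p e) (Fr S p e ⧸ (maximalIdeal (Fr S p e)) ^ (p ^ e))
      ≤ Module.length (Fr S p e) (Fr S p e ⧸ (maximalIdeal S).map (algebraMap S (Fr S p e))) :=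
        Module.length_le_of_surjective (Submodule.factor hle) (Submodule.factor_surjective hle)
    _ ≤ lam n (ModuleCat.of (Fr S p e) (Fr S p e ⊗[S] (S ⧸ I))) :=
        Module.length_le_of_surjective φ hφ
    _ = lam n (Qt (I.map (algebraMap S (Fr S p e)))) := e1.symm

theorem F8_len (S : Type u) [CommRing S] (p : ℕ) [Fact p.Prime] [CharP S p] (e : ℕ)
    [IsNoetherianRing S] [IsLocalRing S] {I : Ideal S} (r n : ℕ) (hn : n ≠ 0)
    (hS : Dp (ModuleCat.of S S) n)
    (h1 : HasProjectiveDimensionLT (Qt I) (n + 1)) (h2 : ¬ HasProjectiveDimensionLT (Qt I) n)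
    (hloc : ∀ (P : Ideal S) [P.IsPrime], I ≤ P → P ≠ maximalIdeal S →
      CI (I.map (algebraMap S (Localization.AtPrime P))) r) :
    Module.length S (S ⧸ (maximalIdeal S) ^ (p ^ e)) ≤ lam n (Qt (fpow p e I)) :=
  F8_T S p e r n hn hS h1 h2 hloc

end Pool.Agent.Lib.H44V
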