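import Pool.Agent.Lib.H44V.Defs

/-!
# G1 (M): growth of `length (S/m^N)`

`G1_seq`: `Dp S r` gives a regular sequence of length `r` in `m`: build it step by step; given
`x 0, …, x (k-1)` use `Helper92.exists_regular_mem` with `I = m`, `n = r`. 
`G1_ar`: Artin-Rees: `m^N ∩ S x ≤ m^(N-k) x` for some `k` and all `N ≥ k`
(`Ideal.exists_pow_inf_eq_pow_smul` applied to the submodule `S x` of `S`), and `x` is a
nonzerodivisor.
`G1_growth`: induction on `r`, for all `S`. `r = 0`: `c = N₀ = 1`. Step: let `x₀ = x 0`, `k ≥ 1` as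
in `G1_ar`, `S' = S ⧸ span {x₀}` with the sequence `x (j + 1)`, `c', N'` for `S'`. The exact
sequence `0 → S/(m^N : x₀) → S/m^N → S'/m'^N → 0` (multiplication by `x₀`) gives
`length (S/m^N) ≥ length (S'/m'^N) + length (S/m^(N-k))` for `N ≥ k`
(`Module.length_eq_add_of_exact`; lengths over `S` and `S'` agree:
`Module.length_eq_of_surjective`). So `length (S/m^N) ≥ ∑_{i < t} length (S'/m'^(N-ik))` as long as
`tk ≤ N`. With `t = N / (2k)` (integer part) and `N ≥ 2 N' + 4k` every term has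
`N - ik ≥ N/2 ≥ N'`, so it is `≥ (N/2)^r / c'` (real or integer part; it is enough that
`(N - ik) ^ r ≤ c' * length` and `2 (N - ik) ≥ N`), the number of terms is `≥ N / (4k)`, and
`N^(r+1) ≤ 4k 2^r c' length (S/m^N)`.
If a length is `⊤` there is nothing to prove.
-/

set_option autoImplicit false
open CategoryTheory CategoryTheory.Abelian IsLocalRing TensorProduct
open Pool.Agent.Lib.Helper92

namespace Pool.Agent.Lib.H44V
universe u

variable {S : Type u} [CommRing S]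

theorem G1_seq [IsNoetherianRing S] [IsLocalRing S] (r : ℕ) (hS : Dp (ModuleCat.of S S) r) :
    ∃ x : ℕ → S, (∀ j < r, x j ∈ maximalIdeal S) ∧
      ∀ j < r, IsSMulRegular (S ⧸ Jx x j) (x j) := by
  suffices h : ∀ k ≤ r, ∃ x : ℕ → S, (∀ j < k, x j ∈ maximalIdeal S) ∧
      ∀ j < k, IsSMulRegular (S ⧸ Jx x j) (x j) from h r le_rfl
  intro k
  induction k with
  | zero =>
    intro _
    exact ⟨fun _ => 0, fun j hj => absurd hj (by omega), fun j hj => absurd hj (by omega)⟩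
  | succ k ih =>
    intro hk
    obtain ⟨x, hx, hreg⟩ := ih (by omega)
    obtain ⟨z, hz, hzr⟩ := exists_regular_mem hS x k (by omega) hreg
    let x' : ℕ → S := Function.update x k z
    have hx'k : x' k = z := Function.update_self _ _ _
    have hx'j : ∀ j < k, x' j = x j := fun j hj => Function.update_of_ne (by omega) _ _
    have hJ : ∀ j ≤ k, Jx x' j = Jx x j :=
      fun j hj => Jx_congr _ _ _ fun i hi => hx'j i (by omega)
    refine ⟨x', ?_, ?_⟩
    · intro j hj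
      rcases Nat.lt_succ_iff_lt_or_eq.mp hj with h1 | h1
      · rw [hx'j j h1]; exact hx j h1
      · rw [h1, hx'k]; exact hz
    · intro j hj
      rcases Nat.lt_succ_iff_lt_or_eq.mp hj with h1 | h1
      · rw [hx'j j h1, hJ j (by omega)]; exact hreg j h1
      · rw [h1, hx'k, hJ k le_rfl]; exact hzr

theorem G1_ar [IsNoetherianRing S] (m : Ideal S) (x : S) (hx : IsSMulRegular S x) :
    ∃ k : ℕ, ∀ N, k ≤ N → ∀ s : S, x * s ∈ m ^ N → s ∈ m ^ (N - k) := by
  obtain ⟨k, hk⟩ := Ideal.exists_pow_inf_eq_pow_smul (M := S) m (Ideal.span {x} : Ideal S)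
  refine ⟨k, fun N hN s hs => ?_⟩
  have h1 : x * s ∈ (m ^ N • (⊤ : Submodule S S) ⊓ (Ideal.span {x} : Ideal S) :
      Submodule S S) := by
    refine ⟨?_, ?_⟩
    · have : (m ^ N • (⊤ : Submodule S S)) = m ^ N := by
        rw [smul_eq_mul]; exact Ideal.mul_top _
      exact this.symm ▸ hs
    · exact Ideal.mul_mem_right _ _ (Ideal.mem_span_singleton_self x)
  rw [hk N hN] at h1
  have h2 : x * s ∈ m ^ (N - k) * Ideal.span {x} := by
    have hle : m ^ (N - k) • (m ^ k • (⊤ : Submodule S S) ⊓ (Ideal.span {x} : Ideal S)) ≤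
        m ^ (N - k) * Ideal.span {x} := by
      rw [← smul_eq_mul]
      exact smul_mono_right _ inf_le_right
    exact hle h1
  rw [mul_comm (m ^ (N - k)), Ideal.mem_span_singleton_mul] at h2
  obtain ⟨a, ha, hax⟩ := h2
  have h3 : a = s := hx (by simpa [smul_eq_mul] using hax)
  exact h3 ▸ ha

/-- Artin-Rees relative to an ideal `J`. -/
theorem G1_ar' [IsNoetherianRing S] (J m : Ideal S) (x : S) (hx : IsSMulRegular (S ⧸ J) x) :
    ∃ k : ℕ, ∀ N, k ≤ N → ∀ s : S, x * s ∈ m ^ N ⊔ J → s ∈ m ^ (N - k) ⊔ J := by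
  obtain ⟨k, hk⟩ := G1_ar (m.map (Ideal.Quotient.mk J)) (Ideal.Quotient.mk J x) (by
    intro a b hab
    apply hx
    have hab' : Ideal.Quotient.mk J x * a = Ideal.Quotient.mk J x * b := hab
    change x • a = x • b
    rw [Algebra.smul_def, Algebra.smul_def]
    exact hab')
  refine ⟨k, fun N hN s hs => ?_⟩
  have h1 := hk N hN (Ideal.Quotient.mk J s) (by
    rw [← map_mul, ← Ideal.map_pow, Ideal.mem_quotient_iff_mem_sup]
    exact hs)
  rw [← Ideal.map_pow, Ideal.mem_quotient_iff_mem_sup] at h1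
  exact h1

/-- the recursion for the lengths. -/
theorem G1_step (J m : Ideal S) (x : S) (k N : ℕ)
    (hk : ∀ s : S, x * s ∈ m ^ N ⊔ J → s ∈ m ^ (N - k) ⊔ J) :
    Module.length S (S ⧸ (m ^ N ⊔ (J ⊔ Ideal.span {x}))) +
      Module.length S (S ⧸ (m ^ (N - k) ⊔ J)) ≤ Module.length S (S ⧸ (m ^ N ⊔ J)) := by
  have hle : m ^ N ⊔ J ≤ m ^ N ⊔ (J ⊔ Ideal.span {x}) := by
    rw [← sup_assoc]; exact le_sup_left
  let ψ : (S ⧸ (m ^ N ⊔ J)) →ₗ[S] (S ⧸ (m ^ N ⊔ (J ⊔ Ideal.span {x}))) :=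
    Submodule.factor hle
  have hψ : Function.Surjective ψ := Submodule.factor_surjective hle
  let φ : S →ₗ[S] (S ⧸ (m ^ N ⊔ J)) := x • (m ^ N ⊔ J).mkQ
  have hφ : ∀ s, φ s = Submodule.Quotient.mk (x * s) := fun s => rfl
  have h1 := Module.length_eq_add_of_exact (LinearMap.ker ψ).subtype ψ
    (Submodule.injective_subtype _) hψ (LinearMap.exact_subtype_ker_map ψ)
  have h2 : Module.length S (LinearMap.range φ) ≤ Module.length S (LinearMap.ker ψ) := by
    refine Module.length_le_of_injective (Submodule.inclusion ?_)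
      (Submodule.inclusion_injective _)
    rintro _ ⟨s, rfl⟩
    rw [LinearMap.mem_ker, hφ]
    change (Submodule.Quotient.mk (x * s) : S ⧸ (m ^ N ⊔ (J ⊔ Ideal.span {x}))) = 0
    rw [Submodule.Quotient.mk_eq_zero]
    exact (le_sup_right.trans le_sup_right : Ideal.span {x} ≤ m ^ N ⊔ (J ⊔ Ideal.span {x}))
      (Ideal.mul_mem_right _ _ (Ideal.mem_span_singleton_self x))
  have h3 : LinearMap.ker φ ≤ m ^ (N - k) ⊔ J := by
    intro s hs
    rw [LinearMap.mem_ker, hφ, Submodule.Quotient.mk_eq_zero] at hs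
    exact hk s hs
  have h4 : Module.length S (S ⧸ (m ^ (N - k) ⊔ J)) ≤ Module.length S (LinearMap.range φ) := by
    rw [← (LinearMap.quotKerEquivRange φ).length_eq]
    exact Module.length_le_of_surjective (Submodule.factor h3) (Submodule.factor_surjective h3)
  rw [h1, add_comm]
  gcongr
  exact h4.trans h2

theorem G1_pow (k a d : ℕ) : (a + k) ^ (d + 1) ≤ a ^ (d + 1) + k * (d + 1) * (a + k) ^ d := by
  induction d with
  | zero => simp
  | succ d ih =>
    have h1 : (a + k) ^ (d + 2) = (a + k) ^ (d + 1) * (a + k) := pow_succ _ _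
    have h2 : a ^ (d + 1) ≤ (a + k) ^ (d + 1) := Nat.pow_le_pow_left (by omega) _
    calc (a + k) ^ (d + 1 + 1) = (a + k) ^ (d + 1) * (a + k) := pow_succ _ _
      _ ≤ (a ^ (d + 1) + k * (d + 1) * (a + k) ^ d) * (a + k) := Nat.mul_le_mul_right _ ih
      _ = a ^ (d + 1) * a + k * a ^ (d + 1) + k * (d + 1) * ((a + k) ^ d * (a + k)) := by ring
      _ ≤ a ^ (d + 1) * a + k * (a + k) ^ (d + 1) + k * (d + 1) * ((a + k) ^ d * (a + k)) := by
        gcongr
      _ = a ^ (d + 1 + 1) + k * (d + 1 + 1) * (a + k) ^ (d + 1) := by ring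

theorem G1_pow' (k M d : ℕ) : M ^ (d + 1) ≤ (M - k) ^ (d + 1) + k * (d + 1) * M ^ d := by
  rcases Nat.le_total k M with h | h
  · obtain ⟨a, rfl⟩ := Nat.exists_eq_add_of_le' h
    rw [Nat.add_sub_cancel]
    exact G1_pow k a d
  · rw [pow_succ, mul_comm]
    have : M * M ^ d ≤ k * (d + 1) * M ^ d := by
      apply Nat.mul_le_mul_right
      nlinarith
    omega

/-- the numerical induction. -/
theorem G1_num (d k c' N' : ℕ) (hk0 : 0 < k) (L L' : ℕ → ℕ∞)
    (h1 : ∀ N, k ≤ N → L' N + L (N - k) ≤ L N)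
    (h2 : ∀ N, N' ≤ N → ((N ^ d : ℕ) : ℕ∞) ≤ c' * L' N) :
    ∃ c N₀ : ℕ, ∀ N, N₀ ≤ N → ((N ^ (d + 1) : ℕ) : ℕ∞) ≤ c * L N := by
  set M' := N' + k with hM'
  set C := k * (d + 1) * c' with hC
  have key : ∀ N, (((N - M') ^ (d + 1) : ℕ) : ℕ∞) ≤ C * L N := by
    intro N
    induction N using Nat.strong_induction_on with
    | _ N ih =>
      rcases Nat.lt_or_ge M' N with h | h
      · have h3 := ih (N - k) (by omega)
        have h4 := h1 N (by omega)
        have h5 := h2 N (by omega)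
        have h6 : N - k - M' = N - M' - k := by omega
        rw [h6] at h3
        calc (((N - M') ^ (d + 1) : ℕ) : ℕ∞)
            ≤ (((N - M' - k) ^ (d + 1) + k * (d + 1) * (N - M') ^ d : ℕ) : ℕ∞) := by
              exact_mod_cast G1_pow' k (N - M') d
          _ ≤ (((N - M' - k) ^ (d + 1) + k * (d + 1) * N ^ d : ℕ) : ℕ∞) := by
              have : (N - M') ^ d ≤ N ^ d := Nat.pow_le_pow_left (by omega) _
              exact_mod_cast Nat.add_le_add_left (Nat.mul_le_mul_left _ this) _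
          _ = (((N - M' - k) ^ (d + 1) : ℕ) : ℕ∞) + ((k * (d + 1) : ℕ) : ℕ∞) *
              ((N ^ d : ℕ) : ℕ∞) := by push_cast; ring
          _ ≤ C * L (N - k) + ((k * (d + 1) : ℕ) : ℕ∞) * (c' * L' N) := by
              gcongr
          _ = C * (L' N + L (N - k)) := by
              rw [hC]; push_cast; ring
          _ ≤ C * L N := by gcongr
      · rw [Nat.sub_eq_zero_of_le h]
        simp
  refine ⟨2 ^ (d + 1) * C, 2 * M', fun N hN => ?_⟩
  calc ((N ^ (d + 1) : ℕ) : ℕ∞) ≤ (((2 * (N - M')) ^ (d + 1) : ℕ) : ℕ∞) := by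
        exact_mod_cast Nat.pow_le_pow_left (by omega) _
    _ = ((2 ^ (d + 1) : ℕ) : ℕ∞) * (((N - M') ^ (d + 1) : ℕ) : ℕ∞) := by
        rw [mul_pow]; push_cast; ring
    _ ≤ ((2 ^ (d + 1) : ℕ) : ℕ∞) * (C * L N) := by gcongr; exact key N
    _ = ((2 ^ (d + 1) * C : ℕ) : ℕ∞) * L N := by push_cast; ring

theorem G1_growth (r : ℕ) : ∀ (S : Type u) [CommRing S] [IsNoetherianRing S] [IsLocalRing S]
    (x : ℕ → S) (_ : ∀ j < r, x j ∈ maximalIdeal S)
    (_ : ∀ j < r, IsSMulRegular (S ⧸ Jx x j) (x j)),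
    ∃ c N₀ : ℕ, ∀ N, N₀ ≤ N →
      ((N ^ r : ℕ) : ℕ∞) ≤ c * Module.length S (S ⧸ (maximalIdeal S) ^ N) := by
  intro S _ _ _ x hx hreg
  suffices h : ∀ d ≤ r, ∃ c N₀ : ℕ, ∀ N, N₀ ≤ N →
      ((N ^ d : ℕ) : ℕ∞) ≤
        c * Module.length S (S ⧸ ((maximalIdeal S) ^ N ⊔ Jx x (r - d))) by
    obtain ⟨c, N₀, h1⟩ := h r le_rfl
    refine ⟨c, N₀, fun N hN => ?_⟩
    have h2 := h1 N hN
    rw [Nat.sub_self] at h2
    have h3 : (maximalIdeal S) ^ N ⊔ Jx x 0 = (maximalIdeal S) ^ N := by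
      change _ ⊔ ⊥ = _
      exact sup_bot_eq _
    rw [h3] at h2
    exact h2
  intro d
  induction d with
  | zero =>
    intro _
    refine ⟨1, 1, fun N hN => ?_⟩
    have hne : (maximalIdeal S) ^ N ⊔ Jx x (r - 0) ≤ maximalIdeal S :=
      sup_le (Ideal.pow_le_self (by omega)) (Jx_le (by simpa using hx))
    have hnt : Nontrivial (S ⧸ ((maximalIdeal S) ^ N ⊔ Jx x (r - 0))) :=
      Ideal.Quotient.nontrivial_iff.mpr fun h => by
        rw [h] at hne
        exact (Ideal.IsPrime.ne_top (IsLocalRing.maximalIdeal.isMaximal S).isPrime)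
          (top_le_iff.mp hne)
    have : 0 < Module.length S (S ⧸ ((maximalIdeal S) ^ N ⊔ Jx x (r - 0))) :=
      Module.length_pos
    have h1 := Order.one_le_iff_ne_zero.mpr this.ne'
    simpa using h1
  | succ d ih =>
    intro hd
    obtain ⟨c', N', h'⟩ := ih (by omega)
    obtain ⟨k₀, hk₀⟩ := G1_ar' (Jx x (r - (d + 1))) (maximalIdeal S) (x (r - (d + 1)))
      (hreg _ (by omega))
    obtain ⟨k, hkpos, hk⟩ : ∃ k : ℕ, 0 < k ∧ ∀ N, k ≤ N → ∀ s : S,
        x (r - (d + 1)) * s ∈ (maximalIdeal S) ^ N ⊔ Jx x (r - (d + 1)) →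
          s ∈ (maximalIdeal S) ^ (N - k) ⊔ Jx x (r - (d + 1)) :=
      ⟨k₀ + 1, by omega, fun N hN s hs => by
        have h1 : (maximalIdeal S) ^ (N - k₀) ≤ (maximalIdeal S) ^ (N - (k₀ + 1)) :=
          Ideal.pow_le_pow_right (by omega)
        have h2 : (maximalIdeal S) ^ (N - k₀) ⊔ Jx x (r - (d + 1)) ≤
          (maximalIdeal S) ^ (N - (k₀ + 1)) ⊔ Jx x (r - (d + 1)) := sup_le_sup_right h1 _
        exact h2 (hk₀ N (by omega) s hs)⟩
    have hJ : Jx x (r - d) = Jx x (r - (d + 1)) ⊔ Ideal.span {x (r - (d + 1))} := by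
      have : r - d = (r - (d + 1)) + 1 := by omega
      rw [this]
      rfl
    refine G1_num d k c' N' hkpos _ (fun N => Module.length S (S ⧸ ((maximalIdeal S) ^ N ⊔
      Jx x (r - d)))) (fun N hN => ?_) h'
    have := G1_step (Jx x (r - (d + 1))) (maximalIdeal S) (x (r - (d + 1))) k N (hk N hN)
    rw [← hJ] at this
    exact this

end Pool.Agent.Lib.H44V
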