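import Pool.Agent.Lib.H44V.Defs

/-!
# L3 (S): the dimension drops under localisation

`ringKrullDim (Localization.AtPrime P) = P.height` (`IsLocalization.AtPrime.ringKrullDim_eq_height`)
and `ringKrullDim S = (maximalIdeal S).height`
(`IsLocalRing.maximalIdeal_height_eq_ringKrullDim`). `P < maximalIdeal S` gives
`P.height + 1 ≤ (maximalIdeal S).height` (`Ideal.height_add_one_le_of_lt`-type lemma, heights are
finite).
-/

set_option autoImplicit false
open CategoryTheory CategoryTheory.Abelian IsLocalRing
open Pool.Agent.Lib.Helper92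

namespace Pool.Agent.Lib.H44V
universe u
variable {S : Type u} [CommRing S]

theorem L3_dim [IsNoetherianRing S] [IsLocalRing S] (P : Ideal S) [P.IsPrime]
    (hP : P ≠ maximalIdeal S) (d : ℕ) (hd : ringKrullDim S < ((d + 1 : ℕ) : WithBot ℕ∞)) :
    ringKrullDim (Localization.AtPrime P) < ((d : ℕ) : WithBot ℕ∞) := by
  have hlt : P < maximalIdeal S :=
    lt_of_le_of_ne (IsLocalRing.le_maximalIdeal (Ideal.IsPrime.ne_top inferInstance)) hP
  have h1 := Ideal.height_add_one_le_of_lt_of_isPrime hlt
  rw [← IsLocalRing.maximalIdeal_height_eq_ringKrullDim] at hd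
  rw [IsLocalization.AtPrime.ringKrullDim_eq_height P (Localization.AtPrime P)]
  have hd' : (maximalIdeal S).height < ((d + 1 : ℕ) : ℕ∞) := by exact_mod_cast hd
  have h2 : P.height + 1 < (d : ℕ∞) + 1 := by
    refine lt_of_le_of_lt h1 ?_
    exact_mod_cast hd'
  have h3 : P.height < (d : ℕ∞) := by
    by_contra hcon
    push Not at hcon
    exact absurd (add_le_add_left hcon 1) (not_le.2 h2)
  exact_mod_cast h3

end Pool.Agent.Lib.H44V
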