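import Pool.Agent.Lib.H44V.P10

/-!
# P11 (S/M): the upper bound `lam n (S/I^[q]) ≤ q^r lam n (S/I)`

By induction `lam n (Qt (I^N ⊔ F)) ≤ (∑_{j<N} card (TT r q j)) * lam n (Qt I)` (`N = 0`:
`I^0 ⊔ F = ⊤`, `Qt ⊤` is a subsingleton, its `Ext` vanishes). `∑_{j<N} card (TT r q j) ≤ q^r`: the
`TT r q j` are the fibres of `β ↦ ∑ β k` on `Fin r → Fin q` (`Finset.card_sigma`,
`Fintype.card_fun`; injection of the sigma type into `Fin r → Fin q`). For
`N = m * q` we have `I^N ≤ F`: `I` is generated by `m` elements `g i` and a product of `m q` of them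
(`m q > m (q - 1)`) contains some `g i ^ q` (`q ≥ 1`; Mathlib: `Ideal.span_pow_le...`,
`Ideal.exists_pow_le_...`; any `N` with `I^N ≤ F` will do, e.g. from
`Ideal.exists_pow_le_of_le_radical_of_fg`: `I ≤ radical F` as `y^q ∈ F` for `y ∈ I`). Then
`I^N ⊔ F = F`.
-/

set_option autoImplicit false
open CategoryTheory CategoryTheory.Abelian IsLocalRing
open Pool.Agent.Lib.Helper92

namespace Pool.Agent.Lib.H44V
universe u
variable {S : Type u} [CommRing S]

lemma P11_card (r q N : ℕ) :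
    ∑ j ∈ Finset.range N, Fintype.card (TT r q j) ≤ q ^ r := by
  have h1 : ∀ j, Fintype.card (TT r q j) =
      (Finset.univ.filter fun β : Fin r → Fin q => ∑ k, (β k : ℕ) = j).card := fun j =>
    Fintype.card_subtype _
  simp only [h1]
  rw [Finset.sum_card_fiberwise_eq_card_filter]
  refine (Finset.card_le_univ _).trans ?_
  rw [Fintype.card_fun, Fintype.card_fin, Fintype.card_fin]

lemma P11_zero {J : Ideal S} (hJ : J = ⊤) (n : ℕ) : lam n (Qt J) = 0 := by
  have : Subsingleton (S ⧸ J) := Ideal.Quotient.subsingleton_iff.2 hJ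
  have h1 := K1_iso (S := S) n (LinearEquiv.ofSubsingleton (S ⧸ J) (Fin 0 → S))
  have h2 := K1_pi (S := S) (Y := S) n (Fin 0)
  rw [Fintype.card_fin, Nat.cast_zero, zero_mul] at h2
  exact h1.trans h2

theorem P11_upper (p : ℕ) [Fact p.Prime] [CharP S p] (e : ℕ) [IsNoetherianRing S]
    [IsLocalRing S] {I : Ideal S} {r m : ℕ} (D : Glob S I r m) (hd : Dp (Qt I) 1) (n : ℕ)
    (hS : Dp (ModuleCat.of S S) (n + 2)) :
    lam n (Qt (fpow p e I)) ≤ (((p ^ e) ^ r : ℕ) : ℕ∞) * lam n (Qt I) := by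
  have key : ∀ N : ℕ, lam n (Qt (I ^ N ⊔ fpow p e I)) ≤
      ((∑ j ∈ Finset.range N, Fintype.card (TT r (p ^ e) j) : ℕ) : ℕ∞) * lam n (Qt I) := by
    intro N
    induction N with
    | zero =>
      have h1 : I ^ 0 ⊔ fpow p e I = ⊤ := by
        rw [pow_zero, Ideal.one_eq_top, top_sup_eq]
      rw [P11_zero h1 n]
      exact zero_le
    | succ N ih =>
      refine (P10_step p e D hd n hS N).trans ?_
      rw [Finset.sum_range_succ, Nat.cast_add, add_mul]
      exact add_le_add_left ih _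
  have hrad : I ≤ (fpow p e I).radical := by
    intro y hy
    refine ⟨p ^ e, ?_⟩
    have h1 : iterateFrobenius S p e y ∈ fpow p e I := Ideal.mem_map_of_mem _ hy
    rwa [iterateFrobenius_def] at h1
  obtain ⟨N, hN⟩ := Ideal.exists_pow_le_of_le_radical_of_fg hrad (IsNoetherian.noetherian I)
  have h2 := key N
  rw [sup_eq_right.2 hN] at h2
  refine h2.trans (mul_le_mul_left ?_ _)
  exact_mod_cast P11_card r (p ^ e) N

end Pool.Agent.Lib.H44V
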