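import Pool.Agent.Lib.H44V.Defs

/-!
# R1 (M): an ideal which is locally generated by regular sequences of length `r` and `depth S ≥ r`
contains a regular sequence of length `r`

Show by induction on `k ≤ r`: there is `x` with `x j ∈ I` and `x j` regular on `S ⧸ Jx x j` for
`j < k`. Step (`k < r`): if no element of `I` is regular on `S ⧸ Jx x k` then `I ≤ P` for some
`P ∈ associatedPrimes S (S ⧸ Jx x k)` (prime avoidance, compare `Helper92.regular_or_socle`);
`P = ann (mk w)`.
* `P = m`: `1 ↦ mk w` is a nonzero map `S ⧸ m → S ⧸ Jx x k`. But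
  `Helper92.van_quot` with `I = m`, `n = r` (hypothesis `Dp S r`) gives
  `Ext^0(Qt m, Qt (Jx x k)) = 0`, since `0 + k < r`.
* `P ≠ m`: in `A = Localization.AtPrime P` the images of the `x j` are regular (`A` is flat:
  `IsSMulRegular` of `a` on `S ⧸ J` localises to `A ⧸ J A`, `(Jx x j) A = Jx (x/1) j`), and
  `mk (w / 1) ≠ 0` in `A ⧸ Jx (x/1) k` is killed by `P A = maximalIdeal A`. The regular sequence of
  length `r` generating `I A` gives `Ext^i_A(A ⧸ P A, A) = 0` for `i < r` (Mathlib's
  `ModuleCat.subsingleton_ext_of_exists_isRegular`, used as in `Helper92.perfect_free`;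
  `Helper92.isRegular_list`), and `van_quot` gives a contradiction as before.
Finally `Helper92.isRegular_list` (`Jx x r ≤ I ≠ ⊤`).
-/

set_option autoImplicit false
open CategoryTheory CategoryTheory.Abelian IsLocalRing TensorProduct
open Pool.Agent.Lib.Helper92

namespace Pool.Agent.Lib.H44V
universe u

variable {S : Type u} [CommRing S]

theorem R1_contra [IsLocalRing S] {r : ℕ} (hS : Dp (ModuleCat.of S S) r) (x : ℕ → S) (k : ℕ)
    (hk : k < r) (hreg : ∀ j < k, IsSMulRegular (S ⧸ Jx x j) (x j)) (w : S) (hw : w ∉ Jx x k)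
    (hm : ∀ a ∈ maximalIdeal S, a * w ∈ Jx x k) : False := by
  have h0 := van_quot (I := maximalIdeal S) hS x k hreg 0 (by omega)
  have h1 : Subsingleton (Qt (maximalIdeal S) ⟶ Qt (Jx x k)) := Ext.addEquiv₀.symm.subsingleton
  have h2 : Subsingleton ((S ⧸ maximalIdeal S) →ₗ[S] (S ⧸ Jx x k)) :=
    (ModuleCat.homAddEquiv (M := Qt (maximalIdeal S)) (N := Qt (Jx x k))).symm.subsingleton
  let φ : (S ⧸ maximalIdeal S) →ₗ[S] (S ⧸ Jx x k) :=
    Submodule.liftQ (maximalIdeal S)
      (LinearMap.toSpanSingleton S (S ⧸ Jx x k) (Submodule.Quotient.mk w)) (by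
        intro a ha
        rw [LinearMap.mem_ker, LinearMap.toSpanSingleton_apply, ← Submodule.Quotient.mk_smul,
          Submodule.Quotient.mk_eq_zero]
        exact hm a ha)
  have h3 : φ (Submodule.Quotient.mk 1) = Submodule.Quotient.mk w := by
    change (1 : S) • (Submodule.Quotient.mk w : S ⧸ Jx x k) = _
    rw [one_smul]
  have h4 : φ = 0 := Subsingleton.elim _ _
  rw [h4, LinearMap.zero_apply, eq_comm, Submodule.Quotient.mk_eq_zero] at h3
  exact hw h3

theorem R1_reg_iff (J : Ideal S) (x : S) :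
    IsSMulRegular (S ⧸ J) x ↔ ∀ a : S, x * a ∈ J → a ∈ J := by
  rw [isSMulRegular_iff_right_eq_zero_of_smul]
  constructor
  · intro h a ha
    have := h (Submodule.Quotient.mk a) (by
      rw [← Submodule.Quotient.mk_smul, Submodule.Quotient.mk_eq_zero]; exact ha)
    rwa [Submodule.Quotient.mk_eq_zero] at this
  · intro h z hz
    obtain ⟨a, rfl⟩ := Submodule.Quotient.mk_surjective _ z
    rw [← Submodule.Quotient.mk_smul, Submodule.Quotient.mk_eq_zero] at hz
    rw [Submodule.Quotient.mk_eq_zero]
    exact h a hz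

theorem R1_map_Jx {A : Type u} [CommRing A] [Algebra S A] (x : ℕ → S) (j : ℕ) :
    Jx (fun i => algebraMap S A (x i)) j = (Jx x j).map (algebraMap S A) := by
  induction j with
  | zero => exact (Ideal.map_bot).symm
  | succ j ih =>
    change Jx (fun i => algebraMap S A (x i)) j ⊔ Ideal.span {algebraMap S A (x j)} =
      (Jx x j ⊔ Ideal.span {x j}).map (algebraMap S A)
    rw [ih, Ideal.map_sup, Ideal.map_span, Set.image_singleton]

theorem R1_mem (P : Ideal S) [P.IsPrime] (J : Ideal S) (a : S) :
    algebraMap S (Localization.AtPrime P) a ∈ J.map (algebraMap S (Localization.AtPrime P)) ↔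
      ∃ t, t ∉ P ∧ t * a ∈ J := by
  rw [IsLocalization.algebraMap_mem_map_algebraMap_iff P.primeCompl]
  constructor
  · rintro ⟨t, ht, h⟩
    exact ⟨t, ht, h⟩
  · rintro ⟨t, ht, h⟩
    exact ⟨t, ht, h⟩

theorem R1_loc_reg (P : Ideal S) [P.IsPrime] (J : Ideal S) (x : S)
    (h : IsSMulRegular (S ⧸ J) x) :
    IsSMulRegular (Localization.AtPrime P ⧸ J.map (algebraMap S (Localization.AtPrime P)))
      (algebraMap S (Localization.AtPrime P) x) := by
  rw [R1_reg_iff] at h ⊢
  intro a ha
  obtain ⟨⟨b, s⟩, hb⟩ := IsLocalization.surj P.primeCompl a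
  have hb' : a * algebraMap S (Localization.AtPrime P) s =
    algebraMap S (Localization.AtPrime P) b := hb
  have h1 : algebraMap S (Localization.AtPrime P) (x * b) ∈
      J.map (algebraMap S (Localization.AtPrime P)) := by
    rw [map_mul, ← hb', ← mul_assoc]
    exact Ideal.mul_mem_right _ _ ha
  obtain ⟨t, ht, h2⟩ := (R1_mem P J _).1 h1
  have h3 : t * b ∈ J := h _ (by rw [mul_left_comm]; exact h2)
  have h4 : algebraMap S (Localization.AtPrime P) b ∈
      J.map (algebraMap S (Localization.AtPrime P)) := (R1_mem P J b).2 ⟨t, ht, h3⟩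
  rw [← hb'] at h4
  have hu : IsUnit (algebraMap S (Localization.AtPrime P) s) :=
    IsLocalization.map_units (Localization.AtPrime P) s
  exact (Ideal.mul_unit_mem_iff_mem _ hu).1 h4

theorem R1_ci_dp {A : Type u} [CommRing A] [IsNoetherianRing A] [IsLocalRing A] {I : Ideal A}
    (hI : I ≠ ⊤) {r : ℕ} (h : CI I r) : Dp (ModuleCat.of A A) r := by
  obtain ⟨y, hy, hyI⟩ := h
  have hle : I ≤ maximalIdeal A := IsLocalRing.le_maximalIdeal hI
  have hlt : maximalIdeal A • (⊤ : Submodule A (ModuleCat.of A A)) < ⊤ := by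
    have h1 : maximalIdeal A • (⊤ : Submodule A A) = maximalIdeal A := by
      rw [smul_eq_mul]; exact Ideal.mul_top _
    have h2 : maximalIdeal A • (⊤ : Submodule A A) < ⊤ := by
      rw [h1]; exact lt_top_iff_ne_top.mpr (Ideal.IsPrime.ne_top inferInstance)
    exact h2
  have hreg := isRegular_list y r hy (by rw [hyI]; exact hI)
  have hlen : ((List.range r).map y).length = r := by simp
  intro j hj
  rw [← hlen] at hj
  refine ModuleCat.subsingleton_ext_of_exists_isRegular (maximalIdeal A) (Qt (maximalIdeal A)) ?_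
    (ModuleCat.of A A) hlt _ ?_ hreg j hj
  · rw [Module.support_eq_zeroLocus]
    change PrimeSpectrum.zeroLocus (Module.annihilator A (A ⧸ maximalIdeal A) : Set A) ⊆ _
    rw [Ideal.annihilator_quotient]
  · intro a ha
    obtain ⟨i, hi, rfl⟩ := List.mem_map.1 ha
    have hi' : i < r := List.mem_range.1 hi
    apply hle
    rw [← hyI]
    have h1 : ∀ n, i < n → y i ∈ Jx y n := by
      intro n
      induction n with
      | zero => intro h; omega
      | succ n ih =>
        intro h
        rcases Nat.lt_succ_iff_lt_or_eq.mp h with h2 | h2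
        · exact Ideal.mem_sup_left (ih h2)
        · subst h2
          exact Ideal.mem_sup_right (Ideal.mem_span_singleton_self _)
    exact h1 r hi'

theorem R1_step [IsNoetherianRing S] [IsLocalRing S] {I : Ideal S} (r : ℕ)
    (hS : Dp (ModuleCat.of S S) r)
    (hloc : ∀ (P : Ideal S) [P.IsPrime], I ≤ P → P ≠ maximalIdeal S →
      CI (I.map (algebraMap S (Localization.AtPrime P))) r) (x : ℕ → S) (k : ℕ)
    (hk : k < r) (hreg : ∀ j < k, IsSMulRegular (S ⧸ Jx x j) (x j)) :
    ∃ z ∈ I, IsSMulRegular (S ⧸ Jx x k) z := by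
  by_contra hcon
  push Not at hcon
  have hsub : (I : Set S) ⊆ ⋃ p ∈ associatedPrimes S (S ⧸ Jx x k), (p : Set S) := by
    rw [biUnion_associatedPrimes_eq_compl_regular]
    intro y hy
    exact hcon y hy
  rw [Ideal.subset_union_prime_finite (associatedPrimes.finite S (S ⧸ Jx x k))
    (⊥ : Ideal S) ⊥ (fun p hp _ _ => IsAssociatedPrime.isPrime hp)] at hsub
  obtain ⟨P, hP, hle⟩ := hsub
  have hass := isAssociatedPrime_iff.mp (AssociatedPrimes.mem_iff.mp hP)
  obtain ⟨hprime, z, hz⟩ := hass
  obtain ⟨w, rfl⟩ := Submodule.Quotient.mk_surjective _ z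
  have hmem : ∀ a : S, a ∈ P ↔ a * w ∈ Jx x k := by
    intro a
    rw [hz, Submodule.mem_colon_singleton, Submodule.mem_bot, ← Submodule.Quotient.mk_smul,
      Submodule.Quotient.mk_eq_zero, smul_eq_mul]
  have hw : w ∉ Jx x k := fun hc => by
    have : (1 : S) ∈ P := (hmem 1).mpr (by simpa using hc)
    exact hprime.ne_top ((Ideal.eq_top_iff_one _).mpr this)
  by_cases hPm : P = maximalIdeal S
  · exact R1_contra hS x k hk hreg w hw fun a ha => (hmem a).1 (hPm ▸ ha)
  · have hIA : I.map (algebraMap S (Localization.AtPrime P)) ≠ ⊤ := by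
      intro h
      have h1 : I.map (algebraMap S (Localization.AtPrime P)) ≤
          maximalIdeal (Localization.AtPrime P) := by
        rw [← Localization.AtPrime.map_eq_maximalIdeal]
        exact Ideal.map_mono hle
      rw [h] at h1
      exact (Ideal.IsPrime.ne_top inferInstance :
        maximalIdeal (Localization.AtPrime P) ≠ ⊤) (top_le_iff.1 h1)
    have hD := R1_ci_dp hIA (hloc P hle hPm)
    refine R1_contra hD (fun i => algebraMap S (Localization.AtPrime P) (x i)) k hk ?_
      (algebraMap S (Localization.AtPrime P) w) ?_ ?_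
    · intro j hj
      rw [R1_map_Jx]
      exact R1_loc_reg P _ _ (hreg j hj)
    · rw [R1_map_Jx, R1_mem]
      rintro ⟨t, ht, h⟩
      exact ht ((hmem t).2 h)
    · intro a ha
      rw [R1_map_Jx]
      rw [← Localization.AtPrime.map_eq_maximalIdeal] at ha
      have h1 : (P.map (algebraMap S (Localization.AtPrime P))) *
          Ideal.span {algebraMap S (Localization.AtPrime P) w} ≤
          (Jx x k).map (algebraMap S (Localization.AtPrime P)) := by
        rw [← Set.image_singleton, ← Ideal.map_span, ← Ideal.map_mul]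
        refine Ideal.map_mono ?_
        rw [Ideal.mul_le]
        intro b hb c hc
        obtain ⟨d, rfl⟩ := Ideal.mem_span_singleton.1 hc
        rw [← mul_assoc]
        exact Ideal.mul_mem_right _ _ ((hmem b).1 hb)
      exact h1 (Ideal.mul_mem_mul ha (Ideal.mem_span_singleton_self _))

theorem R1_grade [IsNoetherianRing S] [IsLocalRing S] {I : Ideal S} (hI : I ≠ ⊤) (r : ℕ)
    (hS : Dp (ModuleCat.of S S) r)
    (hloc : ∀ (P : Ideal S) [P.IsPrime], I ≤ P → P ≠ maximalIdeal S →
      CI (I.map (algebraMap S (Localization.AtPrime P))) r) :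
    ∃ xs : List S, xs.length = r ∧ (∀ x ∈ xs, x ∈ I) ∧ RingTheory.Sequence.IsRegular S xs := by
  have key : ∀ k ≤ r, ∃ x : ℕ → S, (∀ j < k, x j ∈ I) ∧
      ∀ j < k, IsSMulRegular (S ⧸ Jx x j) (x j) := by
    intro k
    induction k with
    | zero =>
      intro _
      exact ⟨fun _ => 0, fun j hj => absurd hj (by omega), fun j hj => absurd hj (by omega)⟩
    | succ k ih =>
      intro hk
      obtain ⟨x, hx, hreg⟩ := ih (by omega)
      obtain ⟨z, hz, hzr⟩ := R1_step r hS hloc x k (by omega) hreg
      let x' : ℕ → S := Function.update x k z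
      have hx'k : x' k = z := Function.update_self _ _ _
      have hx'j : ∀ j < k, x' j = x j := fun j hj => Function.update_of_ne (by omega) _ _
      have hJ : ∀ j ≤ k, Jx x' j = Jx x j :=
        fun j hj => Jx_congr _ _ _ fun i hi => hx'j i (by omega)
      refine ⟨x', ?_, ?_⟩
      · intro j hj
        rcases Nat.lt_succ_iff_lt_or_eq.mp hj with h1 | h1
        · rw [hx'j j h1]; exact hx j h1
        · rw [h1, hx'k]; exact hz
      · intro j hj
        rcases Nat.lt_succ_iff_lt_or_eq.mp hj with h1 | h1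
        · rw [hx'j j h1, hJ j (by omega)]; exact hreg j h1
        · rw [h1, hx'k, hJ k le_rfl]; exact hzr
  obtain ⟨x, hx, hreg⟩ := key r le_rfl
  refine ⟨(List.range r).map x, by simp, ?_, isRegular_list x r hreg ?_⟩
  · intro a ha
    obtain ⟨i, hi, rfl⟩ := List.mem_map.1 ha
    exact hx i (List.mem_range.1 hi)
  · intro h
    have := Jx_le hx
    rw [h] at this
    exact hI (top_le_iff.1 this)

end Pool.Agent.Lib.H44V
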