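import Pool.Agent.Lib.H44V.A11
import Pool.Agent.Lib.H44V.D2
import Pool.Agent.Lib.H44V.D5
import Pool.Agent.Lib.H44V.L3
import Pool.Agent.Lib.H44V.P11
import Pool.Agent.Lib.H44V.E2
import Pool.Agent.Lib.H44V.F8
import Pool.Agent.Lib.H44V.G1
import Pool.Agent.Lib.H44V.R1

/-!
# M1: assembly of the theorem in characteristic `p`
-/

set_option autoImplicit false
open CategoryTheory CategoryTheory.Abelian IsLocalRing
open Pool.Agent.Lib.Helper92

namespace Pool.Agent.Lib.H44V
universe u
variable {S : Type u} [CommRing S]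

theorem M1_prime [IsNoetherianRing S] [IsLocalRing S] {I : Ideal S} (hI : I ≠ ⊤)
    (hd : Dp (Qt I) 1) : ∃ P : Ideal S, ∃ _ : P.IsPrime, I ≤ P ∧ P ≠ maximalIdeal S := by
  by_contra hcon
  push Not at hcon
  apply hI
  rw [Ideal.eq_top_iff_one]
  refine D3_socle hd 1 ?_
  intro P _ hP
  have h1 : ¬ I ≤ P := fun h => hP (hcon P inferInstance h)
  obtain ⟨s, hs, hsP⟩ := Set.not_subset.mp h1
  exact ⟨s, hsP, by simpa using hs⟩

/-- the exact projective dimension. -/
theorem M1_exact {Y : ModuleCat.{u} S} [Nontrivial Y] (n : ℕ)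
    (h : HasProjectiveDimensionLT Y n) :
    ∃ n₀, HasProjectiveDimensionLT Y (n₀ + 1) ∧ ¬ HasProjectiveDimensionLT Y n₀ := by
  classical
  have hex : ∃ n, HasProjectiveDimensionLT Y n := ⟨n, h⟩
  have h0 : Nat.find hex ≠ 0 := by
    intro h0
    have h1 := Nat.find_spec hex
    rw [h0, hasProjectiveDimensionLT_zero_iff_isZero, ModuleCat.isZero_iff_subsingleton] at h1
    exact not_subsingleton Y h1
  obtain ⟨k, hk⟩ := Nat.exists_eq_succ_of_ne_zero h0
  refine ⟨k, ?_, Nat.find_min hex (by omega)⟩
  have := Nat.find_spec hex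
  rwa [hk] at this

theorem M1_charP (p : ℕ) [Fact p.Prime] [CharP S p] (P : Ideal S) [P.IsPrime] :
    CharP (Localization.AtPrime P) p := by
  have h0 : ((p : ℕ) : Localization.AtPrime P) = 0 := by
    have h5 := map_natCast (algebraMap S (Localization.AtPrime P)) p
    rw [CharP.cast_eq_zero, map_zero] at h5
    exact h5.symm
  obtain ⟨q, hq⟩ := CharP.exists (Localization.AtPrime P)
  have h1 : q ∣ p := (CharP.cast_eq_zero_iff (Localization.AtPrime P) q p).mp h0
  have h2 : q ≠ 1 := by
    rintro rfl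
    exact CharP.ringChar_ne_one (R := Localization.AtPrime P) (ringChar.eq _ 1)
  have h3 : q = p := (Nat.Prime.eq_one_or_self_of_dvd Fact.out q h1).resolve_left h2
  rwa [← h3]

theorem M1_main (p : ℕ) [Fact p.Prime] (d : ℕ) : ∀ (S : Type u) [CommRing S]
    [IsNoetherianRing S] [IsLocalRing S] [CharP S p] (_ : ringKrullDim S < ((d : ℕ) : WithBot ℕ∞))
    (I : Ideal S) (_ : I ≠ ⊤) (n : ℕ) (_ : HasProjectiveDimensionLT (Qt I) n)
    (r : ℕ) (h : Fin r → (I →ₗ[S] (S ⧸ I))) (_ : NBasis I h), CI I r := by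
  induction d with
  | zero =>
    intro S _ _ _ _ hdim
    exact absurd hdim (not_lt.mpr (by simpa using ringKrullDim_nonneg_of_nontrivial))
  | succ d ih =>
    intro S _ _ _ _ hdim I hI n hn r h hb
    by_cases hdep : ∀ rs : List (S ⧸ I), RingTheory.Sequence.IsRegular (S ⧸ I) rs → rs.length ≤ 1
    · exact A11_depthOne r S I hI n hn hdep h hb
    push Not at hdep
    obtain ⟨rs, hrs, hlen⟩ := hdep
    have hd2 : Dp (Qt I) 2 := D5_depth rs hrs 2 hlen
    have hd1 : Dp (Qt I) 1 := fun j hj => hd2 j (by omega)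
    have hnt : Nontrivial (S ⧸ I) := Ideal.Quotient.nontrivial_iff.mpr hI
    obtain ⟨n₀, h1, h2⟩ := M1_exact (Y := Qt I) n hn
    have hS : Dp (ModuleCat.of S S) (n₀ + 2) := D2_ab n₀ (S ⧸ I) h1 h2 2 hd2
    have hloc : ∀ (P : Ideal S) [P.IsPrime], I ≤ P → P ≠ maximalIdeal S →
        CI (I.map (algebraMap S (Localization.AtPrime P))) r := by
      intro P _ hIP hP
      have := M1_charP p P
      obtain ⟨h', hb', -⟩ := L2_nbasis P hb
      refine ih (Localization.AtPrime P) (L3_dim P hP d hdim) _ ?_ (n₀ + 1) (L1_qt P _ I h1) r h' hb'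
      intro htop
      have hle : I.map (algebraMap S (Localization.AtPrime P)) ≤
          maximalIdeal (Localization.AtPrime P) := by
        rw [← Localization.AtPrime.map_eq_maximalIdeal]
        exact Ideal.map_mono hIP
      rw [htop] at hle
      exact (maximalIdeal.isMaximal _).ne_top (top_le_iff.mp hle)
    obtain ⟨P, hPp, hIP, hPm⟩ := M1_prime hI hd1
    have hIPtop : I.map (algebraMap S (Localization.AtPrime P)) ≠ ⊤ := by
      intro htop
      have hle : I.map (algebraMap S (Localization.AtPrime P)) ≤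
          maximalIdeal (Localization.AtPrime P) := by
        rw [← Localization.AtPrime.map_eq_maximalIdeal]
        exact Ideal.map_mono hIP
      rw [htop] at hle
      exact (maximalIdeal.isMaximal _).ne_top (top_le_iff.mp hle)
    have hrn : r ≤ n₀ := E2_le hIPtop (hloc P hIP hPm) (L1_qt P _ I h1)
    rcases Nat.eq_or_lt_of_le hrn with heq | hlt
    · -- the perfect case
      obtain ⟨xs, hxl, hxI, hxs⟩ := R1_grade hI r (fun j hj => hS j (by omega)) hloc
      rcases r with _ | k
      · rw [← heq] at h1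
        exact ⟨0, by simp, (eq_bot_of_projective hI h1).symm⟩
      · have hgr : ∀ i < k + 1, Subsingleton (Ext (Qt I) (ModuleCat.of S S) i) := by
          rw [← hxl]
          have hlt : I • (⊤ : Submodule S (ModuleCat.of S S)) < ⊤ := by
            have h3 : I • (⊤ : Submodule S S) = I := by
              rw [smul_eq_mul]; exact Ideal.mul_top I
            have h4 : I • (⊤ : Submodule S S) < ⊤ := by
              rw [h3]; exact lt_top_iff_ne_top.mpr hI
            exact h4
          refine ModuleCat.subsingleton_ext_of_exists_isRegular I (Qt I) ?_ (ModuleCat.of S S) hlt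
            xs hxI hxs
          rw [Module.support_eq_zeroLocus]
          change PrimeSpectrum.zeroLocus (Module.annihilator S (S ⧸ I) : Set S) ⊆ _
          rw [Ideal.annihilator_quotient]
        have hvan : ∀ Y : ModuleCat.{u} S, Subsingleton (Ext (Qt I) Y (k + 2)) := by
          intro Y
          exact HasProjectiveDimensionLT.subsingleton (Qt I) (n₀ + 1) (k + 2) (by omega) Y
        obtain ⟨x, -, hreg, hJ⟩ := hb.exists_regular hI hgr hvan
        exact ⟨x, hreg, hJ⟩
    · exfalso
      have hfin : lam n₀ (Qt I) ≠ ⊤ := by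
        apply E2_fin
        intro Q _ hQ
        by_cases hIQ : I ≤ Q
        · have h3 := E2_ci (hloc Q hIQ hQ)
          exact hasProjectiveDimensionLT_of_ge _ (r + 1) n₀ (by omega)
        · have htop : I.map (algebraMap S (Localization.AtPrime Q)) = ⊤ := by
            obtain ⟨s, hs, hsQ⟩ := Set.not_subset.mp hIQ
            refine Ideal.eq_top_of_isUnit_mem _ (Ideal.mem_map_of_mem _ hs) ?_
            exact IsLocalization.map_units (M := Q.primeCompl) _ ⟨s, hsQ⟩
          rw [htop]
          have : Subsingleton (Localization.AtPrime Q ⧸ (⊤ : Ideal (Localization.AtPrime Q))) :=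
            Ideal.Quotient.subsingleton_iff.mpr rfl
          have hz : HasProjectiveDimensionLT (Qt (⊤ : Ideal (Localization.AtPrime Q))) 0 := by
            rw [hasProjectiveDimensionLT_zero_iff_isZero]
            exact ModuleCat.isZero_of_subsingleton _
          exact hasProjectiveDimensionLT_of_ge _ 0 n₀ (by omega)
      obtain ⟨m, g, hg⟩ : ∃ (m : ℕ) (g : Fin m → S), Ideal.span (Set.range g) = I := by
        obtain ⟨s, hs⟩ := (isNoetherianRing_iff_ideal_fg S).mp inferInstance I
        refine ⟨s.card, fun i => (s.equivFin.symm i : S), ?_⟩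
        rw [← hs]
        congr 1
        ext y
        constructor
        · rintro ⟨i, rfl⟩
          exact (s.equivFin.symm i).2
        · intro hy
          exact ⟨s.equivFin ⟨y, hy⟩, by simp⟩
      have hgI : ∀ i, g i ∈ I := fun i => by
        rw [← hg]; exact Ideal.subset_span ⟨i, rfl⟩
      have hc : ∀ i k, ∃ c : S, h k ⟨g i, hgI i⟩ = Submodule.Quotient.mk c := fun i k => by
        obtain ⟨c, hc⟩ := Submodule.Quotient.mk_surjective _ (h k ⟨g i, hgI i⟩)
        exact ⟨c, hc.symm⟩
      choose c hc using hc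
      let D : Glob S I r m := ⟨h, hb, g, hgI, hg, c, hc, hI, hloc⟩
      obtain ⟨x, hxm, hreg⟩ := G1_seq (r + 1) (fun j hj => hS j (by omega))
      obtain ⟨C, N₀, hC⟩ := G1_growth (r + 1) S x hxm hreg
      obtain ⟨L, hL⟩ := ENat.ne_top_iff_exists.mp hfin
      -- choose `e` large
      obtain ⟨e, he⟩ : ∃ e : ℕ, N₀ ≤ p ^ e ∧ C * L < p ^ e := by
        refine ⟨N₀ + C * L, ?_, ?_⟩
        · exact ((Nat.lt_pow_self (Nat.Prime.one_lt Fact.out)).le).trans
            (Nat.pow_le_pow_right (Nat.Prime.pos Fact.out) (by omega))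
        · exact (Nat.lt_pow_self (Nat.Prime.one_lt Fact.out)).trans_le
            (Nat.pow_le_pow_right (Nat.Prime.pos Fact.out) (by omega))
      have h4 := hC _ he.1
      have h5 := F8_len S p e r n₀ (by omega) (fun j hj => hS j (by omega)) h1 h2 hloc
      have h6 := P11_upper p e D hd1 n₀ hS
      have h7 : (((p ^ e) ^ (r + 1) : ℕ) : ℕ∞) ≤ ((C * ((p ^ e) ^ r * L) : ℕ) : ℕ∞) := by
        refine h4.trans ?_
        rw [Nat.cast_mul]
        refine mul_le_mul_right (h5.trans (h6.trans ?_)) _
        rw [← hL, Nat.cast_mul]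
      rw [Nat.cast_le, pow_succ] at h7
      have h8 : 0 < (p ^ e) ^ r := Nat.pow_pos (Nat.pow_pos (Nat.Prime.pos Fact.out))
      have h9 : (p ^ e) ^ r * p ^ e ≤ (p ^ e) ^ r * (C * L) := by
        calc (p ^ e) ^ r * p ^ e ≤ C * ((p ^ e) ^ r * L) := h7
          _ = (p ^ e) ^ r * (C * L) := by ring
      have h10 := Nat.le_of_mul_le_mul_left h9 h8
      omega

end Pool.Agent.Lib.H44V
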