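import Pool.Agent.Lib.H44V.Defs

/-!
# A10 (M): lifting regular sequences from `S/(y)`

Let `x'` be the sequence in `S' = S ⧸ span {y}`; choose lifts `ξ j` of `x' j` and put
`x 0 = y`, `x (j + 1) = ξ j`. By induction `Jx x (j + 1) = (Jx x' j).comap (mk (span {y}))` (both
contain `y` and have the same image), so `S ⧸ Jx x (j + 1) ≃ S' ⧸ Jx x' j`
(`DoubleQuot.quotQuotEquivComap`... or directly on elements: `IsSMulRegular (S ⧸ J) x` iff
`∀ m, x m ∈ J → m ∈ J`), compatible with `ξ j ↦ x' j`. `Jx x 0 = ⊥`, `x 0 = y` regular on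
`S ⧸ ⊥`. `Jx x (r + 1) = comap (I.map mk) = I` as `y ∈ I`.
-/

set_option autoImplicit false
open CategoryTheory CategoryTheory.Abelian IsLocalRing
open Pool.Agent.Lib.Helper92

namespace Pool.Agent.Lib.H44V
universe u
variable {S : Type u} [CommRing S]

lemma A10_reg {R : Type u} [CommRing R] (K : Ideal R) (t : R) :
    IsSMulRegular (R ⧸ K) t ↔ ∀ m : R, t * m ∈ K → m ∈ K := by
  constructor
  · intro h m hm
    have h1 : t • (Submodule.Quotient.mk m : R ⧸ K) = t • 0 := by
      rw [smul_zero, ← Submodule.Quotient.mk_smul, Submodule.Quotient.mk_eq_zero]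
      exact hm
    exact (Submodule.Quotient.mk_eq_zero _).mp (h h1)
  · intro h a b hab
    obtain ⟨a, rfl⟩ := Submodule.Quotient.mk_surjective _ a
    obtain ⟨b, rfl⟩ := Submodule.Quotient.mk_surjective _ b
    have h1 : t • (Submodule.Quotient.mk a : R ⧸ K) = t • Submodule.Quotient.mk b := hab
    rw [← Submodule.Quotient.mk_smul, ← Submodule.Quotient.mk_smul, Submodule.Quotient.eq] at h1
    rw [Submodule.Quotient.eq]
    apply h
    rw [mul_sub]
    exact h1

theorem A10_lift {I : Ideal S} (y : S) (hyI : y ∈ I) (hy : IsSMulRegular S y) {r : ℕ}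
    (h : CI (I.map (Ideal.Quotient.mk (Ideal.span {y}))) r) : CI I (r + 1) := by
  obtain ⟨x', hreg, hJ'⟩ := h
  have hsurj : Function.Surjective (Ideal.Quotient.mk (Ideal.span {y})) :=
    Ideal.Quotient.mk_surjective
  choose ξ hξ using fun j => hsurj (x' j)
  let x : ℕ → S := fun j => Nat.casesOn j y ξ
  have hx0 : x 0 = y := rfl
  have hxs : ∀ j, x (j + 1) = ξ j := fun j => rfl
  have hker : Ideal.comap (Ideal.Quotient.mk (Ideal.span {y})) ⊥ = Ideal.span {y} := by
    rw [← RingHom.ker_eq_comap_bot, Ideal.mk_ker]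
  have key : ∀ j, Jx x (j + 1) = (Jx x' j).comap (Ideal.Quotient.mk (Ideal.span {y})) := by
    intro j
    induction j with
    | zero =>
      change (⊥ : Ideal S) ⊔ Ideal.span {y} = Ideal.comap _ (⊥ : Ideal _)
      rw [hker, bot_sup_eq]
    | succ j ih =>
      have h1 : (Jx x (j + 2)).map (Ideal.Quotient.mk (Ideal.span {y})) = Jx x' (j + 1) := by
        change (Jx x (j + 1) ⊔ Ideal.span {ξ j}).map _ = Jx x' j ⊔ Ideal.span {x' j}
        rw [Ideal.map_sup, ih, Ideal.map_comap_of_surjective _ hsurj, Ideal.map_span,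
          Set.image_singleton, hξ]
      rw [← h1, Ideal.comap_map_of_surjective _ hsurj, hker, eq_comm, sup_eq_left]
      change _ ≤ Jx x (j + 1) ⊔ Ideal.span {ξ j}
      rw [ih]
      exact le_sup_of_le_left (hker.ge.trans (Ideal.comap_mono bot_le))
  refine ⟨x, ?_, ?_⟩
  · intro j hj
    rcases j with _ | j
    · rw [A10_reg]
      intro m hm
      change m ∈ (⊥ : Ideal S)
      have hm' : y * m ∈ (⊥ : Ideal S) := hm
      rw [Ideal.mem_bot] at hm' ⊢
      apply hy
      change y * m = y * 0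
      rw [hm', mul_zero]
    · rw [A10_reg, key, hxs]
      intro m hm
      rw [Ideal.mem_comap] at hm ⊢
      rw [map_mul, hξ] at hm
      exact (A10_reg _ _).mp (hreg j (by omega)) _ hm
  · rw [key, hJ', Ideal.comap_map_of_surjective _ hsurj, hker, sup_eq_left]
    rw [Ideal.span_singleton_le_iff_mem]
    exact hyI

end Pool.Agent.Lib.H44V
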