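import Pool.Agent.Lib.H44V.A3

/-!
# A4 (M): a nonzero ideal of finite projective dimension contains a nonzerodivisor

Suppose not. By prime avoidance (finitely many associated primes,
`biUnion_associatedPrimes_eq_compl_regular`, `Ideal.subset_union_prime_finite`; compare
`Helper92.regular_or_socle`) `I ≤ P` for some `P ∈ associatedPrimes S S`. Let `χ` be as in
`A3_rank` for `Y = S ⧸ I`. For an associated prime `Q` the module
`(S ⧸ I)_Q` is free and generated by one element, so its rank is `0` or `1`, and it is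
`0` iff `(S ⧸ I)_Q = 0`. For `Q = P` it is nonzero because `I ≤ P`; so `χ = 1`.
Hence for every associated prime `Q`, `(S ⧸ I)_Q` is free of rank `1`, in particular faithful
over `S_Q`; as `I` kills it, every `z ∈ I` has `z / 1 = 0` in `S_Q`.
Now let `0 ≠ z ∈ I`. The submodule `S z` of `S` has an associated prime `Q = ann (s z)`
(`exists_le_isAssociatedPrime_of_isNoetherianRing`), `Q ∈ associatedPrimes S S`, and
`z / 1 = 0` in `S_Q` gives `t ∉ Q` with `t z = 0`, so `t ∈ ann (s z) = Q`, contradiction.
-/

set_option autoImplicit false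
open CategoryTheory CategoryTheory.Abelian IsLocalRing
open Pool.Agent.Lib.Helper92

namespace Pool.Agent.Lib.H44V
universe u
variable {S : Type u} [CommRing S]

theorem A4_nzd [IsNoetherianRing S] [IsLocalRing S] {I : Ideal S} (h0 : I ≠ ⊥) (n : ℕ)
    (hpd : HasProjectiveDimensionLT (Qt I) n) : ∃ z ∈ I, IsSMulRegular S z := by
  classical
  by_contra hcon
  push Not at hcon
  have hsub : (I : Set S) ⊆ ⋃ p ∈ associatedPrimes S S, (p : Set S) := by
    rw [biUnion_associatedPrimes_eq_compl_regular]
    intro y hy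
    exact hcon y hy
  rw [Ideal.subset_union_prime_finite (associatedPrimes.finite S S)
    (⊥ : Ideal S) ⊥ (fun p hp _ _ => IsAssociatedPrime.isPrime hp)] at hsub
  obtain ⟨P, hP, hle⟩ := hsub
  have hPp : P.IsPrime := hP.isPrime
  obtain ⟨χ, hχ⟩ := A3_rank n (S ⧸ I) hpd
  -- the rank at `P` is positive
  have hpos : χ ≠ 0 := by
    intro h00
    obtain ⟨hfree, hrk⟩ := hχ P hP
    rw [h00, Nat.cast_eq_zero, Module.finrank_eq_zero_iff_of_free] at hrk
    have h1 : LocalizedModule.mk (Submodule.Quotient.mk (1 : S) : S ⧸ I) (1 : P.primeCompl) = 0 :=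
      @Subsingleton.elim _ hrk _ _
    rw [← LocalizedModule.zero_mk (1 : P.primeCompl), LocalizedModule.mk_eq] at h1
    obtain ⟨t, ht⟩ := h1
    rw [one_smul, smul_zero, smul_zero] at ht
    have h2 : (t : S) • (Submodule.Quotient.mk (1 : S) : S ⧸ I) = 0 := ht
    rw [← Submodule.Quotient.mk_smul, Submodule.Quotient.mk_eq_zero, smul_eq_mul, mul_one] at h2
    exact t.2 (hle h2)
  obtain ⟨z, hz, hz0⟩ := Submodule.exists_mem_ne_zero_of_ne_bot h0
  obtain ⟨Q, hQ, hzQ⟩ := exists_le_isAssociatedPrime_of_isNoetherianRing S z hz0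
  have hQp : Q.IsPrime := hQ.isPrime
  obtain ⟨hfree, hrk⟩ := hχ Q hQ
  have hnt : Nontrivial (LocalizedModule Q.primeCompl (S ⧸ I)) := by
    by_contra h
    rw [not_nontrivial_iff_subsingleton, ← Module.finrank_eq_zero_iff_of_free
      (Localization.AtPrime Q)] at h
    rw [h] at hrk
    exact hpos (by simpa using hrk.symm)
  let B := Module.Free.chooseBasis (Localization.AtPrime Q) (LocalizedModule Q.primeCompl (S ⧸ I))
  have hne : Nonempty (Module.Free.ChooseBasisIndex (Localization.AtPrime Q)
    (LocalizedModule Q.primeCompl (S ⧸ I))) := inferInstance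
  obtain ⟨e⟩ := hne
  have hkill : ∀ v : LocalizedModule Q.primeCompl (S ⧸ I), z • v = 0 := by
    intro v
    induction v using LocalizedModule.induction_on with
    | h y s =>
      obtain ⟨y, rfl⟩ := Submodule.Quotient.mk_surjective _ y
      rw [LocalizedModule.smul'_mk, ← Submodule.Quotient.mk_smul, smul_eq_mul,
        (Submodule.Quotient.mk_eq_zero I).mpr (Ideal.mul_mem_right _ _ hz), LocalizedModule.zero_mk]
  have h3 : algebraMap S (Localization.AtPrime Q) z • B e = 0 := by
    rw [algebraMap_smul]
    exact hkill _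
  have h4 : algebraMap S (Localization.AtPrime Q) z = 0 := by
    have h5 := congrArg (fun v => B.repr v e) h3
    simp only [map_smul, Finsupp.smul_apply, Module.Basis.repr_self, Finsupp.single_eq_same,
      smul_eq_mul, mul_one, map_zero, Finsupp.coe_zero, Pi.zero_apply] at h5
    exact h5
  rw [IsLocalization.map_eq_zero_iff Q.primeCompl] at h4
  obtain ⟨t, ht⟩ := h4
  apply t.2
  apply hzQ
  rw [Submodule.mem_colon_singleton, Submodule.mem_bot, smul_eq_mul]
  exact ht

end Pool.Agent.Lib.H44V
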