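import Pool.Agent.Lib.H44V.Defs

/-!
# A6 (S): a functional with a unit value has a unit value at an `S`-regular element

`z ∈ I ≤ m`. By `Helper92.exists_pow_regular` with `J = ⊥` there is `m ≥ 2` such that
`y + z ^ m` is a nonzerodivisor on `S ⧸ ⊥`, hence on `S`. `g (y + z ^ m) = g y + z ^ (m - 1) • g z`
and `z ^ (m - 1) ∈ I` kills `S ⧸ I` (`Helper92.smul_quot_eq_zero`); compare
`Helper92.exists_good`.
-/

set_option autoImplicit false
open CategoryTheory CategoryTheory.Abelian IsLocalRing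
open Pool.Agent.Lib.Helper92

namespace Pool.Agent.Lib.H44V
universe u
variable {S : Type u} [CommRing S]

theorem A6_regular_unit [IsNoetherianRing S] [IsLocalRing S] {I : Ideal S} (hI : I ≠ ⊤)
    (z : S) (hzI : z ∈ I) (hz : IsSMulRegular S z) (g : I →ₗ[S] (S ⧸ I)) (y : I) (a : S)
    (hy : g y = Submodule.Quotient.mk a) :
    ∃ y' : I, IsSMulRegular S (y' : S) ∧ g y' = Submodule.Quotient.mk a := by
  let e : (S ⧸ (⊥ : Ideal S)) ≃ₗ[S] S := Submodule.quotEquivOfEqBot (⊥ : Ideal S) rfl
  have h1 : IsSMulRegular (S ⧸ (⊥ : Ideal S)) z := by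
    intro u v huv
    apply e.injective
    apply hz
    change z • e u = z • e v
    rw [← map_smul, ← map_smul]
    exact congrArg e huv
  have hzm : z ∈ maximalIdeal S := IsLocalRing.le_maximalIdeal hI hzI
  obtain ⟨m, hm, hreg⟩ := exists_pow_regular (J := (⊥ : Ideal S)) (y : S) z hzm h1
  have hmem : (y : S) + z ^ m ∈ I := I.add_mem y.2 (I.pow_mem_of_mem hzI m (by omega))
  refine ⟨⟨(y : S) + z ^ m, hmem⟩, ?_, ?_⟩
  · intro u v huv
    apply e.symm.injective
    apply hreg
    change ((y : S) + z ^ m) • e.symm u = ((y : S) + z ^ m) • e.symm v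
    rw [← map_smul, ← map_smul]
    exact congrArg e.symm huv
  · have h2 : (⟨(y : S) + z ^ m, hmem⟩ : I) = y + z ^ (m - 1) • ⟨z, hzI⟩ := by
      ext
      change (y : S) + z ^ m = (y : S) + z ^ (m - 1) * z
      rw [← pow_succ, show m - 1 + 1 = m by omega]
    rw [h2, map_add, map_smul, hy, smul_quot_eq_zero (I.pow_mem_of_mem hzI _ (by omega)),
      add_zero]

end Pool.Agent.Lib.H44V
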