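import Pool.Agent.Lib.H44V.A7

/-!
# A8 (M): `pd_{S/y} (S/I) < ∞` if a functional takes a unit value at `y`

Write `J = span {y}`, `S' = S ⧸ J`, `I' = I.map (mk J)`. `I` has finite projective dimension over
`S` (from `Helper92.sesI_exact I`, `hasProjectiveDimensionLT_X₁`) and `y` is regular on `I ⊆ S`,
so by `A7_pd_mod` `B = I ⧸ J • ⊤` has finite projective dimension over `S'`. `I'` is a retract of
`B` over `S'`: the map `B → I'` is induced by `z ↦ mk z`. For the section choose a unit `a` with
`g y = mk a` and its inverse `b`; for `z ∈ I` choose `c ∈ S` with `g z = mk c` and send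
`z ↦ [z - (b c) y] ∈ B`; this is well defined (`c` is unique modulo `I` and `I y ⊆ y I = J • I`),
`S`-linear, and kills `y` (`c = a`) and so `S y`, so it factors through `I' ≃ I / S y`. The
composite `I' → B → I'` is the identity. So `Retract.hasProjectiveDimensionLT` gives
`HasProjectiveDimensionLT I' n'`, and `sesI_exact I'` (`hasProjectiveDimensionLT_X₃`) gives
`HasProjectiveDimensionLT (Qt I') (n' + 1)`. Convenient: first construct the `S`-linear map
`I → I`/`Sy`... as `S`-linear maps and then note that `S → S'` is surjective, so `S`-linear maps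
between `S'`-modules are `S'`-linear.
-/

set_option autoImplicit false
open CategoryTheory CategoryTheory.Abelian IsLocalRing
open Pool.Agent.Lib.Helper92

namespace Pool.Agent.Lib.H44V
universe u
variable {S : Type u} [CommRing S]

lemma A8_free (R : Type u) [CommRing R] (n : ℕ) :
    HasProjectiveDimensionLT (ModuleCat.of R R) (n + 1) := by
  have h1 : Projective (ModuleCat.of R R) := (IsProjective.iff_projective (R := R) R).mp inferInstance
  have h2 := projective_iff_hasProjectiveDimensionLT_one.mp h1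
  exact hasProjectiveDimensionLT_of_ge _ 1 (n + 1) (by omega)

theorem A8_pd_quot {I : Ideal S} (y : I) (hy : IsSMulRegular S (y : S)) (g : I →ₗ[S] (S ⧸ I))
    (a : S) (ha : IsUnit a) (hg : g y = Submodule.Quotient.mk a) (n : ℕ)
    (hpd : HasProjectiveDimensionLT (Qt I) n) :
    ∃ n', HasProjectiveDimensionLT
      (Qt (I.map (Ideal.Quotient.mk (Ideal.span {(y : S)})))) n' := by
  obtain ⟨b, hb⟩ := ha.exists_left_inv
  let J : Ideal S := Ideal.span {(y : S)}
  have hJ : J = Ideal.span {(y : S)} := rfl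
  have hyJ : (y : S) ∈ J := Ideal.mem_span_singleton_self _
  -- projective dimension of `I`
  have hpdI : HasProjectiveDimensionLT (ModuleCat.of S I) (n + 1) := by
    have h3 : HasProjectiveDimensionLT (Qt I) (n + 1 + 1) :=
      hasProjectiveDimensionLT_of_ge _ n (n + 1 + 1) (by omega)
    exact (sesI_exact I).hasProjectiveDimensionLT_X₁ (n + 1) (A8_free S n) h3
  have hyI : IsSMulRegular I (y : S) := by
    intro u v huv
    exact Subtype.ext (hy (congrArg Subtype.val huv))
  have hB := A7_pd_mod (y : S) hy (n + 1) I hyI hpdI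
  -- the projection
  let p : I →ₗ[S] (I.map (Ideal.Quotient.mk J)) :=
    { toFun := fun z => ⟨Ideal.Quotient.mk J z, Ideal.mem_map_of_mem _ z.2⟩
      map_add' := fun u v => by
        apply Subtype.ext
        simp
      map_smul' := fun t u => by
        apply Subtype.ext
        simp [Algebra.smul_def] }
  have hp : Function.Surjective p := by
    rintro ⟨w, hw⟩
    obtain ⟨z, hz, rfl⟩ := (Ideal.mem_map_iff_of_surjective (Ideal.Quotient.mk J)
      Ideal.Quotient.mk_surjective).mp hw
    exact ⟨⟨z, hz⟩, rfl⟩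
  have hpy : p y = 0 := by
    apply Subtype.ext
    exact Ideal.Quotient.eq_zero_iff_mem.mpr hyJ
  have hpker : ∀ z : I, p z = 0 → ∃ t : S, t • y = z := by
    intro z hz
    have h1 : Ideal.Quotient.mk J z = 0 := congrArg Subtype.val hz
    rw [Ideal.Quotient.eq_zero_iff_mem, Ideal.mem_span_singleton'] at h1
    obtain ⟨t, ht⟩ := h1
    exact ⟨t, Subtype.ext ht⟩
  have hpJ : J • (⊤ : Submodule S I) ≤ LinearMap.ker p := by
    intro z hz
    rw [A7_mem] at hz
    obtain ⟨m, rfl⟩ := hz
    rw [LinearMap.mem_ker]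
    have : (y : S) • m = (m : S) • y := Subtype.ext (mul_comm _ _)
    rw [this, map_smul, hpy, smul_zero]
  let pb : (I ⧸ (J • (⊤ : Submodule S I))) →ₗ[S ⧸ J] (I.map (Ideal.Quotient.mk J)) :=
    LinearMap.extendScalarsOfSurjective (S := S ⧸ J) Ideal.Quotient.mk_surjective
      (Submodule.liftQ _ p hpJ)
  -- the section
  let σ : (S ⧸ I) →ₗ[S] (I ⧸ (J • (⊤ : Submodule S I))) :=
    Submodule.liftQ I (LinearMap.toSpanSingleton S _ (Submodule.Quotient.mk (b • y))) (by
      intro c hc
      rw [LinearMap.mem_ker, LinearMap.toSpanSingleton_apply, ← Submodule.Quotient.mk_smul,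
        Submodule.Quotient.mk_eq_zero, A7_mem]
      exact ⟨b • (⟨c, hc⟩ : I), Subtype.ext (by
        change (y : S) * (b * c) = c * (b * y)
        ring)⟩)
  let s0 : I →ₗ[S] (I ⧸ (J • (⊤ : Submodule S I))) := Submodule.mkQ _ - σ ∘ₗ g
  have hs0y : s0 y = 0 := by
    change Submodule.mkQ (J • (⊤ : Submodule S I)) y - σ (g y) = 0
    rw [hg]
    change (Submodule.Quotient.mk y : I ⧸ (J • (⊤ : Submodule S I))) -
      a • Submodule.Quotient.mk (b • y) = 0
    rw [← Submodule.Quotient.mk_smul, smul_smul, mul_comm a b, hb, one_smul, sub_self]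
  have hker : LinearMap.ker p ≤ LinearMap.ker s0 := by
    intro z hz
    obtain ⟨t, rfl⟩ := hpker z hz
    rw [LinearMap.mem_ker, map_smul, hs0y, smul_zero]
  let s1 : (I.map (Ideal.Quotient.mk J)) →ₗ[S] (I ⧸ (J • (⊤ : Submodule S I))) :=
    (Submodule.liftQ _ s0 hker) ∘ₗ (p.quotKerEquivOfSurjective hp).symm.toLinearMap
  have hs1 : ∀ z, s1 (p z) = s0 z := by
    intro z
    have h1 : (p.quotKerEquivOfSurjective hp).symm (p z) = Submodule.Quotient.mk z := by
      rw [LinearEquiv.symm_apply_eq]
      rfl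
    change (Submodule.liftQ _ s0 hker) ((p.quotKerEquivOfSurjective hp).symm (p z)) = s0 z
    rw [h1]
    rfl
  let s2 : (I.map (Ideal.Quotient.mk J)) →ₗ[S ⧸ J] (I ⧸ (J • (⊤ : Submodule S I))) :=
    LinearMap.extendScalarsOfSurjective (S := S ⧸ J) Ideal.Quotient.mk_surjective s1
  have hret : ∀ w, pb (s2 w) = w := by
    intro w
    obtain ⟨z, rfl⟩ := hp w
    change pb (s1 (p z)) = p z
    rw [hs1]
    change pb (Submodule.Quotient.mk z - σ (g z)) = p z
    obtain ⟨c, hc⟩ := Submodule.Quotient.mk_surjective _ (g z)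
    rw [← hc]
    change pb (Submodule.Quotient.mk z - c • Submodule.Quotient.mk (b • y)) = p z
    rw [← Submodule.Quotient.mk_smul, ← Submodule.Quotient.mk_sub]
    change p (z - c • b • y) = p z
    rw [map_sub, map_smul, map_smul, hpy, smul_zero, smul_zero, sub_zero]
  have hR : Retract (ModuleCat.of (S ⧸ J) (I.map (Ideal.Quotient.mk J)))
      (ModuleCat.of (S ⧸ J) (I ⧸ (J • (⊤ : Submodule S I)))) :=
    { i := ModuleCat.ofHom s2
      r := ModuleCat.ofHom pb
      retract := ModuleCat.hom_ext (LinearMap.ext hret) }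
  have h5 := hR.hasProjectiveDimensionLT (n + 1)
  exact ⟨n + 1 + 1, (sesI_exact (I.map (Ideal.Quotient.mk J))).hasProjectiveDimensionLT_X₃ (n + 1)
    h5 (A8_free (S ⧸ J) (n + 1))⟩

end Pool.Agent.Lib.H44V
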