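import Pool.Agent.Lib.H44V.F1

/-!
# F2 (M): flat base change for the vanishing of `Ext` into an `A`-module

Induction on `i`, for all `Y`. Choose `0 → K → G → Y → 0` with `G` free
(`ModuleCat.shortExact_projectiveShortComplex` or `Y →₀ S`).
`i = 1`: it suffices to extend every `φ : K →ₗ[S] E` to `G`
(`Ext.contravariant_sequence_exact₃`: `Ext^1(G, E) = 0`, every class in `Ext^1(Y, E)` is
`extClass.comp (Ext.mk₀ φ)`, and it vanishes if `φ` extends: `Ext.mk₀ f` composed with the extension
class is zero). `φ` extends to `φ_A : A ⊗ K →ₗ[A] E` (`LinearMap.liftBaseChange`);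
`0 → A ⊗ K → A ⊗ G → A ⊗ Y → 0` is exact by flatness, and `Ext^1_A(A ⊗ Y, E) = 0` extends `φ_A` to
`A ⊗ G`; compose with `G → A ⊗ G`.
`i + 1`: `Ext^i_A(A ⊗ K, E) = 0` for all `i ≥ 1` (dimension shifting over `A`, `A ⊗ G` is free), so
by induction `Ext^i_S(K, E) = 0`, and `Ext^(i+1)_S(Y, E)` is the image of `Ext^i_S(K, E)`.
-/

set_option autoImplicit false
open CategoryTheory CategoryTheory.Abelian IsLocalRing TensorProduct
open Pool.Agent.Lib.Helper92

namespace Pool.Agent.Lib.H44V
universe u

lemma F2_proj {S : Type u} [CommRing S] {G : Type u} [AddCommGroup G] [Module S G]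
    [Module.Projective S G] (E : ModuleCat.{u} S) (i : ℕ) (hi : 1 ≤ i) :
    Subsingleton (Ext (ModuleCat.of S G) E i) := by
  have hproj : Projective (ModuleCat.of S G) :=
    (IsProjective.iff_projective (R := S) G).mp inferInstance
  have : HasProjectiveDimensionLT (ModuleCat.of S G) 1 :=
    projective_iff_hasProjectiveDimensionLT_one.mp hproj
  exact HasProjectiveDimensionLT.subsingleton (ModuleCat.of S G) 1 i hi _

/-- dimension shifting. -/
lemma F2_shift {S : Type u} [CommRing S] {K G Y : Type u}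
    [AddCommGroup K] [Module S K] [AddCommGroup G] [Module S G] [AddCommGroup Y] [Module S Y]
    [Module.Projective S G]
    (f : K →ₗ[S] G) (g : G →ₗ[S] Y) (hf : Function.Injective f) (hg : Function.Surjective g)
    (hfg : Function.Exact f g) (E : ModuleCat.{u} S) (i : ℕ) (hi : 1 ≤ i)
    (h : Subsingleton (Ext (ModuleCat.of S Y) E (1 + i))) :
    Subsingleton (Ext (ModuleCat.of S K) E i) := by
  have hS := K1_sc_exact f g hf hg hfg
  refine ⟨fun x y => ?_⟩
  rw [← sub_eq_zero]
  generalize x - y = v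
  have h0 : hS.extClass.comp v (rfl : 1 + i = 1 + i) = 0 :=
    @Subsingleton.elim _ h _ _
  obtain ⟨w, hw⟩ := Ext.contravariant_sequence_exact₁ hS _ v rfl h0
  have hw0 : w = 0 := @Subsingleton.elim _ (F2_proj (G := G) E i hi) w 0
  rw [← hw, hw0, Ext.comp_zero]
  rfl

lemma F2_base {S A : Type u} [CommRing S] [CommRing A] [Algebra S A] [Module.Flat S A]
    {K G Y : Type u} [AddCommGroup K] [Module S K] [AddCommGroup G] [Module S G]
    [AddCommGroup Y] [Module S Y]
    (f : K →ₗ[S] G) (g : G →ₗ[S] Y) (hf : Function.Injective f) (hg : Function.Surjective g)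
    (hfg : Function.Exact f g) :
    Function.Injective (f.baseChange A) ∧ Function.Surjective (g.baseChange A) ∧
      Function.Exact (f.baseChange A) (g.baseChange A) :=
  ⟨Module.Flat.lTensor_preserves_injective_linearMap f hf, LinearMap.lTensor_surjective A hg,
    lTensor_exact A hfg hg⟩

lemma F2_step {S A : Type u} [CommRing S] [CommRing A] [Algebra S A] [Module.Flat S A]
    (E : Type u) [AddCommGroup E] [Module S E] [Module A E] [IsScalarTower S A E]
    {K G Y : Type u} [AddCommGroup K] [Module S K] [AddCommGroup G] [Module S G]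
    [AddCommGroup Y] [Module S Y] [Module.Projective S G]
    (f : K →ₗ[S] G) (g : G →ₗ[S] Y) (hf : Function.Injective f) (hg : Function.Surjective g)
    (hfg : Function.Exact f g) (i : ℕ)
    (hY : Subsingleton (Ext (ModuleCat.of A (A ⊗[S] Y)) (ModuleCat.of A E) 1))
    (hK : 1 ≤ i → Subsingleton (Ext (ModuleCat.of S K) (ModuleCat.of S E) i)) :
    Subsingleton (Ext (ModuleCat.of S Y) (ModuleCat.of S E) (i + 1)) := by
  obtain ⟨hfA, hgA, hfgA⟩ := F2_base (A := A) f g hf hg hfg
  have hS := K1_sc_exact f g hf hg hfg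
  refine ⟨fun x y => ?_⟩
  rw [← sub_eq_zero]
  generalize x - y = v
  have h0 : (Ext.mk₀ (K1_sc f g hfg).g).comp v (zero_add _) = 0 :=
    @Subsingleton.elim _ (F2_proj (G := G) _ (i + 1) (by omega)) _ _
  obtain ⟨w, hw⟩ := Ext.contravariant_sequence_exact₃ hS _ v h0 (add_comm 1 i)
  rcases Nat.eq_zero_or_pos i with rfl | hi
  · obtain ⟨φ, rfl⟩ := (Ext.mk₀_bijective _ _).2 w
    let φ' : K →ₗ[S] E := φ.hom
    obtain ⟨ψ, hψ⟩ := F1_extend (f.baseChange A) (g.baseChange A) hfA hgA hfgA
      hY (LinearMap.liftBaseChange A φ')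
    let χ : G →ₗ[S] E := (ψ.restrictScalars S) ∘ₗ TensorProduct.mk S A G 1
    have hχ : χ ∘ₗ f = φ' := by
      ext z
      have h1 := LinearMap.congr_fun hψ ((1 : A) ⊗ₜ[S] z)
      rw [LinearMap.comp_apply, LinearMap.baseChange_tmul,
        LinearMap.liftBaseChange_tmul, one_smul] at h1
      exact h1
    let χ' : (K1_sc f g hfg).X₂ ⟶ ModuleCat.of S E := ModuleCat.ofHom χ
    have hφ : φ = (K1_sc f g hfg).f ≫ χ' := by
      ext z
      exact (LinearMap.congr_fun hχ z).symm
    rw [← hw, hφ, ← Ext.mk₀_comp_mk₀]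
    exact hS.extClass_comp_assoc _
  · have hw0 : w = 0 := @Subsingleton.elim _ (hK hi) _ _
    rw [← hw, hw0, Ext.comp_zero]
    rfl

theorem F2_flat (S A : Type u) [CommRing S] [CommRing A] [Algebra S A] [Module.Flat S A]
    (E : Type u) [AddCommGroup E] [Module S E] [Module A E] [IsScalarTower S A E] (i : ℕ) :
    ∀ (Y : Type u) [AddCommGroup Y] [Module S Y]
      (_ : ∀ j, 1 ≤ j → Subsingleton (Ext (ModuleCat.of A (A ⊗[S] Y)) (ModuleCat.of A E) j)),
      1 ≤ i → Subsingleton (Ext (ModuleCat.of S Y) (ModuleCat.of S E) i) := by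
  induction i with
  | zero => intro Y _ _ _ h; omega
  | succ i ih =>
    intro Y _ _ hY _
    let g : (Y →₀ S) →ₗ[S] Y := Finsupp.linearCombination S id
    have hg : Function.Surjective g := fun y => ⟨Finsupp.single y 1, by simp [g]⟩
    have hf : Function.Injective (LinearMap.ker g).subtype := Subtype.val_injective
    have hfg : Function.Exact (LinearMap.ker g).subtype g := LinearMap.exact_subtype_ker_map g
    refine F2_step (A := A) E (K := LinearMap.ker g) (G := Y →₀ S) (LinearMap.ker g).subtype g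
      hf hg hfg i (hY 1 le_rfl) ?_
    intro hi
    obtain ⟨hfA, hgA, hfgA⟩ := F2_base (A := A) (K := LinearMap.ker g) (G := Y →₀ S)
      (LinearMap.ker g).subtype g hf hg hfg
    refine ih (LinearMap.ker g) ?_ hi
    intro j hj
    exact F2_shift ((LinearMap.ker g).subtype.baseChange A) (g.baseChange A) hfA hgA hfgA _ j hj
      (hY (1 + j) (by omega))

end Pool.Agent.Lib.H44V
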