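import Pool.Agent.Lib.H44V.Defs

/-!
# A5 (S/M): if `depth S/I ≤ 1` and the normal module is free then some functional is onto

Suppose `h i y ∈ m (S/I)` for all `i, y`. By `Helper92.exists_max_regular` for the local ring
`R = S ⧸ I` and `d = 1` there are `k ≤ 1`, `x`, `c ∉ Jx x k` with `m_R c ⊆ Jx x k`. Lift `c` to
`w : S` and consider `h 0`.
`k = 0`: `c ≠ 0` and `m_R c = 0`, so `(w • h 0) y = 0` for all `y`, so `w ∈ I` by `hb.indep`
(coefficients `Pi.single 0 w`), contradiction.
`k = 1`: `x 0` is a nonzerodivisor on `R`; lift it to `t : S`. `(w • h 0) y ∈ t • (S/I)` for all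
`y`, so by `NBasis.coeff_mem` `w ∈ I ⊔ span {t}`, i.e. `c ∈ Jx x 1`, contradiction.
An element of the local ring `R = S ⧸ I` outside the maximal ideal is a unit, and then any lift
`a : S` is a unit of `S` (`S → S ⧸ I` is local, `I ≠ ⊤`).
-/

set_option autoImplicit false
open CategoryTheory CategoryTheory.Abelian IsLocalRing
open Pool.Agent.Lib.Helper92

namespace Pool.Agent.Lib.H44V
universe u
variable {S : Type u} [CommRing S]

theorem A5_unit [IsNoetherianRing S] [IsLocalRing S] {I : Ideal S} (hI : I ≠ ⊤)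
    (hd : ∀ rs : List (S ⧸ I), RingTheory.Sequence.IsRegular (S ⧸ I) rs → rs.length ≤ 1)
    {r : ℕ} {h : Fin (r + 1) → (I →ₗ[S] (S ⧸ I))} (hb : NBasis I h) :
    ∃ (i : Fin (r + 1)) (y : I) (a : S), IsUnit a ∧ h i y = Submodule.Quotient.mk a := by
  have hnt : Nontrivial (S ⧸ I) := Ideal.Quotient.nontrivial_iff.2 hI
  have hloc : IsLocalRing (S ⧸ I) :=
    IsLocalRing.of_surjective' (Ideal.Quotient.mk I) Ideal.Quotient.mk_surjective
  by_contra hcon
  push Not at hcon
  -- all values are in the maximal ideal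
  have hval : ∀ y : I, h 0 y ∈ maximalIdeal (S ⧸ I) := by
    intro y
    by_contra hy
    have hu : IsUnit (h 0 y) := by
      by_contra hnu
      exact hy hnu
    obtain ⟨a, ha⟩ := Submodule.Quotient.mk_surjective _ (h 0 y)
    refine hcon 0 y a ?_ ha.symm
    by_contra hna
    obtain ⟨v, hv⟩ := hu.exists_right_inv
    obtain ⟨b, hb'⟩ := Submodule.Quotient.mk_surjective _ v
    rw [← ha, ← hb'] at hv
    have h1 : Ideal.Quotient.mk I (a * b) = Ideal.Quotient.mk I 1 := by
      rw [map_mul, map_one]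
      exact hv
    rw [Ideal.Quotient.eq] at h1
    have h2 : a * b - 1 ∈ maximalIdeal S := IsLocalRing.le_maximalIdeal hI h1
    have h3 : a * b ∈ maximalIdeal S := Ideal.mul_mem_right _ _ hna
    have h4 : (1 : S) ∈ maximalIdeal S := by
      have := (maximalIdeal S).sub_mem h3 h2
      rwa [sub_sub_cancel] at this
    exact (Ideal.ne_top_iff_one _).1 (maximalIdeal.isMaximal S).ne_top h4
  obtain ⟨k, hk, x, hreg, c, hc, hcm⟩ := exists_max_regular (R := S ⧸ I) 1 hd
  obtain ⟨w, hw⟩ := Submodule.Quotient.mk_surjective _ c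
  have hmul : ∀ (s : S) (v : S ⧸ I), s • v = v * (Submodule.Quotient.mk s : S ⧸ I) := by
    intro s v
    obtain ⟨b, rfl⟩ := Submodule.Quotient.mk_surjective _ v
    rw [← Submodule.Quotient.mk_smul, smul_eq_mul, mul_comm]
    rfl
  have hsum : (∑ i, (Pi.single 0 w : Fin (r + 1) → S) i • h i) = w • h 0 := by
    rw [Finset.sum_eq_single 0]
    · rw [Pi.single_eq_same]
    · intro b _ hb0
      rw [Pi.single_eq_of_ne hb0, zero_smul]
    · intro h0
      exact absurd (Finset.mem_univ _) h0
  have hin : ∀ y : I, (w • h 0) y ∈ Jx x k := by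
    intro y
    rw [LinearMap.smul_apply, hmul, hw]
    exact hcm _ (hval y)
  interval_cases k
  · have h1 : w • h 0 = 0 := by
      apply LinearMap.ext
      intro y
      have := hin y
      exact (Submodule.mem_bot _).1 this
    rw [← hsum] at h1
    have h2 := hb.indep _ h1 0
    rw [Pi.single_eq_same] at h2
    apply hc
    rw [← hw]
    have h3 : (Submodule.Quotient.mk w : S ⧸ I) = 0 := (Submodule.Quotient.mk_eq_zero _).2 h2
    rw [h3]
    exact Ideal.zero_mem _
  · obtain ⟨t, ht⟩ := Submodule.Quotient.mk_surjective _ (x 0)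
    have hJ : Jx x 1 = Ideal.span {x 0} := by
      show (⊥ : Ideal (S ⧸ I)) ⊔ Ideal.span {x 0} = _
      rw [bot_sup_eq]
    have htreg : IsSMulRegular (S ⧸ I) t := by
      let e : ((S ⧸ I) ⧸ (⊥ : Ideal (S ⧸ I))) ≃ₗ[S ⧸ I] (S ⧸ I) :=
        Submodule.quotEquivOfEqBot (⊥ : Ideal (S ⧸ I)) rfl
      intro u v huv
      apply e.symm.injective
      apply hreg 0 (by omega)
      change x 0 • e.symm u = x 0 • e.symm v
      rw [← map_smul, ← map_smul]
      apply congrArg e.symm
      have h1 : t • u = t • v := huv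
      rw [hmul, hmul, ht] at h1
      rw [smul_eq_mul, smul_eq_mul, mul_comm, h1, mul_comm]
    have h1 := hb.coeff_mem (Pi.single 0 w) t htreg (fun y => by
      rw [hsum]
      have h2 := hin y
      rw [hJ, Ideal.mem_span_singleton] at h2
      obtain ⟨z, hz⟩ := h2
      refine ⟨z, ?_⟩
      rw [hz, hmul, ht, mul_comm]) 0
    rw [Pi.single_eq_same] at h1
    obtain ⟨b, hb'⟩ := mem_sup_span h1
    apply hc
    rw [hJ, Ideal.mem_span_singleton]
    refine ⟨Submodule.Quotient.mk b, ?_⟩
    rw [← hw, ← ht]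
    have h2 : Ideal.Quotient.mk I w = Ideal.Quotient.mk I (t * b) := by
      rw [Ideal.Quotient.eq]
      first | exact hb' | (rw [mul_comm]; exact hb')
    rw [map_mul] at h2
    exact h2

end Pool.Agent.Lib.H44V
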