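import Pool.Agent.Lib.H44V.Defs

/-!
# A9 (M): the normal module of `I/(y)` has a basis with one element less

Write `J = span {y}`, `S' = S ⧸ J`, `I' = I.map (mk J)`. For `j : Fin r` put
`k_j = h (i.succAbove j) - (u_j b) • h i` where `h (i.succAbove j) y = mk u_j` and `a b = 1`, so
`k_j y = 0`. Every `g : I →ₗ[S] S ⧸ I` with `g y = 0` induces `g' : I' →ₗ[S'] S' ⧸ I'` with
`g' ⟨mk z, _⟩ = mk (mk c)` whenever `g z = mk c` (`S' ⧸ I' ≃ S ⧸ I` since `J ≤ I`,
`DoubleQuot`/`Ideal.Quotient.factor`); conversely every `g'` comes from exactly one such `g`.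
Put `h' j = (k_j)'`. indep: `∑ a_j h'_j = 0` with `a_j = mk α_j` gives
`∑ α_j k_j = 0`, i.e. `∑ α_j h (i.succAbove j) - (∑ α_j u_j b) h i = 0`, so `α_j ∈ I`,
so `a_j ∈ I'`. span: `g'` comes from `g` with `g y = 0`; `g = ∑ β_l h_l` (`hb.span`);
`0 = g y = mk (∑_j β_(succAbove j) u_j + β_i a)`, so `β_i ≡ - b ∑ β_j u_j` modulo `I` and
`g = ∑_j β_(succAbove j) k_j` (elements of `I` kill `S ⧸ I`, `smul_quot_eq_zero`;
`Fin.sum_univ_succAbove`).
-/

set_option autoImplicit false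
open CategoryTheory CategoryTheory.Abelian IsLocalRing
open Pool.Agent.Lib.Helper92

namespace Pool.Agent.Lib.H44V
universe u
variable {S : Type u} [CommRing S]

/-- `I → I'`. -/
noncomputable def A9_q (I J : Ideal S) : I →ₗ[S] (I.map (Ideal.Quotient.mk J) : Ideal (S ⧸ J)) where
  toFun z := ⟨Ideal.Quotient.mk J z, Ideal.mem_map_of_mem _ z.2⟩
  map_add' z w := by
    apply Subtype.ext
    exact map_add (Ideal.Quotient.mk J) _ _
  map_smul' c z := by
    apply Subtype.ext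
    rfl

lemma A9_q_surj (I J : Ideal S) : Function.Surjective (A9_q I J) := by
  rintro ⟨z', hz'⟩
  obtain ⟨z, hz, rfl⟩ := (Ideal.mem_map_iff_of_surjective _ Ideal.Quotient.mk_surjective).1 hz'
  exact ⟨⟨z, hz⟩, rfl⟩

/-- `S/I → S'/I'`. -/
noncomputable def A9_θ (I J : Ideal S) :
    (S ⧸ I) →ₗ[S] ((S ⧸ J) ⧸ I.map (Ideal.Quotient.mk J)) :=
  Submodule.liftQ I
    (((Submodule.mkQ (I.map (Ideal.Quotient.mk J))).restrictScalars S) ∘ₗ (Submodule.mkQ J)) (by
    intro z hz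
    rw [LinearMap.mem_ker, LinearMap.comp_apply]
    exact (Submodule.Quotient.mk_eq_zero _).2 (Ideal.mem_map_of_mem (Ideal.Quotient.mk J) hz))

lemma A9_θ_mk (I J : Ideal S) (c : S) :
    A9_θ I J (Submodule.Quotient.mk c) =
      Submodule.Quotient.mk (Ideal.Quotient.mk J c) := rfl

lemma A9_θ_bij (I J : Ideal S) (hJ : J ≤ I) : Function.Bijective (A9_θ I J) := by
  constructor
  · rw [← LinearMap.ker_eq_bot, LinearMap.ker_eq_bot']
    intro c hc
    obtain ⟨c, rfl⟩ := Submodule.Quotient.mk_surjective _ c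
    rw [A9_θ_mk, Submodule.Quotient.mk_eq_zero] at hc
    obtain ⟨z, hz, hzc⟩ := (Ideal.mem_map_iff_of_surjective _ Ideal.Quotient.mk_surjective).1 hc
    rw [Submodule.Quotient.mk_eq_zero]
    have h1 : z - c ∈ J := by
      rw [← Ideal.Quotient.mk_eq_mk_iff_sub_mem]
      exact hzc
    have h2 : c = z - (z - c) := by ring
    rw [h2]
    exact I.sub_mem hz (hJ h1)
  · intro c
    obtain ⟨c, rfl⟩ := Submodule.Quotient.mk_surjective _ c
    obtain ⟨c, rfl⟩ := Ideal.Quotient.mk_surjective c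
    exact ⟨Submodule.Quotient.mk c, rfl⟩

/-- `S/I ≃ S'/I'`. -/
noncomputable def A9_e (I J : Ideal S) (hJ : J ≤ I) :
    (S ⧸ I) ≃ₗ[S] ((S ⧸ J) ⧸ I.map (Ideal.Quotient.mk J)) :=
  LinearEquiv.ofBijective (A9_θ I J) (A9_θ_bij I J hJ)

lemma A9_e_apply (I J : Ideal S) (hJ : J ≤ I) (c : S ⧸ I) : A9_e I J hJ c = A9_θ I J c := rfl

/-- pull back of a homomorphism. -/
noncomputable def A9_Ψ (I J : Ideal S) (hJ : J ≤ I)
    (g' : (I.map (Ideal.Quotient.mk J) : Ideal (S ⧸ J)) →ₗ[S ⧸ J]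
      ((S ⧸ J) ⧸ I.map (Ideal.Quotient.mk J))) : I →ₗ[S] (S ⧸ I) :=
  (A9_e I J hJ).symm.toLinearMap ∘ₗ (g'.restrictScalars S) ∘ₗ A9_q I J

lemma A9_Ψ_apply (I J : Ideal S) (hJ : J ≤ I)
    (g' : (I.map (Ideal.Quotient.mk J) : Ideal (S ⧸ J)) →ₗ[S ⧸ J]
      ((S ⧸ J) ⧸ I.map (Ideal.Quotient.mk J))) (z : I) :
    A9_θ I J (A9_Ψ I J hJ g' z) = g' (A9_q I J z) := by
  rw [← A9_e_apply I J hJ]
  exact (A9_e I J hJ).apply_symm_apply _

lemma A9_Ψ_inj (I J : Ideal S) (hJ : J ≤ I) : Function.Injective (A9_Ψ I J hJ) := by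
  intro g₁ g₂ h
  apply LinearMap.ext
  intro z'
  obtain ⟨z, rfl⟩ := A9_q_surj I J z'
  rw [← A9_Ψ_apply I J hJ, ← A9_Ψ_apply I J hJ, h]

lemma A9_Ψ_sum (I J : Ideal S) (hJ : J ≤ I) {r : ℕ} (α : Fin r → S)
    (g' : Fin r → ((I.map (Ideal.Quotient.mk J) : Ideal (S ⧸ J)) →ₗ[S ⧸ J]
      ((S ⧸ J) ⧸ I.map (Ideal.Quotient.mk J)))) :
    A9_Ψ I J hJ (∑ j, (Ideal.Quotient.mk J (α j)) • g' j) = ∑ j, α j • A9_Ψ I J hJ (g' j) := by
  apply LinearMap.ext
  intro z
  apply (A9_θ_bij I J hJ).1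
  rw [A9_Ψ_apply, LinearMap.sum_apply, LinearMap.sum_apply, map_sum]
  refine Finset.sum_congr rfl fun j _ => ?_
  rw [LinearMap.smul_apply, LinearMap.smul_apply, map_smul, A9_Ψ_apply]
  rfl

lemma A9_Ψ_surj {I : Ideal S} (y : I) (hJ : Ideal.span {(y : S)} ≤ I) (g : I →ₗ[S] (S ⧸ I))
    (hg : g y = 0) : ∃ g', A9_Ψ I (Ideal.span {(y : S)}) hJ g' = g := by
  set J : Ideal S := Ideal.span {(y : S)} with hJd
  have hker : LinearMap.ker (A9_q I J) ≤ LinearMap.ker ((A9_θ I J) ∘ₗ g) := by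
    intro z hz
    rw [LinearMap.mem_ker] at hz
    have h1 : Ideal.Quotient.mk J (z : S) = 0 := congrArg Subtype.val hz
    rw [Ideal.Quotient.eq_zero_iff_mem, hJd, Ideal.mem_span_singleton'] at h1
    obtain ⟨s, hs⟩ := h1
    have h2 : z = s • y := Subtype.ext hs.symm
    rw [LinearMap.mem_ker, LinearMap.comp_apply, h2, map_smul, hg, smul_zero, map_zero]
  let G : (I.map (Ideal.Quotient.mk J) : Ideal (S ⧸ J)) →ₗ[S]
      ((S ⧸ J) ⧸ I.map (Ideal.Quotient.mk J)) :=
    (Submodule.liftQ (LinearMap.ker (A9_q I J)) ((A9_θ I J) ∘ₗ g) hker) ∘ₗ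
      ((A9_q I J).quotKerEquivOfSurjective (A9_q_surj I J)).symm.toLinearMap
  have hG : ∀ z, G (A9_q I J z) = A9_θ I J (g z) := by
    intro z
    have h1 : ((A9_q I J).quotKerEquivOfSurjective (A9_q_surj I J)).symm (A9_q I J z) =
        Submodule.Quotient.mk z := by
      rw [LinearEquiv.symm_apply_eq]
      rfl
    show (Submodule.liftQ (LinearMap.ker (A9_q I J)) ((A9_θ I J) ∘ₗ g) hker)
      (((A9_q I J).quotKerEquivOfSurjective (A9_q_surj I J)).symm (A9_q I J z)) = _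
    rw [h1]
    rfl
  have hlin : ∀ (c : S ⧸ J) (z' : (I.map (Ideal.Quotient.mk J) : Ideal (S ⧸ J))),
      G (c • z') = c • G z' := by
    intro c z'
    obtain ⟨c, rfl⟩ := Ideal.Quotient.mk_surjective c
    exact G.map_smul c z'
  refine ⟨{ toFun := G, map_add' := G.map_add, map_smul' := hlin }, ?_⟩
  apply LinearMap.ext
  intro z
  apply (A9_θ_bij I J hJ).1
  rw [A9_Ψ_apply, ← hG z]
  rfl

theorem A9_nbasis {I : Ideal S} {r : ℕ} {h : Fin (r + 1) → (I →ₗ[S] (S ⧸ I))}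
    (hb : NBasis I h) (i : Fin (r + 1)) (y : I) (a : S) (ha : IsUnit a)
    (hy : h i y = Submodule.Quotient.mk a) :
    ∃ h' : Fin r → ((I.map (Ideal.Quotient.mk (Ideal.span {(y : S)})) :
        Ideal (S ⧸ Ideal.span {(y : S)})) →ₗ[S ⧸ Ideal.span {(y : S)}]
        ((S ⧸ Ideal.span {(y : S)}) ⧸ I.map (Ideal.Quotient.mk (Ideal.span {(y : S)})))),
      NBasis (I.map (Ideal.Quotient.mk (Ideal.span {(y : S)}))) h' := by
  have hJ : Ideal.span {(y : S)} ≤ I := by
    rw [Ideal.span_singleton_le_iff_mem]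
    exact y.2
  obtain ⟨b, hab⟩ := ha.exists_right_inv
  have hu : ∀ j : Fin r, ∃ u : S, h (i.succAbove j) y = Submodule.Quotient.mk u := fun j =>
    (Submodule.Quotient.mk_surjective _ _).imp fun _ h => h.symm
  choose u hu using hu
  have hk : ∀ j : Fin r, (h (i.succAbove j) - (u j * b) • h i) y = 0 := by
    intro j
    rw [LinearMap.sub_apply, LinearMap.smul_apply, hu, hy, ← Submodule.Quotient.mk_smul,
      ← Submodule.Quotient.mk_sub, Submodule.Quotient.mk_eq_zero, smul_eq_mul]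
    have h1 : u j - u j * b * a = 0 := by
      rw [mul_assoc, mul_comm b a, hab, mul_one, sub_self]
    rw [h1]
    exact I.zero_mem
  choose h' hh' using fun j : Fin r => A9_Ψ_surj y hJ _ (hk j)
  refine ⟨h', ⟨?_, ?_⟩⟩
  · intro A hA
    choose α hα using fun j => Ideal.Quotient.mk_surjective (A j)
    have hA' : (∑ j, (Ideal.Quotient.mk (Ideal.span {(y : S)}) (α j)) • h' j) = 0 := by
      rw [← hA]
      exact Finset.sum_congr rfl fun j _ => by rw [hα j]
    have h1 := congrArg (A9_Ψ I _ hJ) hA'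
    rw [A9_Ψ_sum] at h1
    have h0 : A9_Ψ I _ hJ (0 : (I.map (Ideal.Quotient.mk (Ideal.span {(y : S)})) :
        Ideal (S ⧸ Ideal.span {(y : S)})) →ₗ[S ⧸ Ideal.span {(y : S)}]
        ((S ⧸ Ideal.span {(y : S)}) ⧸ I.map (Ideal.Quotient.mk (Ideal.span {(y : S)})))) = 0 := by
      apply LinearMap.ext
      intro z
      apply (A9_θ_bij I _ hJ).1
      rw [A9_Ψ_apply, LinearMap.zero_apply, LinearMap.zero_apply, map_zero]
    rw [h0] at h1
    have h2 : ∑ l, (i.insertNth (-∑ j, α j * (u j * b)) α : Fin (r + 1) → S) l • h l = 0 := by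
      rw [Fin.sum_univ_succAbove _ i, Fin.insertNth_apply_same]
      simp only [Fin.insertNth_apply_succAbove]
      have hneg : ∀ s : S, (-s) • h i = -(s • h i) := fun s => neg_smul s (h i)
      rw [← h1, hneg, Finset.sum_smul, ← Finset.sum_neg_distrib, ← Finset.sum_add_distrib]
      refine Finset.sum_congr rfl fun j _ => ?_
      rw [hh', smul_sub, smul_smul]
      abel
    intro j
    have h3 := hb.indep _ h2 (i.succAbove j)
    rw [Fin.insertNth_apply_succAbove] at h3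
    rw [← hα j]
    exact Ideal.mem_map_of_mem _ h3
  · intro g'
    obtain ⟨β, hβ⟩ := hb.span (A9_Ψ I _ hJ g')
    refine ⟨fun j => Ideal.Quotient.mk _ (β (i.succAbove j)), ?_⟩
    apply A9_Ψ_inj I _ hJ
    rw [A9_Ψ_sum, hβ]
    have h1 : A9_Ψ I _ hJ g' y = 0 := by
      apply (A9_θ_bij I _ hJ).1
      rw [A9_Ψ_apply, map_zero]
      have h2 : A9_q I (Ideal.span {(y : S)}) y = 0 := by
        apply Subtype.ext
        exact Ideal.Quotient.eq_zero_iff_mem.2 (Ideal.mem_span_singleton_self _)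
      rw [h2, map_zero]
    have h3 : β i * a + ∑ j, β (i.succAbove j) * u j ∈ I := by
      rw [← Submodule.Quotient.mk_eq_zero, ← h1, hβ, LinearMap.sum_apply,
        Fin.sum_univ_succAbove _ i, LinearMap.smul_apply, hy, Submodule.Quotient.mk_add, qmk_sum]
      congr 1
      refine Finset.sum_congr rfl fun j _ => ?_
      rw [LinearMap.smul_apply, hu]
      rfl
    have h4 : β i + ∑ j, β (i.succAbove j) * (u j * b) ∈ I := by
      have h5 : β i + ∑ j, β (i.succAbove j) * (u j * b) =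
          b * (β i * a + ∑ j, β (i.succAbove j) * u j) := by
        rw [mul_add, Finset.mul_sum]
        congr 1
        · rw [mul_comm (β i) a, ← mul_assoc, mul_comm b a, hab, one_mul]
        · refine Finset.sum_congr rfl fun j _ => ?_
          ring
      rw [h5]
      exact I.mul_mem_left _ h3
    have h6 : (β i + ∑ j, β (i.succAbove j) * (u j * b)) • h i = 0 := by
      apply LinearMap.ext
      intro z
      rw [LinearMap.smul_apply, LinearMap.zero_apply]
      exact smul_quot_eq_zero h4 _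
    rw [Fin.sum_univ_succAbove _ i]
    have h7 : β i • h i = -∑ j, (β (i.succAbove j) * (u j * b)) • h i := by
      rw [add_smul, Finset.sum_smul] at h6
      exact eq_neg_of_add_eq_zero_left h6
    rw [h7, ← Finset.sum_neg_distrib, ← Finset.sum_add_distrib]
    refine Finset.sum_congr rfl fun j _ => ?_
    rw [hh', smul_sub, smul_smul]
    abel

end Pool.Agent.Lib.H44V
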