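import Pool.Agent.Lib.H44V.A4
import Pool.Agent.Lib.H44V.A5
import Pool.Agent.Lib.H44V.A6
import Pool.Agent.Lib.H44V.A8
import Pool.Agent.Lib.H44V.A9
import Pool.Agent.Lib.H44V.A10

/-!
# A11 (M): the theorem for `depth S/I ≤ 1`

`A11_depth`: transport along the ring isomorphism
`(S ⧸ span {y}) ⧸ I.map mk ≃+* S ⧸ I` (`DoubleQuot.quotQuotEquivQuotOfLE`, `span {y} ≤ I`):
regular sequences correspond (`RingTheory.Sequence.IsRegular` and `AddEquiv.isRegular_congr`,
`List.map`, `List.forall₂`).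

`A11_depthOne`: induction on `r`, for all `S`. `r = 0`: every `g : I →ₗ S ⧸ I` is an empty sum, so
`I →ₗ[S] S ⧸ I` is a subsingleton and by `IsSMulRegular.subsingleton_linearMap_iff` there is
`a ∈ ann I` which is regular on `S ⧸ I`. If `I ≠ ⊥` take `z` from `A4_nzd`: `a z = 0` gives `a = 0`,
which is not regular on the nontrivial module `S ⧸ I`. So `I = ⊥ = Jx _ 0`.
`r + 1`: `I ≠ ⊥` (else `h 0 = 0` and `hb.indep` gives `1 ∈ I`). `A5_unit`, `A4_nzd`, `A6`, `A8`,
`A9`, the induction hypothesis for `S ⧸ span {y}` (local, Noetherian; `I.map mk ≠ ⊤`) and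
`A10_lift`.
-/

set_option autoImplicit false
open CategoryTheory CategoryTheory.Abelian IsLocalRing
open Pool.Agent.Lib.Helper92

namespace Pool.Agent.Lib.H44V
universe u
variable {S : Type u} [CommRing S]

theorem A11_depth {I : Ideal S} (y : S) (hyI : y ∈ I) (d : ℕ)
    (hd : ∀ rs : List (S ⧸ I), RingTheory.Sequence.IsRegular (S ⧸ I) rs → rs.length ≤ d) :
    ∀ rs : List ((S ⧸ Ideal.span {y}) ⧸ I.map (Ideal.Quotient.mk (Ideal.span {y}))),
      RingTheory.Sequence.IsRegular
        ((S ⧸ Ideal.span {y}) ⧸ I.map (Ideal.Quotient.mk (Ideal.span {y}))) rs →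
      rs.length ≤ d := by
  intro rs hrs
  have hle : Ideal.span {y} ≤ I := (Ideal.span_singleton_le_iff_mem I).2 hyI
  let e : ((S ⧸ Ideal.span {y}) ⧸ I.map (Ideal.Quotient.mk (Ideal.span {y}))) ≃+* (S ⧸ I) :=
    DoubleQuot.quotQuotEquivQuotOfLE hle
  have h1 : RingTheory.Sequence.IsRegular (S ⧸ I) (rs.map e) := by
    refine (AddEquiv.isRegular_congr (e := e.toAddEquiv) ?_).1 hrs
    refine List.forall₂_map_right_iff.mpr (List.forall₂_same.mpr fun r _ x => ?_)
    show e (r * x) = e r * e x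
    exact map_mul e r x
  have h2 := hd (rs.map e) h1
  rwa [List.length_map] at h2

theorem A11_depthOne (r : ℕ) : ∀ (S : Type u) [CommRing S] [IsNoetherianRing S] [IsLocalRing S]
    (I : Ideal S) (_ : I ≠ ⊤) (n : ℕ) (_ : HasProjectiveDimensionLT (Qt I) n)
    (_ : ∀ rs : List (S ⧸ I), RingTheory.Sequence.IsRegular (S ⧸ I) rs → rs.length ≤ 1)
    (h : Fin r → (I →ₗ[S] (S ⧸ I))) (_ : NBasis I h), CI I r := by
  induction r with
  | zero =>
    intro S _ _ _ I hI n hpd _ h hb
    have hsub : Subsingleton (I →ₗ[S] (S ⧸ I)) := by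
      refine ⟨fun g g' => ?_⟩
      obtain ⟨a, ha⟩ := hb.span g
      obtain ⟨a', ha'⟩ := hb.span g'
      rw [ha, ha', Finset.univ_eq_empty, Finset.sum_empty, Finset.sum_empty]
    obtain ⟨a, ha, hreg⟩ := IsSMulRegular.subsingleton_linearMap_iff.1 hsub
    have hI0 : I = ⊥ := by
      by_contra h0
      obtain ⟨z, hzI, hz⟩ := A4_nzd h0 n hpd
      have h1 : a • (⟨z, hzI⟩ : I) = 0 := Module.mem_annihilator.1 ha _
      have h2 : a * z = 0 := congrArg Subtype.val h1
      have h3 : a = 0 := by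
        apply hz
        show z • a = z • (0 : S)
        rw [smul_eq_mul, smul_zero, mul_comm]
        exact h2
      rw [h3] at hreg
      have h4 : Nontrivial (S ⧸ I) := Ideal.Quotient.nontrivial_iff.mpr hI
      exact one_ne_zero (hreg (show (0 : S) • (1 : S ⧸ I) = (0 : S) • (0 : S ⧸ I) by
        rw [zero_smul, zero_smul]))
    exact ⟨fun _ => 0, fun j hj => absurd hj (Nat.not_lt_zero j), hI0.symm⟩
  | succ r ih =>
    intro S _ _ _ I hI n hpd hd h hb
    have h0 : I ≠ ⊥ := by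
      intro h0
      have h1 : (∑ i, (1 : S) • h i) = 0 := by
        refine LinearMap.ext fun z => ?_
        have h2 : z = 0 := by
          apply Subtype.ext
          exact (Submodule.mem_bot S).1 (h0.le z.2)
        rw [h2, map_zero, map_zero]
      have h3 := hb.indep (fun _ => 1) h1 0
      exact hI ((Ideal.eq_top_iff_one I).2 h3)
    obtain ⟨z, hzI, hz⟩ := A4_nzd h0 n hpd
    obtain ⟨i, y₀, a, ha, hy₀⟩ := A5_unit hI hd hb
    obtain ⟨y, hyreg, hy⟩ := A6_regular_unit hI z hzI hz (h i) y₀ a hy₀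
    obtain ⟨n', hn'⟩ := A8_pd_quot y hyreg (h i) a ha hy n hpd
    obtain ⟨h', hb'⟩ := A9_nbasis hb i y a ha hy
    have hle : Ideal.span {(y : S)} ≤ I := (Ideal.span_singleton_le_iff_mem I).2 y.2
    have hne : Ideal.span {(y : S)} ≠ ⊤ := fun h1 => hI (top_le_iff.1 (h1 ▸ hle))
    have hnt : Nontrivial (S ⧸ Ideal.span {(y : S)}) := Ideal.Quotient.nontrivial_iff.mpr hne
    have hloc : IsLocalRing (S ⧸ Ideal.span {(y : S)}) :=
      IsLocalRing.of_surjective' (Ideal.Quotient.mk (Ideal.span {(y : S)}))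
        Ideal.Quotient.mk_surjective
    have hI' : I.map (Ideal.Quotient.mk (Ideal.span {(y : S)})) ≠ ⊤ := by
      intro h1
      have h2 : Nontrivial (S ⧸ I) := Ideal.Quotient.nontrivial_iff.mpr hI
      have h3 : Nontrivial ((S ⧸ Ideal.span {(y : S)}) ⧸
          I.map (Ideal.Quotient.mk (Ideal.span {(y : S)}))) :=
        (DoubleQuot.quotQuotEquivQuotOfLE hle).toEquiv.nontrivial
      exact (Ideal.Quotient.nontrivial_iff.1 h3) h1
    have h4 := ih (S ⧸ Ideal.span {(y : S)}) (I.map (Ideal.Quotient.mk (Ideal.span {(y : S)})))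
      hI' n' hn' (A11_depth (y : S) y.2 1 hd) h' hb'
    exact A10_lift (y : S) y.2 hyreg h4

end Pool.Agent.Lib.H44V
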