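import Pool.Agent.Lib.H44V.K1

/-!
# A7 (M): projective dimension modulo an element which is regular on `S` and on `Y`

Write `J = span {y}`. `Y ⧸ J • ⊤` is a module over `S ⧸ J` (Mathlib instance for
`M ⧸ I • ⊤`). Induction on `n`, for all `Y`. `n = 0`: `Y = 0`. `n = 1`: `Y` is projective over `S`,
so `Y ⧸ J • ⊤ ≃ (S ⧸ J) ⊗ Y` is projective over `S ⧸ J` (or: `Y` is a direct summand of a
free module). `n + 2`: choose a surjection `f : G → Y` with `G` free (`G = (Y →₀ S)`), kernel `K`
with `HasProjectiveDimensionLT K (n + 1)`. `y` is regular on `G` (coefficientwise) and so on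
`K`. `0 → K/yK → G/yG → Y/yY → 0` is exact: if `κ ∈ K`, `κ = y g`, then `y f(g) = 0`, so
`f(g) = 0`, `g ∈ K`. Use `hasProjectiveDimensionLT_X₃_iff` over `S ⧸ J`, `G/yG` being projective.
-/

set_option autoImplicit false
open CategoryTheory CategoryTheory.Abelian IsLocalRing
open Pool.Agent.Lib.Helper92

namespace Pool.Agent.Lib.H44V
universe u
variable {S : Type u} [CommRing S]

lemma A7_mem (y : S) {M : Type u} [AddCommGroup M] [Module S M] (m : M) :
    m ∈ (Ideal.span {y} • (⊤ : Submodule S M)) ↔ ∃ m', y • m' = m := by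
  rw [Submodule.ideal_span_singleton_smul, Submodule.mem_smul_pointwise_iff_exists]
  simp

/-- the induced map modulo `J`. -/
noncomputable def A7_map (J : Ideal S) {M N : Type u} [AddCommGroup M] [Module S M]
    [AddCommGroup N] [Module S N] (f : M →ₗ[S] N) :
    (M ⧸ (J • (⊤ : Submodule S M))) →ₗ[S ⧸ J] (N ⧸ (J • (⊤ : Submodule S N))) :=
  LinearMap.extendScalarsOfSurjective (S := S ⧸ J) Ideal.Quotient.mk_surjective
    (Submodule.mapQ _ _ f (Submodule.smul_top_le_comap_smul_top J f))

lemma A7_map_mk (J : Ideal S) {M N : Type u} [AddCommGroup M] [Module S M]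
    [AddCommGroup N] [Module S N] (f : M →ₗ[S] N) (m : M) :
    A7_map J f (Submodule.Quotient.mk m) = Submodule.Quotient.mk (f m) := rfl

lemma A7_exact (y : S) {K G Y : Type u} [AddCommGroup K] [Module S K] [AddCommGroup G] [Module S G]
    [AddCommGroup Y] [Module S Y] (f : K →ₗ[S] G) (g : G →ₗ[S] Y) (hf : Function.Injective f)
    (hg : Function.Surjective g) (hfg : Function.Exact f g) (hyY : IsSMulRegular Y y) :
    Function.Injective (A7_map (Ideal.span {y}) f) ∧
      Function.Surjective (A7_map (Ideal.span {y}) g) ∧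
      Function.Exact (A7_map (Ideal.span {y}) f) (A7_map (Ideal.span {y}) g) := by
  refine ⟨?_, ?_, ?_⟩
  · rw [injective_iff_map_eq_zero]
    intro k hk
    obtain ⟨k, rfl⟩ := Submodule.Quotient.mk_surjective _ k
    rw [A7_map_mk, Submodule.Quotient.mk_eq_zero, A7_mem] at hk
    obtain ⟨m, hm⟩ := hk
    have h1 : y • g m = y • (0 : Y) := by
      rw [← map_smul, hm, smul_zero]
      exact (hfg (f k)).mpr ⟨k, rfl⟩
    obtain ⟨k', hk'⟩ := (hfg m).mp (hyY h1)
    rw [Submodule.Quotient.mk_eq_zero, A7_mem]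
    refine ⟨k', hf ?_⟩
    rw [map_smul, hk', hm]
  · intro v
    obtain ⟨v, rfl⟩ := Submodule.Quotient.mk_surjective _ v
    obtain ⟨w, rfl⟩ := hg v
    exact ⟨Submodule.Quotient.mk w, rfl⟩
  · intro v
    constructor
    · intro hv
      obtain ⟨v, rfl⟩ := Submodule.Quotient.mk_surjective _ v
      rw [A7_map_mk, Submodule.Quotient.mk_eq_zero, A7_mem] at hv
      obtain ⟨m, hm⟩ := hv
      obtain ⟨m', rfl⟩ := hg m
      obtain ⟨k, hk⟩ := (hfg (v - y • m')).mp (by rw [map_sub, map_smul, hm, sub_self])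
      refine ⟨Submodule.Quotient.mk k, ?_⟩
      rw [A7_map_mk, hk, Submodule.Quotient.eq, A7_mem]
      exact ⟨-m', by rw [smul_neg]; abel⟩
    · rintro ⟨w, rfl⟩
      obtain ⟨w, rfl⟩ := Submodule.Quotient.mk_surjective _ w
      rw [A7_map_mk, A7_map_mk, (hfg (f w)).mpr ⟨w, rfl⟩]
      rfl

lemma A7_proj (J : Ideal S) (Y : Type u) [AddCommGroup Y]
    [Module S Y] [Module.Projective S Y] :
    Projective (ModuleCat.of (S ⧸ J) (Y ⧸ (J • (⊤ : Submodule S Y)))) := by
  let e : (TensorProduct S (S ⧸ J) Y) ≃ₗ[S ⧸ J] (Y ⧸ (J • (⊤ : Submodule S Y))) :=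
    LinearEquiv.extendScalarsOfSurjective Ideal.Quotient.mk_surjective
      (TensorProduct.quotTensorEquivQuotSMul Y J)
  have : Module.Projective (S ⧸ J) (Y ⧸ (J • (⊤ : Submodule S Y))) :=
    Module.Projective.of_equiv e
  exact (IsProjective.iff_projective (R := S ⧸ J) _).mp this

theorem A7_pd_mod (y : S) (hy : IsSMulRegular S y) (n : ℕ) (Y : Type u) [AddCommGroup Y]
    [Module S Y] (hyY : IsSMulRegular Y y) (h : HasProjectiveDimensionLT (ModuleCat.of S Y) n) :
    HasProjectiveDimensionLT (ModuleCat.of (S ⧸ Ideal.span {y})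
      (Y ⧸ (Ideal.span {y} • (⊤ : Submodule S Y)))) n := by
  induction n using Nat.strong_induction_on generalizing Y with
  | _ n ih =>
  rcases n with _ | _ | n
  · rw [hasProjectiveDimensionLT_zero_iff_isZero, ModuleCat.isZero_iff_subsingleton] at h ⊢
    have : Subsingleton Y := h
    exact (Submodule.Quotient.mk_surjective _).subsingleton
  · rw [zero_add, ← projective_iff_hasProjectiveDimensionLT_one] at h ⊢
    have : Module.Projective S Y := (IsProjective.iff_projective (R := S) Y).mpr h
    exact A7_proj _ Y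
  · let f : (Y →₀ S) →ₗ[S] Y := Finsupp.linearCombination S id
    have hf : Function.Surjective f := fun y => ⟨Finsupp.single y 1, by simp [f]⟩
    have hex := LinearMap.shortExact_shortComplexKer hf
    have hproj : Projective (ModuleCat.of S (Y →₀ S)) :=
      (IsProjective.iff_projective (R := S) _).mp inferInstance
    have hK : HasProjectiveDimensionLT (ModuleCat.of S (LinearMap.ker f)) (n + 1) :=
      (hex.hasProjectiveDimensionLT_X₃_iff n hproj).mp h
    have hyG : IsSMulRegular (Y →₀ S) y := by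
      intro a b hab
      ext i
      exact hy (DFunLike.congr_fun hab i)
    have hyK : IsSMulRegular (LinearMap.ker f) y := by
      intro a b hab
      exact Subtype.ext (hyG (congrArg Subtype.val hab))
    have h1 := ih (n + 1) (by omega) (LinearMap.ker f) hyK hK
    obtain ⟨e1, e2, e3⟩ := A7_exact y (K := LinearMap.ker f) (G := Y →₀ S)
      (LinearMap.ker f).subtype f Subtype.val_injective hf
      (LinearMap.exact_subtype_ker_map f) hyY
    have h2 := K1_sc_exact _ _ e1 e2 e3
    exact (h2.hasProjectiveDimensionLT_X₃_iff n (A7_proj _ (Y →₀ S))).mpr h1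

end Pool.Agent.Lib.H44V
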