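import Pool.Agent.Lib.H44V.Defs

/-!
# D3 (S/M): elements of `S/I` supported at the maximal ideal vanish when `depth S/I ≥ 1`

Let `N = {s | s c ∈ I}` (`Submodule.colon`, or `I.colon (span {c})`). By hypothesis no prime
`P ≠ m` contains `N`. Suppose `c ∉ I`, so `N` is proper; its only prime is `m`, so
`m = radical N` (`Ideal.radical_eq_sInf`) and `m^t ≤ N` for some `t` (Noetherian). Take the least
`t` with `m^t c ⊆ I`; `t ≥ 1`, and choose `w ∈ m^(t-1)` with `w c ∉ I`; then `m w c ⊆ I`, and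
`1 ↦ mk (w c)` is a nonzero map `S ⧸ m → S ⧸ I`. But `Ext^0(k, S ⧸ I) = Hom` is zero
(`Ext.addEquiv₀`, `ModuleCat.homAddEquiv`).
-/

set_option autoImplicit false
open CategoryTheory CategoryTheory.Abelian IsLocalRing
open Pool.Agent.Lib.Helper92

namespace Pool.Agent.Lib.H44V
universe u
variable {S : Type u} [CommRing S]

theorem D3_socle [IsNoetherianRing S] [IsLocalRing S] {I : Ideal S} (hI : Dp (Qt I) 1) (c : S)
    (hc : ∀ (P : Ideal S) [P.IsPrime], P ≠ maximalIdeal S → ∃ s, s ∉ P ∧ s * c ∈ I) :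
    c ∈ I := by
  classical
  by_contra hcI
  let N : Ideal S := LinearMap.ker (I.mkQ ∘ₗ LinearMap.toSpanSingleton S S c)
  have hN : ∀ s, s ∈ N ↔ s * c ∈ I := by
    intro s
    rw [LinearMap.mem_ker, LinearMap.comp_apply, Submodule.mkQ_apply,
      Submodule.Quotient.mk_eq_zero, LinearMap.toSpanSingleton_apply, smul_eq_mul]
  have hrad : maximalIdeal S ≤ N.radical := by
    rw [Ideal.radical_eq_sInf]
    refine le_sInf ?_
    rintro P ⟨hNP, hP⟩
    by_contra hne
    have hne' : P ≠ maximalIdeal S := fun h => hne h.ge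
    obtain ⟨s, hs, hsc⟩ := hc P hne'
    exact hs (hNP ((hN s).mpr hsc))
  obtain ⟨t0, ht0⟩ := Ideal.exists_pow_le_of_le_radical_of_fg hrad (IsNoetherian.noetherian _)
  have hex : ∃ t, (maximalIdeal S) ^ t ≤ N := ⟨t0, ht0⟩
  obtain ⟨t, ht, hmin⟩ : ∃ t, (maximalIdeal S) ^ (t + 1) ≤ N ∧ ¬ (maximalIdeal S) ^ t ≤ N := by
    have h1 := Nat.find_spec hex
    rcases h0 : Nat.find hex with _ | t
    · rw [h0, pow_zero, Ideal.one_eq_top, top_le_iff] at h1
      exfalso
      apply hcI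
      have : (1 : S) ∈ N := h1 ▸ Submodule.mem_top
      simpa using (hN 1).mp this
    · refine ⟨t, h0 ▸ h1, Nat.find_min hex (by omega)⟩
  obtain ⟨w, hw, hwN⟩ := Set.not_subset.mp hmin
  have hwc : w * c ∉ I := fun h => hwN ((hN w).mpr h)
  have hker : maximalIdeal S ≤
      LinearMap.ker (LinearMap.toSpanSingleton S (S ⧸ I) (Submodule.Quotient.mk (w * c))) := by
    intro a ha
    rw [LinearMap.mem_ker, LinearMap.toSpanSingleton_apply, ← Submodule.Quotient.mk_smul,
      Submodule.Quotient.mk_eq_zero, smul_eq_mul, ← mul_assoc]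
    apply (hN _).mp
    apply ht
    rw [pow_succ']
    exact Ideal.mul_mem_mul ha hw
  let φ : (S ⧸ maximalIdeal S) →ₗ[S] (S ⧸ I) := Submodule.liftQ _ _ hker
  have h0 : Subsingleton (Ext (Qt (maximalIdeal S)) (Qt I) 0) := hI 0 one_pos
  have h1 : Ext.mk₀ (ModuleCat.ofHom φ) = Ext.mk₀ (0 : Qt (maximalIdeal S) ⟶ Qt I) :=
    @Subsingleton.elim _ h0 _ _
  have h2 := (Ext.mk₀_bijective _ _).1 h1
  have h3 : φ (Submodule.Quotient.mk 1) = 0 := by
    have := congrArg (fun f => f.hom (Submodule.Quotient.mk 1)) h2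
    exact this
  have h4 : φ (Submodule.Quotient.mk 1) = Submodule.Quotient.mk (w * c) := by
    change (LinearMap.toSpanSingleton S (S ⧸ I) (Submodule.Quotient.mk (w * c))) 1 = _
    rw [LinearMap.toSpanSingleton_apply, one_smul]
  rw [h4, Submodule.Quotient.mk_eq_zero] at h3
  exact hwc h3

end Pool.Agent.Lib.H44V
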