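import Pool.Agent.Lib.Helper92.DepthTwo

/-!
Definitions for H44V (MP_fa772a_ag): the normal module, depth at most one and characteristic `p`.
-/

set_option autoImplicit false
open CategoryTheory CategoryTheory.Abelian IsLocalRing
open Pool.Agent.Lib.Helper92

namespace Pool.Agent.Lib.H44V
universe u

/-- `Ext^j(k, Y) = 0` for all `j < d` (`k` the residue field): `depth Y ≥ d`. -/
def Dp {S : Type u} [CommRing S] [IsLocalRing S] (Y : ModuleCat.{u} S) (d : ℕ) : Prop :=
  ∀ j < d, Subsingleton (Ext (Qt (maximalIdeal S)) Y j)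

/-- `I` is generated by an `S`-regular sequence of length `r`. -/
def CI {S : Type u} [CommRing S] (I : Ideal S) (r : ℕ) : Prop :=
  ∃ x : ℕ → S, (∀ j < r, IsSMulRegular (S ⧸ Jx x j) (x j)) ∧ Jx x r = I

/-- the length of `Ext^n(Y, S)`. -/
noncomputable def lam {S : Type u} [CommRing S] (n : ℕ) (Y : ModuleCat.{u} S) : ℕ∞ :=
  Module.length S (Ext Y (ModuleCat.of S S) n)

/-- the Frobenius power `I^[p^e]` of an ideal. -/
def fpow {S : Type u} [CommRing S] (p : ℕ) [ExpChar S p] (e : ℕ) (I : Ideal S) : Ideal S :=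
  I.map (iterateFrobenius S p e)

/-- the linear form `∑ c_{ik} X_k`. -/
noncomputable def lf {S : Type u} [CommRing S] {m r : ℕ} (c : Fin m → Fin r → S) (i : Fin m) :
    MvPolynomial (Fin r) S := ∑ k, MvPolynomial.C (c i k) * MvPolynomial.X k

/-- the substitution `Y_i ↦ ∑ c_{ik} X_k`. -/
noncomputable def bMap {S : Type u} [CommRing S] {m r : ℕ} (c : Fin m → Fin r → S) :
    MvPolynomial (Fin m) S →ₐ[S] MvPolynomial (Fin r) S := MvPolynomial.aeval (lf c)

/-- all coefficients of `H` at monomials with exponents `< q` lie in `I`; i.e. `H` lies in the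
ideal generated by `I` and the `X_k^q`. -/
def Tr {S : Type u} [CommRing S] {r : ℕ} (I : Ideal S) (q : ℕ) (H : MvPolynomial (Fin r) S) :
    Prop := ∀ β : Fin r →₀ ℕ, (∀ k, β k < q) → MvPolynomial.coeff β H ∈ I

/-- the exponents of degree `j` with all entries `< q`. -/
abbrev TT (r q j : ℕ) : Type := {β : Fin r → Fin q // ∑ k, (β k : ℕ) = j}

/-- the monomial attached to `β`. -/
noncomputable def mon {r q j : ℕ} (β : TT r q j) : Fin r →₀ ℕ :=
  Finsupp.equivFunOnFinite.symm fun k => ((β.1 k : Fin q) : ℕ)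

/-- `S` viewed as an algebra over itself through `iterateFrobenius S p e`. -/
def Fr (S : Type u) (_p _e : ℕ) : Type u := S

noncomputable instance (S : Type u) [CommRing S] (p e : ℕ) : CommRing (Fr S p e) :=
  inferInstanceAs (CommRing S)

instance (S : Type u) [CommRing S] [IsNoetherianRing S] (p e : ℕ) : IsNoetherianRing (Fr S p e) :=
  inferInstanceAs (IsNoetherianRing S)

instance (S : Type u) [CommRing S] [IsLocalRing S] (p e : ℕ) : IsLocalRing (Fr S p e) :=
  inferInstanceAs (IsLocalRing S)

noncomputable instance (S : Type u) [CommRing S] (p e : ℕ) [ExpChar S p] : Algebra S (Fr S p e) :=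
  (iterateFrobenius S p e : S →+* S).toAlgebra

lemma Fr_algebraMap (S : Type u) [CommRing S] (p e : ℕ) [ExpChar S p] (s : S) :
    algebraMap S (Fr S p e) s = (s ^ p ^ e : S) := rfl

/-- the standing data: a basis `h` of the normal module, generators `g` of `I`, lifts `c` of the
values, and `I` is locally generated by a regular sequence of length `r` away from the maximal
ideal. -/
structure Glob (S : Type u) [CommRing S] [IsLocalRing S] (I : Ideal S) (r m : ℕ) where
  h : Fin r → (I →ₗ[S] (S ⧸ I))
  hb : NBasis I h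
  g : Fin m → S
  hgI : ∀ i, g i ∈ I
  hg : Ideal.span (Set.range g) = I
  c : Fin m → Fin r → S
  hc : ∀ i k, h k ⟨g i, hgI i⟩ = Submodule.Quotient.mk (c i k)
  hI : I ≠ ⊤
  hloc : ∀ (P : Ideal S) [P.IsPrime], I ≤ P → P ≠ maximalIdeal S →
    CI (I.map (algebraMap S (Localization.AtPrime P))) r

end Pool.Agent.Lib.H44V
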