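import Pool.Agent.Lib.H44V.L1

/-!
# E1 (M): `Ext^n` is killed by some `s ∉ P` if the local projective dimension is `< n`

Induction on `n`, for all `Y`. `n = 0`: `Y_P = 0`, so `s Y = 0` for some `s ∉ P` (`Y` finite) and
`s • v = 0` for `v : Ext^0`: `s • 𝟙 Y = 0` (compare `Helper92.smul_ext_eq_zero`).
`n = 1`: `Y_P` is projective over `A = S_P`. Let `f : (Fin b → S) → Y` be onto. `f_P` has a section
`Y_P → A^b`; `Y` is finitely presented, so for some `s ∉ P` there is `α : Y →ₗ[S] (Fin b → S)` with
`f ∘ α = s • id` (Mathlib: `Module.FinitePresentation.exists_lift_of_isLocalizedModule`,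
`Module.Finite.exists_smul_of_comp_eq_of_isLocalizedModule`). So
`s • v = (s • 𝟙 Y) v = (Ext.mk₀ (α ≫ f)).comp v` factors through `Ext^1(S^b, Z) = 0`
(`Ext.eq_zero_of_projective`).
`n + 2` (i.e. from `n + 1 ≥ 1` to `n + 2`): `0 → K → S^b → Y → 0`;
`HasProjectiveDimensionLT (K_P) (n + 1)` (localise the sequence,
`hasProjectiveDimensionLT_X₃_iff`); every `v ∈ Ext^(n+2)(Y, Z)` is
`extClass.comp v'` with `v' ∈ Ext^(n+1)(K, Z)` (`Ext.contravariant_sequence_exact₃`, as
`Ext^(n+2)(S^b, Z) = 0`), and `s • v = extClass.comp (s • v')`.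
-/

set_option autoImplicit false
open CategoryTheory CategoryTheory.Abelian IsLocalRing
open Pool.Agent.Lib.Helper92

namespace Pool.Agent.Lib.H44V
universe u
variable {S : Type u} [CommRing S]

lemma E1_smul {X Z : ModuleCat.{u} S} {n : ℕ} (v : Ext X Z n) (a : S) (h : a • 𝟙 X = 0) :
    a • v = 0 := by
  rw [← Ext.mk₀_id_comp v, ← Ext.smul_comp, ← Ext.mk₀_smul, h, Ext.mk₀_zero, Ext.zero_comp]

lemma E1_smul' {X W Z : ModuleCat.{u} S} {n : ℕ} (v : Ext X Z n) (a : S) (α : X ⟶ W) (β : W ⟶ X)
    (h : a • 𝟙 X = α ≫ β) (h0 : Subsingleton (Ext W Z n)) : a • v = 0 := by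
  rw [← Ext.mk₀_id_comp v, ← Ext.smul_comp, ← Ext.mk₀_smul, h, ← Ext.mk₀_comp_mk₀,
    Ext.comp_assoc_of_second_deg_zero, Subsingleton.elim ((Ext.mk₀ β).comp v (zero_add n)) 0,
    Ext.comp_zero]

/-- a surjection onto a module with projective localisation splits up to a denominator -/
theorem E1_split (T : Submonoid S) {Y F Y' F' : Type u} [AddCommGroup Y] [Module S Y]
    [AddCommGroup F] [Module S F] [AddCommGroup Y'] [Module S Y'] [Module (Localization T) Y']
    [IsScalarTower S (Localization T) Y'] [AddCommGroup F'] [Module S F']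
    [Module (Localization T) F'] [IsScalarTower S (Localization T) F']
    (mY : Y →ₗ[S] Y') (mF : F →ₗ[S] F') [IsLocalizedModule T mY] [IsLocalizedModule T mF]
    [Module.FinitePresentation S Y] (hproj : Module.Projective (Localization T) Y')
    (f : F →ₗ[S] Y) (hf : Function.Surjective f) :
    ∃ (α : Y →ₗ[S] F) (s : T), f ∘ₗ α = (s : S) • LinearMap.id := by
  let fP : F' →ₗ[Localization T] Y' :=
    IsLocalizedModule.mapExtendScalars T mF mY (Localization T) f
  have hfP : Function.Surjective fP := by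
    change Function.Surjective (IsLocalizedModule.map T mF mY f)
    exact IsLocalizedModule.map_surjective T mF mY f hf
  obtain ⟨σ, hσ⟩ := Module.projective_lifting_property fP LinearMap.id hfP
  obtain ⟨α, s, hα⟩ := Module.FinitePresentation.exists_lift_of_isLocalizedModule
    T mF ((σ.restrictScalars S) ∘ₗ mY)
  have h2 : mY ∘ₗ (f ∘ₗ α) = mY ∘ₗ ((s : S) • LinearMap.id) := by
    ext y
    have h3 : mF (α y) = (s : S) • σ (mY y) := LinearMap.congr_fun hα y
    have h4 : IsLocalizedModule.map T mF mY f (mF (α y)) = mY (f (α y)) :=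
      IsLocalizedModule.map_apply T mF mY f (α y)
    have h5 : IsLocalizedModule.map T mF mY f (σ (mY y)) = mY y :=
      LinearMap.congr_fun hσ (mY y)
    change mY (f (α y)) = mY ((s : S) • y)
    rw [← h4, h3, map_smul, h5, map_smul]
  obtain ⟨t, ht⟩ := Module.Finite.exists_smul_of_comp_eq_of_isLocalizedModule T mY _ _ h2
  refine ⟨(t : S) • α, t * s, ?_⟩
  ext y
  have h6 := LinearMap.congr_fun ht y
  have h7 : (t : S) • f (α y) = (t : S) • (s : S) • y := h6
  change f ((t : S) • α y) = ((t * s : T) : S) • y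
  rw [map_smul, h7, smul_smul]
  rfl

theorem E1_fun [IsNoetherianRing S] (P : Ideal S) [P.IsPrime] (n : ℕ) : ∀ (Y : ModuleCat.{u} S)
    [Module.Finite S Y]
    (_ : HasProjectiveDimensionLT
      ((ModuleCat.localizedModuleFunctor P.primeCompl).obj Y) n),
    ∃ s, s ∉ P ∧ ∀ (Z : ModuleCat.{u} S) (v : Ext Y Z n), s • v = 0 := by
  induction n with
  | zero =>
    intro Y _ h
    rw [hasProjectiveDimensionLT_zero_iff_isZero] at h
    have h1 : Subsingleton (Y.localizedModule P.primeCompl) :=
      ModuleCat.subsingleton_of_isZero h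
    obtain ⟨s, hs⟩ := Module.Finite.exists_smul_of_comp_eq_of_isLocalizedModule P.primeCompl
      (Y.localizedModuleMkLinearMap P.primeCompl) (LinearMap.id : Y →ₗ[S] Y) 0
      (by ext; exact Subsingleton.elim _ _)
    refine ⟨s, s.2, fun Z v => E1_smul v _ ?_⟩
    ext y
    have h2 : (s : S) • y = (s : S) • (0 : Y) := LinearMap.congr_fun hs y
    change (s : S) • y = 0
    rw [h2, smul_zero]
  | succ n ih =>
    cases n with
    | zero =>
      intro Y _ h
      rw [zero_add, ← projective_iff_hasProjectiveDimensionLT_one] at h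
      have h1 : Module.Projective (Localization P.primeCompl)
          (Y.localizedModule P.primeCompl) :=
        (IsProjective.iff_projective (R := Localization P.primeCompl)
          (Y.localizedModule P.primeCompl)).2 h
      obtain ⟨b, f, hf⟩ := Module.Finite.exists_fin' S Y
      have hfp : Module.FinitePresentation S Y := Module.finitePresentation_of_finite S Y
      obtain ⟨α, s, hα⟩ := E1_split P.primeCompl (Y.localizedModuleMkLinearMap P.primeCompl)
        (LocalizedModule.mkLinearMap P.primeCompl (Fin b → S)) h1 f hf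
      refine ⟨s, s.2, fun Z v => ?_⟩
      refine E1_smul' (W := ModuleCat.of S (Fin b → S)) v _ (ModuleCat.ofHom α)
        (ModuleCat.ofHom f) ?_ (Ext.subsingleton_of_projective _ _ 0)
      ext y
      exact (LinearMap.congr_fun hα y).symm
    | succ n =>
      intro Y _ h
      obtain ⟨b, f, hf⟩ := Module.Finite.exists_fin' S Y
      have hex := LinearMap.shortExact_shortComplexKer hf
      have h5 := hex.map_of_exact (ModuleCat.localizedModuleFunctor P.primeCompl)
      have hproj : Projective (ModuleCat.of S (Fin b → S)) := inferInstance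
      have h6 := (h5.hasProjectiveDimensionLT_X₃_iff n (L1_proj _ _ hproj)).1 h
      obtain ⟨s, hs, hs'⟩ := ih (ModuleCat.of S (LinearMap.ker f)) h6
      refine ⟨s, hs, fun Z v => ?_⟩
      obtain ⟨v', hv'⟩ := Ext.contravariant_sequence_exact₃ hex Z v
        (Ext.eq_zero_of_projective _) (n₀ := n + 1) (by omega)
      rw [← hv', ← Ext.comp_smul]
      change hex.extClass.comp (s • (v' : Ext (ModuleCat.of S (LinearMap.ker f)) Z (n + 1))) _ = 0
      rw [hs', Ext.comp_zero]

theorem E1_ann' [IsNoetherianRing S] (P : Ideal S) [P.IsPrime] (n : ℕ) (Y : ModuleCat.{u} S)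
    [Module.Finite S Y]
    (h : HasProjectiveDimensionLT
      (ModuleCat.of (Localization.AtPrime P) (LocalizedModule P.primeCompl Y)) n) :
    ∃ s, s ∉ P ∧ ∀ (Z : ModuleCat.{u} S) (v : Ext Y Z n), s • v = 0 := by
  refine E1_fun P n Y ?_
  let e : (LocalizedModule P.primeCompl Y) ≃ₗ[S] (Y.localizedModule P.primeCompl) :=
    IsLocalizedModule.linearEquiv P.primeCompl (LocalizedModule.mkLinearMap P.primeCompl Y)
      (Y.localizedModuleMkLinearMap P.primeCompl)
  let e' := e.extendScalarsOfIsLocalization P.primeCompl (Localization P.primeCompl)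
  exact hasProjectiveDimensionLT_of_iso
    (X' := (ModuleCat.localizedModuleFunctor P.primeCompl).obj Y)
    (X := ModuleCat.of (Localization P.primeCompl) (LocalizedModule P.primeCompl Y))
    e'.toModuleIso n

theorem E1_ann [IsNoetherianRing S] (P : Ideal S) [P.IsPrime] (n : ℕ) (Y : Type u)
    [AddCommGroup Y] [Module S Y] [Module.Finite S Y]
    (h : HasProjectiveDimensionLT
      (ModuleCat.of (Localization.AtPrime P) (LocalizedModule P.primeCompl Y)) n) :
    ∃ s, s ∉ P ∧ ∀ (Z : ModuleCat.{u} S) (v : Ext (ModuleCat.of S Y) Z n), s • v = 0 :=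
  @E1_ann' S _ _ P _ n (ModuleCat.of S Y) _ h

end Pool.Agent.Lib.H44V
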