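import Pool.Agent.Lib.H44V.F4
import Pool.Agent.Lib.H44V.F5

/-!
# F6 (M/L): base change of a minimal free resolution and a lower bound for the top `Ext`

Induction on `n`, for all `Y`. `n = 0`: `Y` is projective, so free, `T ⊗ Y` is finite free over
`T`: `F4_pi`. Step from `n` to `n + 1 ≤ N`: `Helper92.exists_minimal_presentation`:
`f : (Fin b → S) → Y` onto, `K = ker f ⊆ m (Fin b → S)`, `HasProjectiveDimensionLT K (n + 1)`, `PEx K`
by `F5_step`. By induction `Dp (T ⊗ K) (N - n)` and `N - n ≥ 1`; so `T ⊗ K → T ⊗ (Fin b → S)`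
is injective by `F5_ker` and `F4_inj`, and
`0 → T ⊗ K → T ⊗ (Fin b → S) → T ⊗ Y → 0` is exact (right exactness:
`lTensor_exact`, `LinearMap.lTensor_surjective`; as `T`-linear maps use
`LinearMap.baseChange`). `F4_coker`, `F4_pi` give `Dp (T ⊗ Y) (N - (n + 1))`.
Second part, `Y` not of `HasProjectiveDimensionLT (n + 1)`:
* `n = 0`: `K` is projective, so free, and not zero (otherwise `Y` is free). Let `e` be a basis
  element of `K`; `e ∈ m (Fin b → S)`. The map `Hom_T(T ⊗ K, T) → T → T ⧸ m T`,
  `ψ ↦ ψ (1 ⊗ e)` is surjective and kills the restrictions of maps from `T ⊗ (Fin b → S)`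
  (`1 ⊗ e = ∑ (e_i • 1) ⊗ pi_i`, `e_i ∈ m`). `Ext^1(T ⊗ Y, T)` is the quotient of
  `Hom_T(T ⊗ K, T)` by these restrictions (contravariant sequence, `Ext^1` of the free module is
  zero), so the map descends to `Ext^1`; it is `T`-linear.
* `n ≥ 1`: `K` is not of `HasProjectiveDimensionLT n`; `Ext^n(T ⊗ K, T) ≃ Ext^(n+1)(T ⊗ Y, T)`
  (composition with the extension class; linear: `Ext.comp_smul`), use the induction hypothesis.
-/

set_option autoImplicit false
open CategoryTheory CategoryTheory.Abelian IsLocalRing TensorProduct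
open Pool.Agent.Lib.Helper92

namespace Pool.Agent.Lib.H44V
universe u

section
variable {T : Type u} [CommRing T] {A B C : Type u} [AddCommGroup A] [Module T A]
  [AddCommGroup B] [Module T B] [AddCommGroup C] [Module T C]

/-- the connecting map, in degrees `n`, `n + 1`. -/
noncomputable def F6_delta (f : A →ₗ[T] B) (g : B →ₗ[T] C) (hf : Function.Injective f)
    (hg : Function.Surjective g) (hfg : Function.Exact f g) (n : ℕ) (W : ModuleCat.{u} T) :
    Ext (ModuleCat.of T A) W n →ₗ[T] Ext (ModuleCat.of T C) W (n + 1) where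
  toFun v := (K1_sc_exact f g hf hg hfg).extClass.comp v (add_comm 1 n)
  map_add' a b := Ext.comp_add _ _ _ _
  map_smul' c a := Ext.comp_smul _ _ _ _

lemma F6_delta_surj (f : A →ₗ[T] B) (g : B →ₗ[T] C) (hf : Function.Injective f)
    (hg : Function.Surjective g) (hfg : Function.Exact f g) (n : ℕ) (W : ModuleCat.{u} T)
    (hB : Module.Projective T B) : Function.Surjective (F6_delta f g hf hg hfg n W) := by
  intro v
  have hproj : Projective (ModuleCat.of T B) := (IsProjective.iff_projective (R := T) B).mp hB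
  have : HasProjectiveDimensionLT (ModuleCat.of T B) 1 :=
    projective_iff_hasProjectiveDimensionLT_one.mp hproj
  have h0 : (Ext.mk₀ (K1_sc f g hfg).g).comp v (zero_add (n + 1)) = 0 :=
    @Subsingleton.elim _ (HasProjectiveDimensionLT.subsingleton (ModuleCat.of T B) 1 (n + 1)
      (by omega) W) _ _
  obtain ⟨w, hw⟩ := Ext.contravariant_sequence_exact₃ (K1_sc_exact f g hf hg hfg) W v h0
    (add_comm 1 n)
  exact ⟨w, hw⟩

lemma F6_delta_inj (f : A →ₗ[T] B) (g : B →ₗ[T] C) (hf : Function.Injective f)
    (hg : Function.Surjective g) (hfg : Function.Exact f g) (n : ℕ) (hn : n ≠ 0)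
    (W : ModuleCat.{u} T)
    (hB : Module.Projective T B) : Function.Injective (F6_delta f g hf hg hfg n W) := by
  rw [injective_iff_map_eq_zero]
  intro v hv
  have hproj : Projective (ModuleCat.of T B) := (IsProjective.iff_projective (R := T) B).mp hB
  have : HasProjectiveDimensionLT (ModuleCat.of T B) 1 :=
    projective_iff_hasProjectiveDimensionLT_one.mp hproj
  obtain ⟨w, hw⟩ := Ext.contravariant_sequence_exact₁ (K1_sc_exact f g hf hg hfg) W v
    (add_comm 1 n) hv
  have hw0 : w = 0 := @Subsingleton.elim _ (HasProjectiveDimensionLT.subsingleton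
    (ModuleCat.of T B) 1 n (by omega) W) w 0
  rw [← hw, hw0, Ext.comp_zero]
  rfl

/-- the kernel of the connecting map in degree `0`. -/
lemma F6_delta_ker (f : A →ₗ[T] B) (g : B →ₗ[T] C) (hf : Function.Injective f)
    (hg : Function.Surjective g) (hfg : Function.Exact f g) {W : Type u} [AddCommGroup W]
    [Module T W] (ψ : A →ₗ[T] W)
    (h : F6_delta f g hf hg hfg 0 (ModuleCat.of T W) (Ext.mk₀ (ModuleCat.ofHom ψ)) = 0) :
    ∃ χ : B →ₗ[T] W, χ ∘ₗ f = ψ := by
  obtain ⟨x, hx⟩ := Ext.contravariant_sequence_exact₁ (K1_sc_exact f g hf hg hfg)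
    (ModuleCat.of T W) (Ext.mk₀ (ModuleCat.ofHom ψ)) (add_comm 1 0) h
  obtain ⟨χ, rfl⟩ := (Ext.mk₀_bijective _ _).2 x
  rw [Ext.mk₀_comp_mk₀] at hx
  have h1 := (Ext.mk₀_bijective _ _).1 hx
  exact ⟨χ.hom, congrArg ModuleCat.Hom.hom h1⟩

/-- linear maps as classes of degree `0`. -/
noncomputable def F6_mk (W : Type u) [AddCommGroup W] [Module T W] :
    (A →ₗ[T] W) →ₗ[T] Ext (ModuleCat.of T A) (ModuleCat.of T W) 0 where
  toFun ψ := Ext.mk₀ (ModuleCat.ofHom ψ)
  map_add' a b := by rw [← Ext.mk₀_add]; rfl
  map_smul' c a := by rw [RingHom.id_apply, ← Ext.mk₀_smul]; rfl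

lemma F6_mk_surj (W : Type u) [AddCommGroup W] [Module T W] :
    Function.Surjective (F6_mk (T := T) (A := A) W) := by
  intro v
  obtain ⟨f, rfl⟩ := (Ext.mk₀_bijective _ _).2 v
  exact ⟨f.hom, rfl⟩

end

theorem F6_lower (S T : Type u) [CommRing S] [CommRing T] [Algebra S T] [IsLocalRing S]
    [IsLocalRing T] [IsNoetherianRing S] [IsNoetherianRing T] (N : ℕ)
    (hT : Dp (ModuleCat.of T T) N) (n : ℕ) :
    ∀ (Y : Type u) [AddCommGroup Y] [Module S Y] [Module.Finite S Y], n ≤ N →
      HasProjectiveDimensionLT (ModuleCat.of S Y) (n + 1) → PEx S T (ModuleCat.of S Y) →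
      Dp (ModuleCat.of T (T ⊗[S] Y)) (N - n) ∧
      (n ≠ 0 → ¬ HasProjectiveDimensionLT (ModuleCat.of S Y) n →
        ∃ φ : Ext (ModuleCat.of T (T ⊗[S] Y)) (ModuleCat.of T T) n →ₗ[T]
          (T ⧸ (maximalIdeal S).map (algebraMap S T)), Function.Surjective φ) := by
  have hfr : ∀ (Z : Type u) [AddCommGroup Z] [Module S Z] [Module.Finite S Z],
      HasProjectiveDimensionLT (ModuleCat.of S Z) 1 → Module.Free S Z := by
    intro Z _ _ _ h
    have h1 : Projective (ModuleCat.of S Z) := projective_iff_hasProjectiveDimensionLT_one.mpr h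
    have h2 : Module.Projective S Z := (IsProjective.iff_projective (R := S) Z).mpr h1
    exact Module.free_of_flat_of_isLocalRing
  induction n with
  | zero =>
    intro Y _ _ _ _ h1 _
    have := hfr Y h1
    exact ⟨F4_pi T (N - 0) hT (T ⊗[S] Y), fun h => absurd rfl h⟩
  | succ n ih =>
    intro Y _ _ _ hN h1 hP
    obtain ⟨b, f, hf, hmin⟩ := exists_minimal_presentation (R := S) Y
    have hex := LinearMap.shortExact_shortComplexKer hf
    have hproj : Projective (ModuleCat.of S (Fin b → S)) := inferInstance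
    have hK1 : HasProjectiveDimensionLT (ModuleCat.of S (LinearMap.ker f)) (n + 1) :=
      (hex.hasProjectiveDimensionLT_X₃_iff n hproj).mp h1
    have hfex : Function.Exact (LinearMap.ker f).subtype f := by
      rw [LinearMap.exact_iff]
      simp
    have hsub : Function.Injective (LinearMap.ker f).subtype := Submodule.subtype_injective _
    have hKP : PEx S T (ModuleCat.of S (LinearMap.ker f)) :=
      F5_step S T _ f hsub hf hfex hP
    obtain ⟨hK2, hK3⟩ := ih (LinearMap.ker f) (by omega) hK1 hKP
    set ι : T ⊗[S] (LinearMap.ker f) →ₗ[T] T ⊗[S] (Fin b → S) :=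
      (LinearMap.ker f).subtype.baseChange T with hι
    set g : T ⊗[S] (Fin b → S) →ₗ[T] T ⊗[S] Y := f.baseChange T with hgdef
    have hιinj : Function.Injective ι := by
      refine F4_inj T ι (fun j hj => hK2 j (by omega)) ?_
      intro Q _ hQ z hz
      exact F5_ker S T _ f hsub hf hfex hP Q hQ z hz
    have hgsurj : Function.Surjective g := LinearMap.lTensor_surjective T hf
    have hexT : Function.Exact ι g := lTensor_exact T hfex hf
    have hpT : Module.Projective T (T ⊗[S] (Fin b → S)) := inferInstance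
    refine ⟨?_, ?_⟩
    · refine F4_coker T ι g hιinj hgsurj hexT (N - (n + 1))
        (fun j hj => F4_pi T N hT (T ⊗[S] (Fin b → S)) j (by omega)) ?_
      intro j hj
      exact hK2 j (by omega)
    · intro _ h2
      rcases n with _ | n
      · -- `K` is free
        have hfree := hfr _ hK1
        have hKne : Nontrivial (LinearMap.ker f) := by
          by_contra hns
          rw [not_nontrivial_iff_subsingleton] at hns
          apply h2
          have hinj : Function.Injective f := by
            rw [← LinearMap.ker_eq_bot]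
            exact Submodule.subsingleton_iff_eq_bot.mp hns
          have hfree : Module.Free S Y := Module.Free.of_equiv (LinearEquiv.ofBijective f ⟨hinj, hf⟩)
          have : Projective (ModuleCat.of S Y) :=
            (IsProjective.iff_projective (R := S) Y).mp inferInstance
          exact projective_iff_hasProjectiveDimensionLT_one.mp this
        let Bs := Module.Free.chooseBasis S (LinearMap.ker f)
        have hnonempty : Nonempty (Module.Free.ChooseBasisIndex S (LinearMap.ker f)) :=
          inferInstance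
        obtain ⟨i0⟩ := hnonempty
        let e : LinearMap.ker f := Bs i0
        let q := Submodule.mkQ ((maximalIdeal S).map (algebraMap S T))
        let ev : (T ⊗[S] (LinearMap.ker f) →ₗ[T] T) →ₗ[T]
            (T ⧸ (maximalIdeal S).map (algebraMap S T)) :=
          q ∘ₗ (LinearMap.applyₗ ((1 : T) ⊗ₜ[S] e))
        have hev : Function.Surjective ev := by
          intro t
          obtain ⟨t, rfl⟩ := Submodule.mkQ_surjective _ t
          refine ⟨t • ((TensorProduct.AlgebraTensorModule.rid S T T).toLinearMap ∘ₗ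
            (Bs.coord i0).baseChange T), ?_⟩
          have h3 : ((TensorProduct.AlgebraTensorModule.rid S T T).toLinearMap ∘ₗ
            (Bs.coord i0).baseChange T) ((1 : T) ⊗ₜ[S] e) = 1 := by
            simp [e]
          change q ((t • ((TensorProduct.AlgebraTensorModule.rid S T T).toLinearMap ∘ₗ
            (Bs.coord i0).baseChange T)) ((1 : T) ⊗ₜ[S] e)) = q t
          rw [LinearMap.smul_apply, h3, smul_eq_mul, mul_one]
        let δ : (T ⊗[S] (LinearMap.ker f) →ₗ[T] T) →ₗ[T]
            Ext (ModuleCat.of T (T ⊗[S] Y)) (ModuleCat.of T T) (0 + 1) :=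
          F6_delta ι g hιinj hgsurj hexT 0 (ModuleCat.of T T) ∘ₗ F6_mk T
        have hδ : Function.Surjective δ :=
          (F6_delta_surj ι g hιinj hgsurj hexT 0 (ModuleCat.of T T) hpT).comp (F6_mk_surj T)
        have hker : LinearMap.ker δ ≤ LinearMap.ker ev := by
          intro ψ hψ
          obtain ⟨χ, hχ⟩ := F6_delta_ker ι g hιinj hgsurj hexT ψ hψ
          rw [LinearMap.mem_ker]
          change q (ψ ((1 : T) ⊗ₜ[S] e)) = 0
          rw [← hχ, LinearMap.comp_apply, hι, LinearMap.baseChange_tmul]
          have h4 : ((LinearMap.ker f).subtype e : Fin b → S) =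
              ∑ i, (e : Fin b → S) i • (Pi.single i (1 : S) : Fin b → S) := by
            conv_lhs => rw [Submodule.subtype_apply, ← Finset.univ_sum_single (e : Fin b → S)]
            refine Finset.sum_congr rfl fun i _ => ?_
            rw [← Pi.single_smul, smul_eq_mul, mul_one]
          rw [h4, TensorProduct.tmul_sum, map_sum]
          change (Submodule.Quotient.mk _ : T ⧸ _) = 0
          rw [Submodule.Quotient.mk_eq_zero]
          refine Ideal.sum_mem _ fun i _ => ?_
          rw [TensorProduct.tmul_smul, ← algebraMap_smul T, map_smul, smul_eq_mul]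
          exact Ideal.mul_mem_right _ _ (Ideal.mem_map_of_mem _ (hmin _ e.2 i))
        refine ⟨(LinearMap.ker δ).liftQ ev hker ∘ₗ
          (δ.quotKerEquivOfSurjective hδ).symm.toLinearMap, ?_⟩
        intro t
        obtain ⟨ψ, hψ⟩ := hev t
        refine ⟨δ ψ, ?_⟩
        have h5 : (δ.quotKerEquivOfSurjective hδ).symm (δ ψ) = Submodule.Quotient.mk ψ := by
          rw [LinearEquiv.symm_apply_eq]
          rfl
        change (LinearMap.ker δ).liftQ ev hker ((δ.quotKerEquivOfSurjective hδ).symm (δ ψ)) = t
        rw [h5]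
        exact hψ
      · have hn : ¬ HasProjectiveDimensionLT (ModuleCat.of S (LinearMap.ker f)) (n + 1) :=
          fun hn => h2 ((hex.hasProjectiveDimensionLT_X₃_iff n hproj).mpr hn)
        obtain ⟨φ, hφ⟩ := hK3 (by omega) hn
        let E := LinearEquiv.ofBijective (F6_delta ι g hιinj hgsurj hexT (n + 1) (ModuleCat.of T T))
          ⟨F6_delta_inj ι g hιinj hgsurj hexT (n + 1) (by omega) _ hpT,
            F6_delta_surj ι g hιinj hgsurj hexT (n + 1) _ hpT⟩
        exact ⟨φ ∘ₗ E.symm.toLinearMap, hφ.comp E.symm.surjective⟩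

end Pool.Agent.Lib.H44V
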