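import Pool.Agent.Lib.H44V.M1

/-!
# Fin: final theorems from the chunks
-/

set_option autoImplicit false
open CategoryTheory CategoryTheory.Abelian IsLocalRing
open Pool.Agent.Lib.Helper92

namespace Pool.Agent.Lib.H44V
universe u
variable {S : Type u} [CommRing S]

theorem Fin_pd {I : Ideal S} (h : ∃ n : ℕ, HasProjectiveDimensionLT (ModuleCat.of S I) n) :
    ∃ n : ℕ, HasProjectiveDimensionLT (Qt I) n := by
  obtain ⟨n, hn⟩ := h
  have h2 : HasProjectiveDimensionLT (ModuleCat.of S S) 1 := by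
    have : Projective (ModuleCat.of S S) := inferInstance
    exact projective_iff_hasProjectiveDimensionLT_one.mp this
  exact ⟨n + 1 + 1, (sesI_exact I).hasProjectiveDimensionLT_X₃ (n + 1)
    (hasProjectiveDimensionLT_of_ge _ n (n + 1) (by omega))
    (hasProjectiveDimensionLT_of_ge _ 1 (n + 1 + 1) (by omega))⟩

theorem Fin_list {I : Ideal S} (hI : I ≠ ⊤) {r : ℕ} (h : CI I r) :
    ∃ rs : List S, Ideal.span {s : S | s ∈ rs} = I ∧ RingTheory.Sequence.IsRegular S rs := by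
  obtain ⟨x, hreg, hJ⟩ := h
  refine ⟨(List.range r).map x, ?_, isRegular_list x r hreg (by rw [hJ]; exact hI)⟩
  have := ofList_range_map x r
  rw [hJ] at this
  exact this

theorem Fin_free [IsNoetherianRing S] [IsLocalRing S] {I : Ideal S} (hI : I ≠ ⊤)
    (hd : ∀ rs : List (S ⧸ I), RingTheory.Sequence.IsRegular (S ⧸ I) rs → rs.length ≤ 2)
    (hN : ∃ n : ℕ, HasProjectiveDimensionLT
      (ModuleCat.of (S ⧸ I) (I.Cotangent →ₗ[S ⧸ I] (S ⧸ I))) n) :
    Module.Free (S ⧸ I) (I.Cotangent →ₗ[S ⧸ I] (S ⧸ I)) := by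
  have : Nontrivial (S ⧸ I) := Ideal.Quotient.nontrivial_iff.mpr hI
  have : IsLocalRing (S ⧸ I) := IsLocalRing.of_surjective' _ Ideal.Quotient.mk_surjective
  obtain ⟨n, hn⟩ := hN
  have : Module.Finite S I.Cotangent := Module.Finite.of_surjective _ I.toCotangent_surjective
  have : Module.Finite (S ⧸ I) I.Cotangent := Module.Finite.of_restrictScalars_finite S _ _
  exact dual_free hd I.Cotangent n hn

/-- `depth S/I ≤ 1`. -/
theorem Fin_depthOne [IsNoetherianRing S] [IsLocalRing S] (I : Ideal S) (hI : I ≠ ⊤)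
    (hpd : ∃ n : ℕ, HasProjectiveDimensionLT (ModuleCat.of S I) n)
    (hd : ∀ rs : List (S ⧸ I), RingTheory.Sequence.IsRegular (S ⧸ I) rs → rs.length ≤ 1)
    (hN : ∃ n : ℕ, HasProjectiveDimensionLT
      (ModuleCat.of (S ⧸ I) (I.Cotangent →ₗ[S ⧸ I] (S ⧸ I))) n) :
    ∃ rs : List S, Ideal.span {s : S | s ∈ rs} = I ∧ RingTheory.Sequence.IsRegular S rs := by
  have hfree := Fin_free hI (fun rs hrs => (hd rs hrs).trans (by omega)) hN
  obtain ⟨r, h, hb⟩ := exists_nbasis hI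
  obtain ⟨n, hn⟩ := Fin_pd hpd
  exact Fin_list hI (A11_depthOne r S I hI n hn hd h hb)

/-- characteristic `p`. -/
theorem Fin_charP (p : ℕ) [Fact p.Prime] [CharP S p] [IsNoetherianRing S] [IsLocalRing S]
    (I : Ideal S) (hI : I ≠ ⊤)
    (hpd : ∃ n : ℕ, HasProjectiveDimensionLT (ModuleCat.of S I) n)
    (hN : Module.Free (S ⧸ I) (I.Cotangent →ₗ[S ⧸ I] (S ⧸ I)) ∨
      ((∀ rs : List (S ⧸ I), RingTheory.Sequence.IsRegular (S ⧸ I) rs → rs.length ≤ 2) ∧
      ∃ n : ℕ, HasProjectiveDimensionLT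
        (ModuleCat.of (S ⧸ I) (I.Cotangent →ₗ[S ⧸ I] (S ⧸ I))) n)) :
    ∃ rs : List S, Ideal.span {s : S | s ∈ rs} = I ∧ RingTheory.Sequence.IsRegular S rs := by
  have hfree : Module.Free (S ⧸ I) (I.Cotangent →ₗ[S ⧸ I] (S ⧸ I)) := by
    rcases hN with h | ⟨hd, h⟩
    · exact h
    · exact Fin_free hI hd h
  obtain ⟨r, h, hb⟩ := exists_nbasis hI
  obtain ⟨n, hn⟩ := Fin_pd hpd
  obtain ⟨d, hd⟩ : ∃ d : ℕ, ringKrullDim S < ((d : ℕ) : WithBot ℕ∞) := by
    have h1 : ringKrullDim S < ⊤ := ringKrullDim_lt_top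
    have h0 : (0 : WithBot ℕ∞) ≤ ringKrullDim S := ringKrullDim_nonneg_of_nontrivial
    generalize ringKrullDim S = k at h0 h1
    induction k with
    | bot => exact absurd h0 (by simp)
    | coe k =>
      induction k with
      | top => exact absurd h1 (by simp)
      | coe k => exact ⟨k + 1, by exact_mod_cast Nat.lt_succ_self k⟩
  exact Fin_list hI (M1_main p d S hd I hI n hn r h hb)

end Pool.Agent.Lib.H44V
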