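import Pool.Agent.Lib.H44V.Defs

/-!
# L1 (M): localisation preserves finite projective dimension

`L1_pd`: the functor `ModuleCat.localizedModuleFunctor P.primeCompl` of Mathlib
(`Mathlib.Algebra.Category.ModuleCat.Localization`) is exact. Induction on `n` (for all `Y`).
`n = 0`: the module is zero (`hasProjectiveDimensionLT_zero_iff_isZero`,
`ModuleCat.isZero_iff_subsingleton`). `n = 1`: `Y` is projective
(`projective_iff_hasProjectiveDimensionLT_one`, `IsProjective.iff_projective`), hence so is its
localisation (Mathlib: `Module.Projective` of a localised module / base change,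
`LocalizedModule P.primeCompl Y ≃ Localization.AtPrime P ⊗[S] Y`). `n + 2`: take a short exact
sequence `0 → K → G → Y → 0` with `G` free (`Y →₀ S`, or
`ModuleCat.shortExact_projectiveShortComplex`), use
`ShortComplex.ShortExact.hasProjectiveDimensionLT_X₃_iff`, localise the sequence
(`LocalizedModule.map`, `LocalizedModule.map_exact`, injective/surjective), apply the induction
hypothesis to `K` and again `hasProjectiveDimensionLT_X₃_iff`.

`L1_qt`: `LocalizedModule P.primeCompl (S ⧸ I) ≃ S_P ⧸ I S_P` (`localizedQuotientEquiv`, or
`IsLocalizedModule` uniqueness) and `hasProjectiveDimensionLT_of_iso`.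
-/

set_option autoImplicit false
open CategoryTheory CategoryTheory.Abelian IsLocalRing
open Pool.Agent.Lib.Helper92

namespace Pool.Agent.Lib.H44V
universe u
variable {S : Type u} [CommRing S]

theorem L1_proj (T : Submonoid S) (Y : ModuleCat.{u} S) (h : Projective Y) :
    Projective ((ModuleCat.localizedModuleFunctor T).obj Y) := by
  have h1 : Module.Projective S Y := (IsProjective.iff_projective (R := S) Y).2 h
  have h2 : Module.Projective (Localization T) (Y.localizedModule T) :=
    Module.projective_of_isLocalizedModule T (Y.localizedModuleMkLinearMap T)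
  exact (IsProjective.iff_projective (R := Localization T) (Y.localizedModule T)).1 h2

theorem L1_fun (T : Submonoid S) (n : ℕ) : ∀ (Y : ModuleCat.{u} S),
    HasProjectiveDimensionLT Y n →
      HasProjectiveDimensionLT ((ModuleCat.localizedModuleFunctor T).obj Y) n := by
  induction n with
  | zero =>
    intro Y h
    rw [hasProjectiveDimensionLT_zero_iff_isZero] at h ⊢
    exact Functor.map_isZero _ h
  | succ n ih =>
    cases n with
    | zero =>
      intro Y h
      rw [zero_add, ← projective_iff_hasProjectiveDimensionLT_one] at h ⊢
      exact L1_proj T Y h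
    | succ n =>
      intro Y h
      have h1 := ModuleCat.shortExact_projectiveShortComplex Y
      have h2 : Projective Y.projectiveShortComplex.X₂ := inferInstance
      have h3 := (h1.hasProjectiveDimensionLT_X₃_iff n h2).1 h
      have h4 := ih _ h3
      have h5 := h1.map_of_exact (ModuleCat.localizedModuleFunctor T)
      exact (h5.hasProjectiveDimensionLT_X₃_iff n (L1_proj T _ h2)).2 h4

/-- any localisation in the same universe -/
theorem L1_any' (T : Submonoid S) (n : ℕ) (Y : ModuleCat.{u} S)
    (h : HasProjectiveDimensionLT Y n) (Z : Type u) [AddCommGroup Z] [Module S Z]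
    [Module (Localization T) Z] [IsScalarTower S (Localization T) Z] (f : Y →ₗ[S] Z)
    [IsLocalizedModule T f] :
    HasProjectiveDimensionLT (ModuleCat.of (Localization T) Z) n := by
  have h1 := L1_fun T n Y h
  let e : (Y.localizedModule T) ≃ₗ[S] Z :=
    IsLocalizedModule.linearEquiv T (Y.localizedModuleMkLinearMap T) f
  let e' : (Y.localizedModule T) ≃ₗ[Localization T] Z :=
    e.extendScalarsOfIsLocalization T (Localization T)
  exact hasProjectiveDimensionLT_of_iso (X := (ModuleCat.localizedModuleFunctor T).obj Y)
    (X' := ModuleCat.of (Localization T) Z) e'.toModuleIso n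

theorem L1_any (T : Submonoid S) (n : ℕ) (Y : Type u) [AddCommGroup Y] [Module S Y]
    (h : HasProjectiveDimensionLT (ModuleCat.of S Y) n) (Z : Type u) [AddCommGroup Z] [Module S Z]
    [Module (Localization T) Z] [IsScalarTower S (Localization T) Z] (f : Y →ₗ[S] Z)
    [hf : IsLocalizedModule T f] :
    HasProjectiveDimensionLT (ModuleCat.of (Localization T) Z) n :=
  @L1_any' S _ T n (ModuleCat.of S Y) h Z _ _ _ _ f hf

theorem L1_pd (P : Ideal S) [P.IsPrime] (n : ℕ) (Y : Type u) [AddCommGroup Y] [Module S Y]
    (h : HasProjectiveDimensionLT (ModuleCat.of S Y) n) :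
    HasProjectiveDimensionLT
      (ModuleCat.of (Localization.AtPrime P) (LocalizedModule P.primeCompl Y)) n :=
  L1_any P.primeCompl n Y h (LocalizedModule P.primeCompl Y)
    (LocalizedModule.mkLinearMap P.primeCompl Y)

theorem L1_qt (P : Ideal S) [P.IsPrime] (n : ℕ) (I : Ideal S)
    (h : HasProjectiveDimensionLT (Qt I) n) :
    HasProjectiveDimensionLT (Qt (I.map (algebraMap S (Localization.AtPrime P)))) n := by
  have h1 := L1_any P.primeCompl n (S ⧸ I) h
    (Localization P.primeCompl ⧸ (Submodule.localized' (Localization P.primeCompl) P.primeCompl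
      (Algebra.linearMap S (Localization P.primeCompl)) I))
    (Submodule.toLocalizedQuotient' (Localization P.primeCompl) P.primeCompl
      (Algebra.linearMap S (Localization P.primeCompl)) I)
  rw [Ideal.localized'_eq_map] at h1
  exact h1

end Pool.Agent.Lib.H44V
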