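import Pool.Agent.Lib.H44V.P9
import Pool.Agent.Lib.H44V.K1
import Pool.Agent.Lib.H44V.D1
import Pool.Agent.Lib.H44V.D4

/-!
# P10 (M/L): one step of the filtration of `S/I^[q]` by the powers of `I`

Write `q = p^e`, `F = fpow p e I`, `a_j = I^j ⊔ F`, `Φ = MvPolynomial.homogeneousSubmodule (Fin m) S j`
(a finite `S`-module: it is spanned by the finitely many monomials of degree `j`,
`MvPolynomial.homogeneousSubmodule_eq_finsupp_supported`),
`A = {G ∈ Φ | aeval g G ∈ a_{j+1}}`, `B = {G ∈ Φ | Tr I q (bMap c G)}` (submodules of `Φ`; `A` is the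
kernel of `Φ → S ⧸ a_{j+1}`, `B` the kernel of
`Φ → (TT r q j → S ⧸ I)`, `G ↦ (mk (coeff (mon β) (bMap c G)))_β`, because `bMap c G` is homogeneous
of degree `j` (`P4_homog`), so its other coefficients vanish; `mon` is a bijection of `TT r q j`
onto the exponents of degree `j` with entries `< q`).
1. The image of `Φ → S ⧸ a_{j+1}` is the kernel of `S ⧸ a_{j+1} → S ⧸ a_j` (`I^j` consists of the
   values `aeval g G`, `G ∈ Φ`: `Ideal.span_pow`-type lemma, induction on `j`). So there is an exact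
   sequence `0 → Φ ⧸ A → S ⧸ a_{j+1} → S ⧸ a_j → 0` and `K1_add`:
   `lam n (Qt a_{j+1}) ≤ lam n (Φ ⧸ A) + lam n (Qt a_j)`.
2. `A ≤ B` by `P9_ker`. The kernel `B/A` of `Φ ⧸ A → Φ ⧸ B` is finite and has finite length by
   `P9_fin` and `D4_fl`; `Ext^n(B/A, S) = 0` by `D1_ext` (`n < n + 2`). `K1_ker`:
   `lam n (Φ ⧸ A) ≤ lam n (Φ ⧸ B)`.
3. `Φ ⧸ B → (TT r q j → S ⧸ I)` is injective; its cokernel has finite length by `P9_surj` and
   `D4_fl` (every element is a sum over `β` of `mk (a_β)` at `β`, and `s` times it is in the image,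
   `s` the product of the finitely many `s_β`), so `Ext^(n+1)(coker, S) = 0` by `D1_ext`;
   `K1_coker` and `K1_pi`: `lam n (Φ ⧸ B) ≤ card (TT r q j) * lam n (Qt I)`.
-/

set_option autoImplicit false
open CategoryTheory CategoryTheory.Abelian IsLocalRing
open Pool.Agent.Lib.Helper92

namespace Pool.Agent.Lib.H44V
universe u
variable {S : Type u} [CommRing S]

/-- forms of degree `j` in elements of `I` lie in `I^j`. -/
theorem P10_mem_pow {m : ℕ} {I : Ideal S} (g : Fin m → S) (hg : ∀ i, g i ∈ I) (j : ℕ)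
    (G : MvPolynomial (Fin m) S) (hG : G.IsHomogeneous j) : MvPolynomial.aeval g G ∈ I ^ j := by
  rw [MvPolynomial.aeval_def, MvPolynomial.eval₂_eq']
  refine Ideal.sum_mem _ fun d hd => Ideal.mul_mem_left _ _ ?_
  have h1 : ∑ i, d i = j := by
    have h2 := hG (MvPolynomial.mem_support_iff.1 hd)
    rw [← h2, Finsupp.weight_apply, Finsupp.sum_fintype _ _ (fun i => by simp)]
    simp
  rw [← h1, ← Finset.prod_pow_eq_pow_sum]
  exact Ideal.prod_mem_prod fun i _ => Ideal.pow_mem_pow (hg i) _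

/-- every element of `I^j` is the value of a form of degree `j`. -/
theorem P10_exists {m : ℕ} {I : Ideal S} (g : Fin m → S)
    (hg : Ideal.span (Set.range g) = I) (j : ℕ) : ∀ u ∈ I ^ j,
    ∃ G : MvPolynomial (Fin m) S, G.IsHomogeneous j ∧ MvPolynomial.aeval g G = u := by
  induction j with
  | zero =>
    intro u _
    exact ⟨MvPolynomial.C u, MvPolynomial.isHomogeneous_C _ _, by simp⟩
  | succ j ih =>
    intro u hu
    rw [pow_succ] at hu
    refine Submodule.mul_induction_on hu ?_ ?_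
    · intro v hv w hw
      obtain ⟨G, hG, hGv⟩ := ih v hv
      rw [← hg, Ideal.mem_span_range_iff_exists_fun] at hw
      obtain ⟨b, hb⟩ := hw
      refine ⟨G * ∑ i, MvPolynomial.C (b i) * MvPolynomial.X i, ?_, ?_⟩
      · refine hG.mul ?_
        refine MvPolynomial.IsHomogeneous.sum _ _ _ fun i _ => ?_
        have h2 := (MvPolynomial.isHomogeneous_C (Fin m) (b i)).mul
          (MvPolynomial.isHomogeneous_X S i)
        rwa [zero_add] at h2
      · rw [map_mul, hGv, map_sum, ← hb]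
        congr 1
        refine Finset.sum_congr rfl fun i _ => ?_
        rw [map_mul, MvPolynomial.aeval_C, MvPolynomial.aeval_X]
        rfl
    · rintro a b ⟨G, hG, rfl⟩ ⟨H, hH, rfl⟩
      exact ⟨G + H, hG.add hH, map_add _ _ _⟩

/-- the exponents `mon β`. -/
theorem P10_mon {r q j : ℕ} (β : Fin r →₀ ℕ) (hβ : ∀ k, β k < q) (hj : ∑ k, β k = j) :
    ∃ β' : TT r q j, mon β' = β :=
  ⟨⟨fun k => ⟨β k, hβ k⟩, hj⟩, by ext k; rfl⟩

theorem P10_coeff {r q j : ℕ} {I : Ideal S} (H : MvPolynomial (Fin r) S) (hH : H.IsHomogeneous j)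
    (h : ∀ β : TT r q j, MvPolynomial.coeff (mon β) H ∈ I) : Tr I q H := by
  intro β hβ
  by_cases hj : ∑ k, β k = j
  · obtain ⟨β', rfl⟩ := P10_mon β hβ hj
    exact h β'
  · have : MvPolynomial.coeff β H = 0 := by
      by_contra hne
      apply hj
      have h2 := hH hne
      rw [← h2, Finsupp.weight_apply, Finsupp.sum_fintype _ _ (fun i => by simp)]
      simp
    rw [this]
    exact I.zero_mem

section step
set_option linter.unusedSectionVars false
variable (p : ℕ) [Fact p.Prime] [CharP S p] (e : ℕ) [IsNoetherianRing S] [IsLocalRing S]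
    {I : Ideal S} {r m : ℕ} (D : Glob S I r m)

/-- forms of degree `j`. -/
abbrev P10_Phi (S : Type u) [CommRing S] (m j : ℕ) : Type u :=
  MvPolynomial.homogeneousSubmodule (Fin m) S j

/-- evaluation at the generators. -/
noncomputable def P10_phi (j : ℕ) (a : Ideal S) : P10_Phi S m j →ₗ[S] (S ⧸ a) :=
  (Submodule.mkQ a) ∘ₗ (MvPolynomial.aeval D.g).toLinearMap ∘ₗ Submodule.subtype _

theorem P10_phi_apply (j : ℕ) (a : Ideal S) (G : P10_Phi S m j) :
    P10_phi D j a G = Submodule.Quotient.mk (MvPolynomial.aeval D.g (G : MvPolynomial (Fin m) S)) :=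
  rfl

/-- the coefficients. -/
noncomputable def P10_psi (q j : ℕ) : P10_Phi S m j →ₗ[S] (TT r q j → S ⧸ I) :=
  LinearMap.pi fun β => (Submodule.mkQ I) ∘ₗ (MvPolynomial.lcoeff S (mon β)) ∘ₗ
    (bMap D.c).toLinearMap ∘ₗ Submodule.subtype _

theorem P10_psi_apply (q j : ℕ) (G : P10_Phi S m j) (β : TT r q j) :
    P10_psi D q j G β = Submodule.Quotient.mk
      (MvPolynomial.coeff (mon β) (bMap D.c (G : MvPolynomial (Fin m) S))) :=
  rfl

theorem P10_mem_ker_psi (q j : ℕ) (G : P10_Phi S m j) :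
    G ∈ LinearMap.ker (P10_psi D q j) ↔ Tr I q (bMap D.c (G : MvPolynomial (Fin m) S)) := by
  rw [LinearMap.mem_ker]
  constructor
  · intro h
    refine P10_coeff _ (P4_homog _ _ G.2) fun β => ?_
    have h1 := congrFun h β
    rwa [P10_psi_apply, Pi.zero_apply, Submodule.Quotient.mk_eq_zero] at h1
  · intro h
    ext β
    rw [P10_psi_apply, Pi.zero_apply, Submodule.Quotient.mk_eq_zero]
    refine h _ fun k => ?_
    exact (β.1 k).2

theorem P10_s1 (n j : ℕ) (F : Ideal S) :
    lam n (Qt (I ^ (j + 1) ⊔ F)) ≤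
      lam n (ModuleCat.of S (P10_Phi S m j ⧸ LinearMap.ker (P10_phi D j (I ^ (j + 1) ⊔ F)))) +
        lam n (Qt (I ^ j ⊔ F)) := by
  have hle : I ^ (j + 1) ⊔ F ≤ I ^ j ⊔ F := sup_le_sup_right (Ideal.pow_le_pow_right (by omega)) _
  refine K1_add n ((LinearMap.ker (P10_phi D j (I ^ (j + 1) ⊔ F))).liftQ _ le_rfl)
    (Submodule.factor hle) ?_ (Submodule.factor_surjective hle) ?_
  · rw [← LinearMap.ker_eq_bot, Submodule.ker_liftQ_eq_bot']
    rfl
  · intro z
    obtain ⟨z, rfl⟩ := Submodule.Quotient.mk_surjective _ z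
    constructor
    · intro hz
      have hz' : (Submodule.Quotient.mk z : S ⧸ (I ^ j ⊔ F)) = 0 := hz
      rw [Submodule.Quotient.mk_eq_zero, Submodule.mem_sup] at hz'
      obtain ⟨u, hu, v, hv, rfl⟩ := hz'
      obtain ⟨G, hG, rfl⟩ := P10_exists D.g D.hg j u hu
      refine ⟨Submodule.Quotient.mk ⟨G, hG⟩, ?_⟩
      change (Submodule.Quotient.mk (MvPolynomial.aeval D.g G) : S ⧸ (I ^ (j + 1) ⊔ F)) = _
      rw [Submodule.Quotient.eq]
      have : MvPolynomial.aeval D.g G - (MvPolynomial.aeval D.g G + v) = -v := by ring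
      rw [this]
      exact Submodule.neg_mem _ (Ideal.mem_sup_right hv)
    · rintro ⟨G, hG⟩
      obtain ⟨G, rfl⟩ := Submodule.Quotient.mk_surjective _ G
      rw [← hG]
      change (Submodule.Quotient.mk (MvPolynomial.aeval D.g (G : MvPolynomial (Fin m) S)) :
        S ⧸ (I ^ j ⊔ F)) = 0
      rw [Submodule.Quotient.mk_eq_zero]
      exact Ideal.mem_sup_left (P10_mem_pow D.g D.hgI j _ G.2)

include p in
theorem P10_s2 (hd : Dp (Qt I) 1) (n : ℕ) (hS : Dp (ModuleCat.of S S) (n + 2)) (j : ℕ) :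
    lam n (ModuleCat.of S (P10_Phi S m j ⧸
        LinearMap.ker (P10_phi D j (I ^ (j + 1) ⊔ fpow p e I)))) ≤
      lam n (ModuleCat.of S (P10_Phi S m j ⧸ LinearMap.ker (P10_psi D (p ^ e) j))) := by
  set a := I ^ (j + 1) ⊔ fpow p e I
  have hAB : LinearMap.ker (P10_phi D j a) ≤ LinearMap.ker (P10_psi D (p ^ e) j) := by
    intro G hG
    rw [LinearMap.mem_ker, P10_phi_apply, Submodule.Quotient.mk_eq_zero] at hG
    rw [P10_mem_ker_psi]
    exact P9_ker p e D hd j _ G.2 hG
  let f := Submodule.factor hAB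
  have hnoeth : IsNoetherian S (P10_Phi S m j ⧸ LinearMap.ker (P10_phi D j a)) :=
    isNoetherian_of_injective ((LinearMap.ker (P10_phi D j a)).liftQ _ le_rfl) (by
      rw [← LinearMap.ker_eq_bot, Submodule.ker_liftQ_eq_bot']
      rfl)
  refine K1_ker n (LinearMap.ker f).subtype f (Submodule.subtype_injective _)
    (Submodule.factor_surjective hAB) (LinearMap.exact_subtype_ker_map f) ?_
  refine D1_ext (ModuleCat.of S S) (n + 2) hS _ ?_ n (by omega)
  refine D4_fl _ fun P _ hP z => ?_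
  obtain ⟨z, hz⟩ := z
  obtain ⟨G, rfl⟩ := Submodule.Quotient.mk_surjective _ z
  have hz' : (Submodule.Quotient.mk G :
    P10_Phi S m j ⧸ LinearMap.ker (P10_psi D (p ^ e) j)) = 0 := hz
  rw [Submodule.Quotient.mk_eq_zero, P10_mem_ker_psi] at hz'
  obtain ⟨s, hs, hs'⟩ := P9_fin p e D j _ G.2 hz' P hP
  refine ⟨s, hs, Subtype.ext ?_⟩
  change s • (Submodule.Quotient.mk G : P10_Phi S m j ⧸ LinearMap.ker (P10_phi D j a)) = 0
  rw [← Submodule.Quotient.mk_smul, Submodule.Quotient.mk_eq_zero, LinearMap.mem_ker,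
    P10_phi_apply, Submodule.Quotient.mk_eq_zero]
  change MvPolynomial.aeval D.g (s • (G : MvPolynomial (Fin m) S)) ∈ a
  rw [map_smul]
  exact hs'

theorem P10_s3 (n : ℕ) (hS : Dp (ModuleCat.of S S) (n + 2)) (q j : ℕ) :
    lam n (ModuleCat.of S (P10_Phi S m j ⧸ LinearMap.ker (P10_psi D q j))) ≤
      Fintype.card (TT r q j) * lam n (Qt I) := by
  classical
  have h0 := K1_pi (S := S) (Y := S ⧸ I) n (TT r q j)
  have h0' : lam n (ModuleCat.of S (TT r q j → S ⧸ I)) =
    Fintype.card (TT r q j) * lam n (Qt I) := h0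
  rw [← h0']
  let ψ := P10_psi D q j
  refine K1_coker n ((LinearMap.ker ψ).liftQ ψ le_rfl) (LinearMap.range ψ).mkQ ?_
    (Submodule.mkQ_surjective _) ?_ ?_
  · rw [← LinearMap.ker_eq_bot, Submodule.ker_liftQ_eq_bot']
    rfl
  · intro z
    rw [Submodule.mkQ_apply, Submodule.Quotient.mk_eq_zero]
    constructor
    · rintro ⟨G, rfl⟩
      exact ⟨Submodule.Quotient.mk G, rfl⟩
    · rintro ⟨G, rfl⟩
      obtain ⟨G, rfl⟩ := Submodule.Quotient.mk_surjective _ G
      exact ⟨G, rfl⟩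
  · refine D1_ext (ModuleCat.of S S) (n + 2) hS _ ?_ (n + 1) (by omega)
    refine D4_fl _ fun P _ hP z => ?_
    obtain ⟨z, rfl⟩ := Submodule.Quotient.mk_surjective _ z
    have h1 := fun β : TT r q j => P9_surj D q j β P hP
    choose s hs G hG hc using h1
    have h2 : ∀ β, ψ ⟨G β, hG β⟩ = Pi.single β (Submodule.Quotient.mk (s β)) := by
      intro β
      ext β'
      rw [P10_psi_apply]
      by_cases hb : β' = β
      · subst hb
        rw [Pi.single_eq_same, Submodule.Quotient.eq]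
        have := hc β' β'
        rwa [if_pos rfl] at this
      · rw [Pi.single_eq_of_ne hb, Submodule.Quotient.mk_eq_zero]
        have := hc β β'
        rwa [if_neg hb, sub_zero] at this
    choose a ha using fun β => Submodule.Quotient.mk_surjective I (z β)
    refine ⟨∏ β, s β, ?_, ?_⟩
    · intro hmem
      obtain ⟨β, -, hβ⟩ := (Ideal.IsPrime.prod_mem_iff (hp := ‹P.IsPrime›)).1 hmem
      exact hs β hβ
    · rw [← Submodule.Quotient.mk_smul, Submodule.Quotient.mk_eq_zero]
      have h3 : (∏ β, s β) • z = ∑ β, ((a β) * ∏ β' ∈ Finset.univ.erase β, s β') •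
          ψ ⟨G β, hG β⟩ := by
        rw [← Finset.univ_sum_single ((∏ β, s β) • z)]
        refine Finset.sum_congr rfl fun β _ => ?_
        rw [h2, ← Pi.single_smul, Pi.smul_apply, ← ha β, ← Submodule.Quotient.mk_smul,
          ← Submodule.Quotient.mk_smul]
        congr 2
        rw [smul_eq_mul, smul_eq_mul, ← Finset.prod_erase_mul Finset.univ s (Finset.mem_univ β)]
        ring
      rw [h3]
      exact Submodule.sum_mem _ fun β _ => Submodule.smul_mem _ _ ⟨_, rfl⟩

end step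

theorem P10_step (p : ℕ) [Fact p.Prime] [CharP S p] (e : ℕ) [IsNoetherianRing S] [IsLocalRing S]
    {I : Ideal S} {r m : ℕ} (D : Glob S I r m) (hd : Dp (Qt I) 1) (n : ℕ)
    (hS : Dp (ModuleCat.of S S) (n + 2)) (j : ℕ) :
    lam n (Qt (I ^ (j + 1) ⊔ fpow p e I)) ≤
      lam n (Qt (I ^ j ⊔ fpow p e I)) + Fintype.card (TT r (p ^ e) j) * lam n (Qt I) := by
  refine (P10_s1 D n j (fpow p e I)).trans ?_
  rw [add_comm]
  gcongr
  exact (P10_s2 p e D hd n hS j).trans (P10_s3 D n hS (p ^ e) j)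

end Pool.Agent.Lib.H44V
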