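import Pool.Agent.Lib.H44V.P1

/-!
# P2 (S/M): the monomial property of regular sequences

For `s : Finset (Fin r)` consider the exponents `γ_s k = 1` for `k ∈ s` and `β k + 1` otherwise.
Claim: `h * ∏_{k ∉ s} x k ^ β k ∈ span {x k ^ γ_s k}`. Induction on `s` (`Finset.induction`);
`s = ∅` is the hypothesis, `s = univ` gives `h ∈ span {x k} = Jx x r`. Step `s → insert i s`:
write `h ∏_{k ∉ s} x k ^ β k = x i ^ β i * w` with `w = h ∏_{k ∉ insert i s} x k ^ β k`. So
`x i ^ β i * (w - x i c) ∈ span {x k ^ γ_s k : k ≠ i}` for some `c`, and `P1_nzd` (`β i` times)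
gives `w - x i c ∈ span {x k ^ γ_s k : k ≠ i}`, so `w ∈ span {x k ^ γ_(insert i s) k}`.
-/

set_option autoImplicit false
open CategoryTheory CategoryTheory.Abelian IsLocalRing
open Pool.Agent.Lib.Helper92

namespace Pool.Agent.Lib.H44V
universe u
variable {S : Type u} [CommRing S]

theorem P2_nzd [IsNoetherianRing S] [IsLocalRing S] (x : ℕ → S) (r : ℕ)
    (hm : ∀ j < r, x j ∈ maximalIdeal S) (hreg : ∀ j < r, IsSMulRegular (S ⧸ Jx x j) (x j))
    (a : Fin r → ℕ) (ha : ∀ k, a k ≠ 0) (i : Fin r) (n : ℕ) (z : S)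
    (hz : x i ^ n * z ∈ Ideal.span ((fun k : Fin r => x k ^ a k) '' {k | k ≠ i})) :
    z ∈ Ideal.span ((fun k : Fin r => x k ^ a k) '' {k | k ≠ i}) := by
  induction n with
  | zero => rwa [pow_zero, one_mul] at hz
  | succ n ih =>
    apply ih
    apply P1_nzd x r hm hreg a ha i
    rwa [← mul_assoc, ← pow_succ']

theorem P2_mem (x : ℕ → S) (n : ℕ) : ∀ j < n, x j ∈ Jx x n := by
  induction n with
  | zero => intro j hj; omega
  | succ n ih =>
    intro j hj
    show x j ∈ Jx x n ⊔ Ideal.span {x n}
    rcases Nat.lt_succ_iff_lt_or_eq.mp hj with h | h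
    · exact Ideal.mem_sup_left (ih j h)
    · rw [h]
      exact Ideal.mem_sup_right (Ideal.mem_span_singleton_self _)

theorem P2_ml [IsNoetherianRing S] [IsLocalRing S] (x : ℕ → S) (r : ℕ)
    (hm : ∀ j < r, x j ∈ maximalIdeal S) (hreg : ∀ j < r, IsSMulRegular (S ⧸ Jx x j) (x j))
    (β : Fin r → ℕ) (h : S)
    (hh : h * ∏ k : Fin r, x k ^ β k ∈ Ideal.span (Set.range fun k : Fin r => x k ^ (β k + 1))) :
    h ∈ Jx x r := by
  classical
  have key : ∀ s : Finset (Fin r), h * ∏ k ∈ sᶜ, x k ^ β k ∈
      Ideal.span (Set.range fun k : Fin r => x k ^ (if k ∈ s then 1 else β k + 1)) := by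
    intro s
    induction s using Finset.induction_on with
    | empty =>
      rw [Finset.compl_empty]
      simpa using hh
    | insert i s hi ih =>
      set f : Fin r → S := fun k => x k ^ (if k ∈ s then 1 else β k + 1) with hf
      set f' : Fin r → S := fun k => x k ^ (if k ∈ insert i s then 1 else β k + 1) with hf'
      have himg : f '' {k | k ≠ i} = f' '' {k | k ≠ i} := by
        apply Set.image_congr
        intro k hk
        have hk' : k ≠ i := hk
        simp only [hf, hf', Finset.mem_insert, hk', false_or]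
      have hrange : Set.range f = insert (f i) (f '' {k | k ≠ i}) := by
        ext y
        constructor
        · rintro ⟨k, rfl⟩
          by_cases hk : k = i
          · rw [hk]; exact Set.mem_insert _ _
          · exact Set.mem_insert_of_mem _ ⟨k, hk, rfl⟩
        · rintro (rfl | ⟨k, -, rfl⟩)
          · exact ⟨i, rfl⟩
          · exact ⟨k, rfl⟩
      have hmem : i ∈ sᶜ := Finset.mem_compl.2 hi
      have hcompl : (insert i s)ᶜ = sᶜ.erase i := by
        ext k
        simp only [Finset.mem_compl, Finset.mem_insert, Finset.mem_erase]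
        tauto
      rw [hrange, Ideal.mem_span_insert'] at ih
      obtain ⟨c, hc⟩ := ih
      rw [hcompl]
      set w : S := h * ∏ k ∈ sᶜ.erase i, x k ^ β k with hw
      have h1 : h * ∏ k ∈ sᶜ, x k ^ β k = x i ^ β i * w := by
        rw [hw, ← Finset.mul_prod_erase sᶜ (fun k : Fin r => x k ^ β k) hmem]
        ring
      have hfi : f i = x i ^ (β i + 1) := by
        simp only [hf, hi, if_false]
      have h2 : x i ^ β i * (w + x i * c) ∈ Ideal.span (f '' {k | k ≠ i}) := by
        rw [h1, hfi] at hc
        have h3 : x i ^ β i * (w + x i * c) = x i ^ β i * w + c * x i ^ (β i + 1) := by ring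
        rw [h3]
        exact hc
      have h3 : w + x i * c ∈ Ideal.span (f '' {k | k ≠ i}) := by
        apply P2_nzd x r hm hreg (fun k => if k ∈ s then 1 else β k + 1) _ i (β i) _ h2
        intro k
        show (if k ∈ s then 1 else β k + 1) ≠ 0
        split_ifs <;> omega
      have h4 : Ideal.span (f '' {k | k ≠ i}) ≤ Ideal.span (Set.range f') := by
        rw [himg]
        exact Ideal.span_mono (Set.image_subset_range _ _)
      have h5 : x i ∈ Ideal.span (Set.range f') := by
        apply Ideal.subset_span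
        refine ⟨i, ?_⟩
        simp only [hf', Finset.mem_insert_self, if_true, pow_one]
      have h6 : w = (w + x i * c) - x i * c := by ring
      rw [h6]
      exact Ideal.sub_mem _ (h4 h3) (Ideal.mul_mem_right _ _ h5)
  have h1 := key Finset.univ
  rw [Finset.compl_univ, Finset.prod_empty, mul_one] at h1
  refine (Ideal.span_le.2 ?_ : _ ≤ Jx x r) h1
  rintro _ ⟨k, rfl⟩
  simp only [Finset.mem_univ, if_true, pow_one]
  exact P2_mem x r k k.2

end Pool.Agent.Lib.H44V
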