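import Pool.Agent.Lib.H44V.P2

/-!
# P3 (M): truncated quasi-regularity

Write `I = Jx x r = span (range x)`.
`←`: `H` is the sum of its monomials `c_β X^β`, `|β| = j` (`MvPolynomial.as_sum`,
`MvPolynomial.aeval_monomial`). If `β k ≥ q` for some `k` the value lies in `span {x k ^ q}`;
otherwise `c_β ∈ I` and `x^β ∈ I^j` (product of `j` elements of `I`), so the value lies in
`I^(j+1)`.
`→`: let `β k < q` for all `k`. If `|β| ≠ j` then `coeff β H = 0`. Let `|β| = j`. Then
`c_β x^β = H(x) - ∑_{γ ≠ β} c_γ x^γ` lies in `span {x k ^ (β k + 1)}`: for `γ ≠ β`,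
`|γ| = |β|`, there is `k` with `γ k ≥ β k + 1`; `I^(j+1)` is spanned by products
`∏ x k ^ γ k` with `|γ| = j + 1 > |β|` (`Ideal.span_pow...`/ `Ideal.pow_eq_span...`, or by
induction: every element of `I^(j+1)` is in `span {x k ^ (β k + 1)}` as soon as `|β| ≤ j`, by
induction on `j`), so again `γ k ≥ β k + 1` for some `k`; and `q ≥ β k + 1`. Now `P2_ml`.
-/

set_option autoImplicit false
open CategoryTheory CategoryTheory.Abelian IsLocalRing
open Pool.Agent.Lib.Helper92

namespace Pool.Agent.Lib.H44V
universe u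
variable {S : Type u} [CommRing S]

lemma P3_span (x : ℕ → S) (r : ℕ) : Jx x r = Ideal.span (Set.range fun k : Fin r => x k) := by
  apply le_antisymm
  · exact Jx_le fun j hj => Ideal.subset_span ⟨⟨j, hj⟩, rfl⟩
  · rw [Ideal.span_le]
    rintro _ ⟨k, rfl⟩
    exact P2_mem x r k k.2

lemma P3_pow (x : ℕ → S) (r : ℕ) (n : ℕ) : ∀ β : Fin r → ℕ, ∑ k, β k ≤ n →
    (Jx x r) ^ (n + 1) ≤ Ideal.span (Set.range fun k : Fin r => x k ^ (β k + 1)) := by
  induction n with
  | zero =>
    intro β hβ
    have h0 : ∀ k, β k = 0 := by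
      intro k
      have h1 := Finset.single_le_sum (f := β) (fun i _ => Nat.zero_le _) (Finset.mem_univ k)
      omega
    rw [zero_add, pow_one, P3_span, Ideal.span_le]
    rintro _ ⟨k, rfl⟩
    refine Ideal.subset_span ⟨k, ?_⟩
    show x k ^ (β k + 1) = x k
    rw [h0 k, zero_add, pow_one]
  | succ n ih =>
    intro β hβ
    rcases Nat.lt_or_ge n (∑ k, β k) with hlt | hge
    · rw [pow_succ, mul_comm]
      refine Ideal.mul_le.2 fun a ha b hb => ?_
      rw [P3_span] at ha
      refine Submodule.span_induction (p := fun a _ => a * b ∈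
        Ideal.span (Set.range fun k : Fin r => x k ^ (β k + 1))) ?_ ?_ ?_ ?_ ha
      · rintro _ ⟨k, rfl⟩
        show x k * b ∈ _
        rcases Nat.eq_zero_or_pos (β k) with hk | hk
        · refine Ideal.mul_mem_right _ _ (Ideal.subset_span ⟨k, ?_⟩)
          show x k ^ (β k + 1) = x k
          rw [hk, zero_add, pow_one]
        · have hsum : ∑ l, (Function.update β k (β k - 1)) l ≤ n := by
            rw [Finset.sum_update_of_mem (Finset.mem_univ k)]
            have h2 := Finset.sum_erase_add (Finset.univ : Finset (Fin r)) β (Finset.mem_univ k)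
            rw [Finset.sdiff_singleton_eq_erase]
            omega
          have h3 := ih _ hsum hb
          refine Submodule.span_induction (p := fun b _ => x k * b ∈
            Ideal.span (Set.range fun k : Fin r => x k ^ (β k + 1))) ?_ ?_ ?_ ?_ h3
          · rintro _ ⟨l, rfl⟩
            show x k * x l ^ (Function.update β k (β k - 1) l + 1) ∈ _
            by_cases hl : l = k
            · subst hl
              rw [Function.update_self, Nat.sub_add_cancel hk, ← pow_succ']
              exact Ideal.subset_span ⟨l, rfl⟩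
            · rw [Function.update_of_ne hl]
              exact Ideal.mul_mem_left _ _ (Ideal.subset_span ⟨l, rfl⟩)
          · rw [mul_zero]
            exact Ideal.zero_mem _
          · intro u v _ _ hu hv
            rw [mul_add]
            exact Ideal.add_mem _ hu hv
          · intro c u _ hu
            rw [smul_eq_mul, mul_left_comm]
            exact Ideal.mul_mem_left _ _ hu
      · rw [zero_mul]
        exact Ideal.zero_mem _
      · intro u v _ _ hu hv
        rw [add_mul]
        exact Ideal.add_mem _ hu hv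
      · intro c u _ hu
        rw [smul_eq_mul, mul_assoc]
        exact Ideal.mul_mem_left _ _ hu
    · refine (Ideal.pow_le_pow_right (Nat.le_succ _)).trans (ih β hge)

lemma P3_eval (x : ℕ → S) (r : ℕ) (H : MvPolynomial (Fin r) S) :
    MvPolynomial.aeval (fun k : Fin r => x k) H =
      ∑ γ ∈ H.support, MvPolynomial.coeff γ H * ∏ k : Fin r, x k ^ γ k := by
  rw [MvPolynomial.aeval_def, MvPolynomial.eval₂_eq']
  rfl

lemma P3_dvd (x : ℕ → S) (r : ℕ) (γ : Fin r →₀ ℕ) (k : Fin r) (a : ℕ) (h : a ≤ γ k) (c : S)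
    {J : Ideal S} (hJ : x k ^ a ∈ J) : c * ∏ k : Fin r, x k ^ γ k ∈ J := by
  refine Ideal.mul_mem_left _ _ ?_
  rw [← Finset.mul_prod_erase Finset.univ (fun k : Fin r => x k ^ γ k) (Finset.mem_univ k)]
  refine Ideal.mul_mem_right _ _ ?_
  rw [← Nat.add_sub_cancel' h, pow_add]
  exact Ideal.mul_mem_right _ _ hJ

theorem P3_trunc [IsNoetherianRing S] [IsLocalRing S] (x : ℕ → S) (r : ℕ)
    (hm : ∀ j < r, x j ∈ maximalIdeal S) (hreg : ∀ j < r, IsSMulRegular (S ⧸ Jx x j) (x j))
    (q j : ℕ) (H : MvPolynomial (Fin r) S) (hH : H.IsHomogeneous j) :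
    MvPolynomial.aeval (fun k : Fin r => x k) H ∈
        (Jx x r) ^ (j + 1) ⊔ Ideal.span (Set.range fun k : Fin r => x k ^ q) ↔
      Tr (Jx x r) q H := by
  classical
  rw [P3_eval]
  constructor
  · intro h β hβ
    by_cases hβj : β.degree = j
    · apply P2_ml x r hm hreg (fun k => β k)
      have hq : Ideal.span (Set.range fun k : Fin r => x k ^ q) ≤
          Ideal.span (Set.range fun k : Fin r => x k ^ (β k + 1)) := by
        rw [Ideal.span_le]
        rintro _ ⟨k, rfl⟩
        show x k ^ q ∈ Ideal.span (Set.range fun k : Fin r => x k ^ (β k + 1))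
        rw [← Nat.add_sub_cancel' (show β k + 1 ≤ q from hβ k), pow_add]
        exact Ideal.mul_mem_right _ _ (Ideal.subset_span ⟨k, rfl⟩)
      have hI : (Jx x r) ^ (j + 1) ≤ Ideal.span (Set.range fun k : Fin r => x k ^ (β k + 1)) := by
        apply P3_pow
        rw [← hβj, Finsupp.degree_eq_sum]
      have h1 := sup_le hI hq h
      by_cases hsupp : β ∈ H.support
      · rw [← Finset.add_sum_erase _ _ hsupp] at h1
        refine (Ideal.add_mem_iff_left _ ?_).1 h1
        refine Ideal.sum_mem _ fun γ hγ => ?_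
        obtain ⟨hne, hγs⟩ := Finset.mem_erase.1 hγ
        have hγj : γ.degree = j := by
          by_contra hcon
          exact (MvPolynomial.mem_support_iff.1 hγs) (hH.coeff_eq_zero hcon)
        obtain ⟨k, hk⟩ : ∃ k, β k < γ k := by
          by_contra hcon
          push Not at hcon
          apply hne
          rw [Finsupp.degree_eq_sum] at hγj hβj
          have h2 : ∀ k ∈ Finset.univ, γ k = β k :=
            (Finset.sum_eq_sum_iff_of_le fun k _ => hcon k).1 (hγj.trans hβj.symm)
          exact Finsupp.ext fun k => h2 k (Finset.mem_univ k)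
        exact P3_dvd x r γ k (β k + 1) hk _ (Ideal.subset_span ⟨k, rfl⟩)
      · rw [MvPolynomial.notMem_support_iff.1 hsupp, zero_mul]
        exact Ideal.zero_mem _
    · rw [hH.coeff_eq_zero hβj]
      exact Ideal.zero_mem _
  · intro h
    refine Ideal.sum_mem _ fun γ hγ => ?_
    by_cases hγq : ∀ k, γ k < q
    · refine Ideal.mem_sup_left ?_
      rw [pow_succ']
      refine Ideal.mul_mem_mul (h γ hγq) ?_
      have hγj : γ.degree = j := by
        by_contra hcon
        exact (MvPolynomial.mem_support_iff.1 hγ) (hH.coeff_eq_zero hcon)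
      rw [← hγj, Finsupp.degree_eq_sum, ← Finset.prod_pow_eq_pow_sum]
      exact Ideal.prod_mem_prod fun k _ => Ideal.pow_mem_pow (P2_mem x r k k.2) _
    · push Not at hγq
      obtain ⟨k, hk⟩ := hγq
      refine Ideal.mem_sup_right (P3_dvd x r γ k q hk _ ?_)
      exact Ideal.subset_span ⟨k, rfl⟩

end Pool.Agent.Lib.H44V
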