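import Pool.Agent.Lib.H44V.Defs

/-!
# P4 (M): the ideal `(I, X_k^q)` and linear substitutions in characteristic `p`, `q = p^e`

`P4_mem`: `→`: every coefficient of `C a * K` (`a ∈ I`) lies in `I`; the coefficients of
`X_k^q * K` at exponents with `β k < q` vanish (`MvPolynomial.coeff_X_pow_mul'`); `Tr I q` is closed
under sums and multiples (`Submodule.span_induction`: show that `{H | Tr I q H}` contains
`K * g` for all generators `g`). `←`: `H` is the sum of its monomials: if all exponents are
`< q` the coefficient is in `I`, otherwise the monomial is a multiple of some `X_k^q`.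
`P4_map`: with `P4_mem`: `bMap U` maps `C a` to `C a` and `X_i^q` to
`(∑ C (U i k) X_k)^q = ∑ C (U i k)^q X_k^q` (`sum_pow_char_pow`, `MvPolynomial` has exponential
characteristic `p`), which lies in the ideal.
`P4_congr`: `bMap U H - bMap V H` lies in `I.map C`; in the quotient ring by `I.map C` the two
algebra maps agree on the variables (`MvPolynomial.algHom_ext`), and all coefficients of an element
of `I.map C` lie in `I` (`MvPolynomial.mem_map_C_iff`).
`P4_comp`: `MvPolynomial.algHom_ext`, `Finset.sum_comm`.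
-/

set_option autoImplicit false
open CategoryTheory CategoryTheory.Abelian IsLocalRing
open Pool.Agent.Lib.Helper92

namespace Pool.Agent.Lib.H44V
universe u
variable {S : Type u} [CommRing S]

theorem P4_coeff_sum {r : ℕ} (q : ℕ) (c : Fin r → MvPolynomial (Fin r) S) (β : Fin r →₀ ℕ)
    (hβ : ∀ k, β k < q) :
    MvPolynomial.coeff β (∑ k, c k * (MvPolynomial.X k : MvPolynomial (Fin r) S) ^ q) = 0 := by
  classical
  rw [MvPolynomial.coeff_sum]
  refine Finset.sum_eq_zero fun k _ => ?_
  rw [MvPolynomial.X_pow_eq_monomial, MvPolynomial.coeff_mul_monomial', if_neg]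
  intro h
  have h1 := h k
  rw [Finsupp.single_eq_same] at h1
  exact absurd (hβ k) (by omega)

theorem P4_mem {r : ℕ} (I : Ideal S) (q : ℕ) (H : MvPolynomial (Fin r) S) :
    H ∈ I.map (MvPolynomial.C : S →+* MvPolynomial (Fin r) S) ⊔
        Ideal.span (Set.range fun k : Fin r => (MvPolynomial.X k : MvPolynomial (Fin r) S) ^ q) ↔
      Tr I q H := by
  classical
  constructor
  · intro h β hβ
    obtain ⟨a, ha, b, hb, rfl⟩ := Submodule.mem_sup.1 h
    obtain ⟨c, rfl⟩ := Ideal.mem_span_range_iff_exists_fun.1 hb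
    rw [MvPolynomial.coeff_add, P4_coeff_sum q c β hβ, add_zero]
    exact MvPolynomial.mem_map_C_iff.1 ha β
  · intro h
    rw [H.as_sum]
    refine Ideal.sum_mem _ fun β _ => ?_
    by_cases hβ : ∀ k, β k < q
    · refine Ideal.mem_sup_left ?_
      have h1 : MvPolynomial.monomial β (MvPolynomial.coeff β H) =
          MvPolynomial.C (MvPolynomial.coeff β H) * MvPolynomial.monomial β 1 := by
        rw [MvPolynomial.C_mul_monomial, mul_one]
      rw [h1]
      exact Ideal.mul_mem_right _ _ (Ideal.mem_map_of_mem _ (h β hβ))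
    · refine Ideal.mem_sup_right ?_
      push Not at hβ
      obtain ⟨k, hk⟩ := hβ
      have h1 : MvPolynomial.monomial β (MvPolynomial.coeff β H) =
          MvPolynomial.monomial (β - Finsupp.single k q) (MvPolynomial.coeff β H) *
            (MvPolynomial.X k : MvPolynomial (Fin r) S) ^ q := by
        rw [MvPolynomial.X_pow_eq_monomial, MvPolynomial.monomial_mul, mul_one,
          tsub_add_cancel_of_le]
        rw [Finsupp.single_le_iff]
        exact hk
      rw [h1]
      exact Ideal.mul_mem_left _ _ (Ideal.subset_span ⟨k, rfl⟩)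

theorem P4_map (p : ℕ) [ExpChar S p] (e : ℕ) {r s : ℕ} (I : Ideal S) (U : Fin r → Fin s → S)
    (H : MvPolynomial (Fin r) S) (hH : Tr I (p ^ e) H) : Tr I (p ^ e) (bMap U H) := by
  classical
  rw [← P4_mem] at hH ⊢
  have h1 := Ideal.mem_map_of_mem (bMap U : MvPolynomial (Fin r) S →+* MvPolynomial (Fin s) S) hH
  refine Set.mem_of_mem_of_subset h1 ?_
  rw [Ideal.map_sup, SetLike.coe_subset_coe]
  refine sup_le ?_ ?_
  · rw [Ideal.map_map]
    have h2 : (bMap U : MvPolynomial (Fin r) S →+* MvPolynomial (Fin s) S).comp MvPolynomial.C =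
        MvPolynomial.C := by
      ext a
      simp [bMap]
    rw [h2]
    exact le_sup_left
  · rw [Ideal.map_span, Ideal.span_le]
    rintro _ ⟨_, ⟨k, rfl⟩, rfl⟩
    refine Ideal.mem_sup_right ?_
    have h2 : (bMap U : MvPolynomial (Fin r) S →+* MvPolynomial (Fin s) S)
        ((MvPolynomial.X k : MvPolynomial (Fin r) S) ^ p ^ e) =
        ∑ l, (MvPolynomial.C (U k l)) ^ p ^ e * (MvPolynomial.X l) ^ p ^ e := by
      rw [map_pow]
      have h3 : (bMap U : MvPolynomial (Fin r) S →+* MvPolynomial (Fin s) S)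
          (MvPolynomial.X k) = lf U k := by simp [bMap]
      rw [h3, lf, sum_pow_char_pow p]
      exact Finset.sum_congr rfl fun l _ => mul_pow _ _ _
    change (bMap U : MvPolynomial (Fin r) S →+* MvPolynomial (Fin s) S)
        ((MvPolynomial.X k : MvPolynomial (Fin r) S) ^ p ^ e) ∈ _
    rw [h2]
    exact Ideal.sum_mem _ fun l _ => Ideal.mul_mem_left _ _ (Ideal.subset_span ⟨l, rfl⟩)

theorem P4_congr {r s : ℕ} (I : Ideal S) (U V : Fin r → Fin s → S)
    (hUV : ∀ i k, U i k - V i k ∈ I) (H : MvPolynomial (Fin r) S) (β : Fin s →₀ ℕ) :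
    MvPolynomial.coeff β (bMap U H) - MvPolynomial.coeff β (bMap V H) ∈ I := by
  have h1 : bMap U H - bMap V H ∈ I.map (MvPolynomial.C : S →+* MvPolynomial (Fin s) S) := by
    rw [← Ideal.Quotient.eq]
    have h2 : (Ideal.Quotient.mkₐ S
          (I.map (MvPolynomial.C : S →+* MvPolynomial (Fin s) S))).comp (bMap U) =
        (Ideal.Quotient.mkₐ S
          (I.map (MvPolynomial.C : S →+* MvPolynomial (Fin s) S))).comp (bMap V) := by
      refine MvPolynomial.algHom_ext fun i => ?_
      have h3 : bMap U (MvPolynomial.X i) = lf U i := by simp [bMap]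
      have h4 : bMap V (MvPolynomial.X i) = lf V i := by simp [bMap]
      rw [AlgHom.comp_apply, AlgHom.comp_apply, h3, h4, Ideal.Quotient.mkₐ_eq_mk,
        Ideal.Quotient.eq, lf, lf, ← Finset.sum_sub_distrib]
      refine Ideal.sum_mem _ fun k _ => ?_
      rw [← sub_mul, ← map_sub]
      exact Ideal.mul_mem_right _ _ (Ideal.mem_map_of_mem _ (hUV i k))
    exact DFunLike.congr_fun h2 H
  have h5 := MvPolynomial.mem_map_C_iff.1 h1 β
  rwa [MvPolynomial.coeff_sub] at h5

theorem P4_comp {r s t : ℕ} (U : Fin r → Fin s → S) (V : Fin s → Fin t → S)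
    (H : MvPolynomial (Fin r) S) :
    bMap V (bMap U H) = bMap (fun i l => ∑ k, U i k * V k l) H := by
  have h2 : (bMap V).comp (bMap U) = bMap (fun i l => ∑ k, U i k * V k l) := by
    refine MvPolynomial.algHom_ext fun i => ?_
    have h3 : bMap U (MvPolynomial.X i) = lf U i := by simp [bMap]
    have h4 : bMap (fun i l => ∑ k, U i k * V k l) (MvPolynomial.X i) =
      lf (fun i l => ∑ k, U i k * V k l) i := by simp [bMap]
    have h5 : ∀ k, bMap V (MvPolynomial.X k) = lf V k := fun k => by simp [bMap]
    have h6 : ∀ a : S, bMap V (MvPolynomial.C a) = MvPolynomial.C a := fun a => by simp [bMap]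
    rw [AlgHom.comp_apply, h3, h4, lf, map_sum]
    simp only [map_mul, h5, h6, lf, map_sum, Finset.mul_sum, Finset.sum_mul]
    rw [Finset.sum_comm]
    exact Finset.sum_congr rfl fun l _ => Finset.sum_congr rfl fun k _ => (mul_assoc _ _ _).symm
  exact DFunLike.congr_fun h2 H

theorem P4_one {r : ℕ} (H : MvPolynomial (Fin r) S) :
    bMap (fun i k : Fin r => if i = k then (1 : S) else 0) H = H := by
  have h2 : bMap (fun i k : Fin r => if i = k then (1 : S) else 0) = AlgHom.id S _ := by
    refine MvPolynomial.algHom_ext fun i => ?_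
    have h4 : bMap (fun i k : Fin r => if i = k then (1 : S) else 0) (MvPolynomial.X i) =
      lf (fun i k : Fin r => if i = k then (1 : S) else 0) i := by simp [bMap]
    rw [h4, lf, Finset.sum_eq_single i]
    · rw [if_pos rfl, map_one, one_mul, AlgHom.id_apply]
    · intro k _ hk
      rw [if_neg (Ne.symm hk), map_zero, zero_mul]
    · intro h
      exact absurd (Finset.mem_univ i) h
  rw [h2, AlgHom.id_apply]

theorem P4_homog {r s j : ℕ} (U : Fin r → Fin s → S) (H : MvPolynomial (Fin r) S)
    (hH : H.IsHomogeneous j) : (bMap U H).IsHomogeneous j := by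
  have h1 := hH.aeval (S := S) (n := 1) (lf U) (fun i => by
    unfold lf
    refine MvPolynomial.IsHomogeneous.sum _ _ _ fun k _ => ?_
    have h2 := (MvPolynomial.isHomogeneous_C (Fin s) (U i k)).mul
      (MvPolynomial.isHomogeneous_X S k)
    rwa [zero_add] at h2)
  rw [one_mul] at h1
  exact h1

end Pool.Agent.Lib.H44V
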