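import Pool.Agent.Lib.H44V.Defs

/-!
# P5 (M): the dual basis of a regular sequence; uniqueness of the rank

`P5_dual`: claim: `∑_{j<r} a_j x_j = 0` implies `a_j ∈ I` for all `j`. Induction on `r`:
`a_{r-1} x_{r-1} ∈ Jx x (r-1)`, so `a_{r-1} = ∑_{j<r-1} b_j x_j` by regularity, and
`∑_{j<r-1} (a_j + b_j x_{r-1}) x_j = 0`, so `a_j + b_j x_{r-1} ∈ Jx x (r-1) ≤ I`. Hence
`f_k (∑ a_j x_j) = mk a_k` is well defined and linear on `I = span {x_j}` (e.g. as the map induced
on the quotient of `Fin r → S` by the kernel of `(Fin r → S) → I`, which is surjective: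
`LinearMap.quotKerEquivOfSurjective`, `Submodule.liftQ`). `NBasis`: `indep` by evaluation at
`x_k`; `span`: `g = ∑ a_k f_k` where `g x_k = mk a_k` (both sides agree at the generators).
`P5_matrix`: expand `h` in `f` and `f` in `h` (`NBasis.span`), and use `NBasis.indep` for
`h k = ∑_l ∑_i U k l V l i h i`.
`P5_rank`: the matrices `U` (`r × r'`) and `V` (`r' × r`) are mutually inverse over the nontrivial
commutative ring `S ⧸ I` (same computation), so `r = r'`
(`Matrix.toLin'` gives a linear equivalence `(Fin r → S ⧸ I) ≃ (Fin r' → S ⧸ I)`,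
`LinearEquiv.finrank_eq`).
-/

set_option autoImplicit false
open CategoryTheory CategoryTheory.Abelian IsLocalRing
open Pool.Agent.Lib.Helper92

namespace Pool.Agent.Lib.H44V
universe u
variable {S : Type u} [CommRing S]

theorem P5_mem (x : ℕ → S) (r : ℕ) (z : S) (hz : z ∈ Jx x r) :
    ∃ a : Fin r → S, z = ∑ j, a j * x j := by
  induction r generalizing z with
  | zero =>
    refine ⟨fun _ => 0, ?_⟩
    have h1 : z = 0 := by simpa [Jx] using hz
    rw [h1]
    simp
  | succ r ih =>
    obtain ⟨y, hy, w, hw, rfl⟩ := Submodule.mem_sup.1 hz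
    obtain ⟨a, ha⟩ := ih y hy
    obtain ⟨b, hb⟩ := Ideal.mem_span_singleton'.1 hw
    refine ⟨Fin.snoc a b, ?_⟩
    rw [Fin.sum_univ_castSucc]
    simp only [Fin.snoc_castSucc, Fin.snoc_last, Fin.val_castSucc, Fin.val_last]
    rw [← ha, hb]

theorem P5_x_mem (x : ℕ → S) (r : ℕ) (j : ℕ) (hj : j < r) : x j ∈ Jx x r := by
  induction r with
  | zero => omega
  | succ r ih =>
    change x j ∈ Jx x r ⊔ Ideal.span {x r}
    rcases Nat.lt_or_eq_of_le (Nat.lt_succ_iff.1 hj) with h | h
    · exact Ideal.mem_sup_left (ih h)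
    · rw [h]
      exact Ideal.mem_sup_right (Ideal.mem_span_singleton_self _)

theorem P5_sum_mem (x : ℕ → S) (r : ℕ) (a : Fin r → S) : ∑ j, a j * x j ∈ Jx x r :=
  Ideal.sum_mem _ fun j _ => Ideal.mul_mem_left _ _ (P5_x_mem x r j j.2)

theorem P5_zero (x : ℕ → S) (r : ℕ) (hreg : ∀ j < r, IsSMulRegular (S ⧸ Jx x j) (x j))
    (a : Fin r → S) (ha : ∑ j, a j * x j = 0) (k : Fin r) : a k ∈ Jx x r := by
  induction r with
  | zero => exact k.elim0
  | succ r ih =>
    have hle : Jx x r ≤ Jx x (r + 1) := le_sup_left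
    rw [Fin.sum_univ_castSucc] at ha
    simp only [Fin.val_castSucc, Fin.val_last] at ha
    have h1 : a (Fin.last r) ∈ Jx x r := by
      have h2 : x r • (Submodule.Quotient.mk (a (Fin.last r)) : S ⧸ Jx x r) = x r • 0 := by
        rw [smul_zero, ← Submodule.Quotient.mk_smul, Submodule.Quotient.mk_eq_zero, smul_eq_mul]
        have h3 : x r * a (Fin.last r) = -∑ j : Fin r, a j.castSucc * x j := by
          linear_combination ha
        rw [h3]
        exact (Jx x r).neg_mem (P5_sum_mem x r _)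
      have h4 := hreg r (Nat.lt_succ_self r) h2
      exact (Submodule.Quotient.mk_eq_zero _).1 h4
    obtain ⟨b, hb⟩ := P5_mem x r _ h1
    have h5 : ∑ j : Fin r, (a j.castSucc + b j * x r) * x j = 0 := by
      have h6 : ∑ j : Fin r, (a j.castSucc + b j * x r) * x j =
          ∑ j : Fin r, a j.castSucc * x j + (∑ j : Fin r, b j * x j) * x r := by
        rw [Finset.sum_mul, ← Finset.sum_add_distrib]
        exact Finset.sum_congr rfl fun j _ => by ring
      rw [h6, ← hb]
      exact ha
    have h7 := ih (fun j hj => hreg j (Nat.lt_succ_of_lt hj)) (fun j => a j.castSucc + b j * x r) h5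
    refine Fin.lastCases ?_ (fun j => ?_) k
    · exact hle h1
    · have h8 := (Jx x (r + 1)).sub_mem (hle (h7 j))
        ((Jx x (r + 1)).mul_mem_left (b j) (P5_x_mem x (r + 1) r (Nat.lt_succ_self r)))
      have h9 : a j.castSucc + b j * x r - b j * x r = a j.castSucc := by ring
      rwa [h9] at h8

theorem P5_dual {I : Ideal S} (x : ℕ → S) (r : ℕ)
    (hreg : ∀ j < r, IsSMulRegular (S ⧸ Jx x j) (x j)) (hJ : Jx x r = I)
    (hx : ∀ j : Fin r, x j ∈ I) :
    ∃ f : Fin r → (I →ₗ[S] (S ⧸ I)), NBasis I f ∧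
      ∀ k j : Fin r, f k ⟨x j, hx j⟩ = Submodule.Quotient.mk (if k = j then 1 else 0) := by
  classical
  subst hJ
  have hF : ∀ z : Jx x r, ∃ a : Fin r → S, (z : S) = ∑ j, a j * x j := fun z =>
    P5_mem x r z z.2
  choose F hF using hF
  have key : ∀ (z : Jx x r) (a : Fin r → S), (z : S) = ∑ j, a j * x j → ∀ k,
      (Submodule.Quotient.mk (F z k) : S ⧸ Jx x r) = Submodule.Quotient.mk (a k) := by
    intro z a ha k
    rw [Submodule.Quotient.eq]
    refine P5_zero x r hreg (fun j => F z j - a j) ?_ k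
    simp only [sub_mul]
    rw [Finset.sum_sub_distrib, ← ha, ← hF z, sub_self]
  let f : Fin r → (Jx x r →ₗ[S] (S ⧸ Jx x r)) := fun k =>
    { toFun := fun z => Submodule.Quotient.mk (F z k)
      map_add' := fun z z' => by
        rw [key (z + z') (fun j => F z j + F z' j) (by
          simp only [add_mul]
          rw [Finset.sum_add_distrib, ← hF z, ← hF z']
          rfl) k, Submodule.Quotient.mk_add]
      map_smul' := fun c z => by
        rw [key (c • z) (fun j => c * F z j) (by
          simp only [mul_assoc]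
          rw [← Finset.mul_sum, ← hF z]
          rfl) k, RingHom.id_apply, ← Submodule.Quotient.mk_smul, smul_eq_mul] }
  have hfx : ∀ k j : Fin r, f k ⟨x j, hx j⟩ = Submodule.Quotient.mk (if k = j then 1 else 0) := by
    intro k j
    refine key ⟨x j, hx j⟩ (fun i => if i = j then 1 else 0) ?_ k
    simp only [ite_mul, one_mul, zero_mul]
    rw [Finset.sum_ite_eq' Finset.univ j, if_pos (Finset.mem_univ j)]
  refine ⟨f, ⟨?_, ?_⟩, hfx⟩
  · intro a ha i
    have h1 := DFunLike.congr_fun ha ⟨x i, hx i⟩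
    rw [LinearMap.sum_apply, LinearMap.zero_apply, Finset.sum_eq_single i] at h1
    · rw [LinearMap.smul_apply, hfx, if_pos rfl, ← Submodule.Quotient.mk_smul, smul_eq_mul,
        mul_one, Submodule.Quotient.mk_eq_zero] at h1
      exact h1
    · intro k _ hk
      rw [LinearMap.smul_apply, hfx, if_neg hk, Submodule.Quotient.mk_zero, smul_zero]
    · intro h
      exact absurd (Finset.mem_univ i) h
  · intro g
    have hg : ∀ k : Fin r, ∃ a : S, (Submodule.Quotient.mk a : S ⧸ Jx x r) = g ⟨x k, hx k⟩ :=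
      fun k => Submodule.Quotient.mk_surjective _ _
    choose a ha using hg
    refine ⟨a, ?_⟩
    refine LinearMap.ext fun z => ?_
    have h1 : z = ∑ j : Fin r, F z j • (⟨x j, hx j⟩ : Jx x r) := by
      refine Subtype.ext ?_
      rw [hF z]
      simp
    have h2 : g z = ∑ j : Fin r, F z j • (Submodule.Quotient.mk (a j) : S ⧸ Jx x r) := by
      conv_lhs => rw [h1, map_sum]
      exact Finset.sum_congr rfl fun j _ => by rw [map_smul, ha]
    rw [h2, LinearMap.sum_apply]
    refine Finset.sum_congr rfl fun j _ => ?_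
    rw [LinearMap.smul_apply]
    change _ = a j • (Submodule.Quotient.mk (F z j) : S ⧸ Jx x r)
    rw [← Submodule.Quotient.mk_smul, ← Submodule.Quotient.mk_smul, smul_eq_mul, smul_eq_mul,
      mul_comm]

theorem P5_rel {I : Ideal S} {r r' : ℕ} {h : Fin r → (I →ₗ[S] (S ⧸ I))}
    {f : Fin r' → (I →ₗ[S] (S ⧸ I))} (hh : NBasis I h) (U : Fin r → Fin r' → S)
    (V : Fin r' → Fin r → S) (hU : ∀ k, h k = ∑ l, U k l • f l)
    (hV : ∀ l, f l = ∑ i, V l i • h i) (k i : Fin r) :
    (∑ l, U k l * V l i) - (if k = i then 1 else 0) ∈ I := by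
  classical
  refine hh.indep (fun i => (∑ l, U k l * V l i) - (if k = i then 1 else 0)) ?_ i
  have h1 : h k = ∑ i, (∑ l, U k l * V l i) • h i := by
    conv_lhs => rw [hU k]
    have h2 : ∀ l, U k l • f l = ∑ i, (U k l * V l i) • h i := by
      intro l
      conv_lhs => rw [hV l, Finset.smul_sum]
      exact Finset.sum_congr rfl fun i _ => smul_smul _ _ _
    rw [Finset.sum_congr rfl fun l _ => h2 l, Finset.sum_comm]
    exact Finset.sum_congr rfl fun i _ => (Finset.sum_smul).symm
  have h3 : ∑ i, (if k = i then (1 : S) else 0) • h i = h k := by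
    simp only [ite_smul, one_smul, zero_smul]
    rw [Finset.sum_ite_eq Finset.univ k, if_pos (Finset.mem_univ k)]
  refine LinearMap.ext fun z => ?_
  have h5 : ∀ i, (((∑ l, U k l * V l i) - (if k = i then (1 : S) else 0)) • h i) z =
      (∑ l, U k l * V l i) • h i z - (if k = i then (1 : S) else 0) • h i z := fun i => by
    rw [LinearMap.smul_apply, sub_smul]
  have h6 := DFunLike.congr_fun h1 z
  have h7 := DFunLike.congr_fun h3 z
  rw [LinearMap.sum_apply] at h6 h7
  simp only [LinearMap.smul_apply] at h6 h7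
  rw [LinearMap.sum_apply, Finset.sum_congr rfl fun i _ => h5 i, Finset.sum_sub_distrib, ← h6, h7,
    sub_self, LinearMap.zero_apply]

theorem P5_matrix {I : Ideal S} {r : ℕ} {h f : Fin r → (I →ₗ[S] (S ⧸ I))} (hh : NBasis I h)
    (hf : NBasis I f) :
    ∃ U V : Fin r → Fin r → S, (∀ k, h k = ∑ l, U k l • f l) ∧
      (∀ k i, (∑ l, U k l * V l i) - (if k = i then 1 else 0) ∈ I) ∧
      (∀ k i, (∑ l, V k l * U l i) - (if k = i then 1 else 0) ∈ I) := by
  choose U hU using fun k => hf.span (h k)
  choose V hV using fun k => hh.span (f k)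
  exact ⟨U, V, hU, P5_rel hh U V hU hV, P5_rel hf V U hV hU⟩

theorem P5_rank {I : Ideal S} (hI : I ≠ ⊤) {r r' : ℕ} {h : Fin r → (I →ₗ[S] (S ⧸ I))}
    {f : Fin r' → (I →ₗ[S] (S ⧸ I))} (hh : NBasis I h) (hf : NBasis I f) : r = r' := by
  classical
  choose U hU using fun k => hf.span (h k)
  choose V hV using fun k => hh.span (f k)
  have : Nontrivial (S ⧸ I) := Ideal.Quotient.nontrivial_iff.mpr hI
  have h1 := P5_rel hh U V hU hV
  have h2 := P5_rel hf V U hV hU
  let M : Matrix (Fin r) (Fin r') (S ⧸ I) := fun k l => Ideal.Quotient.mk I (U k l)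
  let N : Matrix (Fin r') (Fin r) (S ⧸ I) := fun k l => Ideal.Quotient.mk I (V k l)
  have h3 : M * N = 1 := by
    ext k i
    rw [Matrix.mul_apply, Matrix.one_apply]
    have h4 := Ideal.Quotient.eq.2 (h1 k i)
    rw [map_sum] at h4
    simp only [map_mul] at h4
    refine h4.trans ?_
    split_ifs
    · exact map_one _
    · exact map_zero _
  have h5 : N * M = 1 := by
    ext k i
    rw [Matrix.mul_apply, Matrix.one_apply]
    have h4 := Ideal.Quotient.eq.2 (h2 k i)
    rw [map_sum] at h4
    simp only [map_mul] at h4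
    refine h4.trans ?_
    split_ifs
    · exact map_one _
    · exact map_zero _
  have h6 := Matrix.square_of_invertible M N h3 h5
  simpa using h6

end Pool.Agent.Lib.H44V
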