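import Pool.Agent.Lib.H44V.P3
import Pool.Agent.Lib.H44V.P4
import Pool.Agent.Lib.H44V.P5

/-!
# P7 (M): when does a form in generators of `I` lie in `I^(j+1) + I^[q]`?

Let `x` be the regular sequence of `hci`; `x j ∈ I ≤ m`. Let `f` be its dual basis (`P5_dual`) and
`U, V` from `P5_matrix hb hf`. Write `g i = ∑_j c' i j * x j` (`g i ∈ I = span {x j}`). Applying
`h k = ∑_l U k l • f l`: `c i k ≡ ∑_l U k l * c' i l` modulo `I`, i.e.
`c i k ≡ ∑_l c' i l * W l k` with `W l k = U k l` (and `W` has the inverse `V` transposed modulo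
`I`). Put `H = bMap c' G`, homogeneous of degree `j` (`P4_homog`).
`aeval g G = aeval x H` (`MvPolynomial.aeval` composed with `bMap`). `fpow p e I = span {x k ^ q}`
(`Ideal.map_span`). So by `P3_trunc` the left side is `Tr I q H`. By `P4_comp` and `P4_congr`,
`Tr I q (bMap c G) ↔ Tr I q (bMap W H)`; by `P4_map` `Tr I q H → Tr I q (bMap W H)`, and
`bMap Vᵀ (bMap W H) = bMap (W Vᵀ) H` differs from `bMap 1 H = H` (`P4_one`) by coefficients in `I`,
which gives the converse.

`P7_surj`: let `a k i` be such that `x' := ∑_i a_{ki} g_i` satisfies `h_l(x'_k) = mk δ_kl`; it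
exists: `V`-combination of the `x j` (by the matrix relations `h_l (∑_j V j k x_j) = mk (∑_j
V j k U l j)`), and `x j` is a combination of the `g i`. So `∑_i a_{ki} c_{il} ≡ δ_kl` mod `I`.
Put `G = ∏_k (∑_i C a_{ki} Y_i)^(β k)`; `bMap c G = ∏_k (∑_l C(∑_i a_{ki} c_{il}) X_l)^(β k)` is
congruent to `X^β` modulo `I.map C`.
-/

set_option autoImplicit false
open CategoryTheory CategoryTheory.Abelian IsLocalRing
open Pool.Agent.Lib.Helper92

namespace Pool.Agent.Lib.H44V
universe u
variable {S : Type u} [CommRing S]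

lemma P7_f {I : Ideal S} {r : ℕ} (x : ℕ → S) (hx : ∀ j : Fin r, x j ∈ I)
    {f : Fin r → (I →ₗ[S] (S ⧸ I))}
    (hfx : ∀ k j : Fin r, f k ⟨x j, hx j⟩ = Submodule.Quotient.mk (if k = j then 1 else 0))
    (z : I) (a : Fin r → S) (hz : (z : S) = ∑ j, a j * x j) (k : Fin r) :
    f k z = Submodule.Quotient.mk (a k) := by
  have h1 : z = ∑ j : Fin r, a j • (⟨x j, hx j⟩ : I) := by
    refine Subtype.ext ?_
    rw [hz]
    simp
  rw [h1, map_sum, Finset.sum_eq_single k]
  · rw [map_smul, hfx, if_pos rfl, ← Submodule.Quotient.mk_smul, smul_eq_mul, mul_one]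
  · intro j _ hj
    rw [map_smul, hfx, if_neg (Ne.symm hj), Submodule.Quotient.mk_zero, smul_zero]
  · intro h
    exact absurd (Finset.mem_univ k) h

lemma P7_h {I : Ideal S} {r : ℕ} (x : ℕ → S) (hx : ∀ j : Fin r, x j ∈ I)
    {h f : Fin r → (I →ₗ[S] (S ⧸ I))}
    (hfx : ∀ k j : Fin r, f k ⟨x j, hx j⟩ = Submodule.Quotient.mk (if k = j then 1 else 0))
    {U : Fin r → Fin r → S} (hU : ∀ k, h k = ∑ l, U k l • f l)
    (z : I) (a : Fin r → S) (hz : (z : S) = ∑ j, a j * x j) (k : Fin r) :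
    h k z = Submodule.Quotient.mk (∑ l, a l * U k l) := by
  rw [hU k, LinearMap.sum_apply]
  have h1 : ∀ l, (U k l • f l) z = (Submodule.Quotient.mk (a l * U k l) : S ⧸ I) := by
    intro l
    rw [LinearMap.smul_apply, P7_f x hx hfx z a hz l, ← Submodule.Quotient.mk_smul, smul_eq_mul,
      mul_comm]
  rw [Finset.sum_congr rfl fun l _ => h1 l]
  exact (map_sum (Submodule.mkQ I) _ _).symm

lemma P7_eval (x : ℕ → S) {r m : ℕ} (g : Fin m → S) (c' : Fin m → Fin r → S)
    (hc' : ∀ i, g i = ∑ j, c' i j * x j) (G : MvPolynomial (Fin m) S) :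
    MvPolynomial.aeval g G = MvPolynomial.aeval (fun k : Fin r => x k) (bMap c' G) := by
  have h1 : (MvPolynomial.aeval (fun k : Fin r => x k)).comp (bMap c') =
      (MvPolynomial.aeval g : MvPolynomial (Fin m) S →ₐ[S] S) := by
    refine MvPolynomial.algHom_ext fun i => ?_
    have h2 : bMap c' (MvPolynomial.X i) = lf c' i := by simp [bMap]
    rw [AlgHom.comp_apply, h2, MvPolynomial.aeval_X, hc' i, lf, map_sum]
    refine Finset.sum_congr rfl fun k _ => ?_
    rw [map_mul, MvPolynomial.aeval_C, MvPolynomial.aeval_X]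
    rfl
  exact (DFunLike.congr_fun h1 G).symm

lemma P7_fpow (p : ℕ) [ExpChar S p] (e : ℕ) (x : ℕ → S) (r : ℕ) :
    fpow p e (Jx x r) = Ideal.span (Set.range fun k : Fin r => x k ^ p ^ e) := by
  unfold fpow
  rw [P3_span, Ideal.map_span, ← Set.range_comp]
  rfl

lemma P7_tr {I : Ideal S} {r s q : ℕ} (U V : Fin r → Fin s → S)
    (hUV : ∀ i k, U i k - V i k ∈ I) (H : MvPolynomial (Fin r) S)
    (h : Tr I q (bMap U H)) : Tr I q (bMap V H) := by
  intro β hβ
  have h1 := P4_congr I U V hUV H β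
  have h2 := h β hβ
  have h3 := I.sub_mem h2 h1
  rwa [sub_sub_cancel] at h3

theorem P7_crit (p : ℕ) [Fact p.Prime] [CharP S p] (e : ℕ) [IsNoetherianRing S] [IsLocalRing S]
    {I : Ideal S} (hI : I ≠ ⊤) {r : ℕ} (hci : CI I r) {h : Fin r → (I →ₗ[S] (S ⧸ I))}
    (hb : NBasis I h) {m : ℕ} (g : Fin m → S) (hgI : ∀ i, g i ∈ I)
    (hg : Ideal.span (Set.range g) = I) (c : Fin m → Fin r → S)
    (hc : ∀ i k, h k ⟨g i, hgI i⟩ = Submodule.Quotient.mk (c i k)) (j : ℕ)
    (G : MvPolynomial (Fin m) S) (hG : G.IsHomogeneous j) :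
    MvPolynomial.aeval g G ∈ I ^ (j + 1) ⊔ fpow p e I ↔ Tr I (p ^ e) (bMap c G) := by
  classical
  obtain ⟨x, hreg, hJ⟩ := hci
  have hx : ∀ j : Fin r, x j ∈ I := fun j => hJ ▸ P5_x_mem x r j j.2
  obtain ⟨f, hf, hfx⟩ := P5_dual x r hreg hJ hx
  obtain ⟨U, V, hU, hUV, hVU⟩ := P5_matrix hb hf
  have hm : ∀ j < r, x j ∈ maximalIdeal S := fun j hj =>
    IsLocalRing.le_maximalIdeal hI (hx ⟨j, hj⟩)
  have hc0 : ∀ i, ∃ a : Fin r → S, g i = ∑ j, a j * x j := fun i =>
    P5_mem x r (g i) (hJ ▸ hgI i)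
  choose c' hc' using hc0
  have hcc : ∀ i k, (∑ l, c' i l * U k l) - c i k ∈ I := by
    intro i k
    have h1 := P7_h x hx hfx hU ⟨g i, hgI i⟩ (c' i) (hc' i) k
    rw [hc i k] at h1
    exact (Submodule.Quotient.eq I).1 h1.symm
  have hH : (bMap c' G).IsHomogeneous j := P4_homog c' G hG
  have h1 := P3_trunc x r hm hreg (p ^ e) j (bMap c' G) hH
  have h2 : fpow p e I = Ideal.span (Set.range fun k : Fin r => x k ^ p ^ e) := by
    rw [← P7_fpow p e x r, hJ]
  rw [hJ, ← h2, ← P7_eval x g c' hc' G] at h1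
  rw [h1]
  constructor
  · intro h
    have h3 := P4_map p e I (fun l k => U k l) (bMap c' G) h
    rw [P4_comp] at h3
    exact P7_tr _ _ hcc G h3
  · intro h
    have h3 : Tr I (p ^ e) (bMap (fun l k => U k l) (bMap c' G)) := by
      rw [P4_comp]
      refine P7_tr _ _ (fun i k => ?_) G h
      rw [← neg_sub]
      exact I.neg_mem (hcc i k)
    have h4 := P4_map p e I (fun k i => V i k) _ h3
    rw [P4_comp] at h4
    have h5 := P7_tr _ (fun i k : Fin r => if i = k then (1 : S) else 0) (fun i l => ?_) _ h4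
    · rwa [P4_one] at h5
    · have h6 := hVU l i
      have h7 : (∑ k, U k i * V l k) - (if i = l then (1 : S) else 0) =
          (∑ k, V l k * U k i) - (if l = i then (1 : S) else 0) := by
        congr 1
        · exact Finset.sum_congr rfl fun k _ => mul_comm _ _
        · simp only [eq_comm]
      rw [h7]
      exact h6

theorem P7_surj [IsNoetherianRing S] [IsLocalRing S]
    {I : Ideal S} (hI : I ≠ ⊤) {r : ℕ} (hci : CI I r) {h : Fin r → (I →ₗ[S] (S ⧸ I))}
    (hb : NBasis I h) {m : ℕ} (g : Fin m → S) (hgI : ∀ i, g i ∈ I)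
    (hg : Ideal.span (Set.range g) = I) (c : Fin m → Fin r → S)
    (hc : ∀ i k, h k ⟨g i, hgI i⟩ = Submodule.Quotient.mk (c i k)) (q j : ℕ)
    (β : TT r q j) :
    ∃ G : MvPolynomial (Fin m) S, G.IsHomogeneous j ∧ ∀ β' : TT r q j,
      MvPolynomial.coeff (mon β') (bMap c G) - (if β' = β then 1 else 0) ∈ I := by
  classical
  obtain ⟨x, hreg, hJ⟩ := hci
  have hx : ∀ j : Fin r, x j ∈ I := fun j => hJ ▸ P5_x_mem x r j j.2
  obtain ⟨f, hf, hfx⟩ := P5_dual x r hreg hJ hx
  obtain ⟨U, V, hU, hUV, hVU⟩ := P5_matrix hb hf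
  have hb0 : ∀ j : Fin r, ∃ b : Fin m → S, x j = ∑ i, b i * g i := by
    intro j
    have h1 : x j ∈ Ideal.span (Set.range g) := hg ▸ hx j
    obtain ⟨b, hb⟩ := (Ideal.mem_span_range_iff_exists_fun).1 h1
    exact ⟨b, hb.symm⟩
  choose b hb' using hb0
  have hbU : ∀ j l : Fin r, (∑ i, b j i * c i l) - U l j ∈ I := by
    intro j l
    have h1 : h l ⟨x j, hx j⟩ = Submodule.Quotient.mk (∑ i, b j i * c i l) := by
      have h2 : (⟨x j, hx j⟩ : I) = ∑ i, b j i • (⟨g i, hgI i⟩ : I) := by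
        refine Subtype.ext ?_
        show x j = _
        rw [hb' j]
        simp
      rw [h2, map_sum]
      have h3 : ∀ i, h l (b j i • (⟨g i, hgI i⟩ : I)) =
          (Submodule.Quotient.mk (b j i * c i l) : S ⧸ I) := by
        intro i
        rw [map_smul, hc i l, ← Submodule.Quotient.mk_smul, smul_eq_mul]
      rw [Finset.sum_congr rfl fun i _ => h3 i]
      exact (map_sum (Submodule.mkQ I) _ _).symm
    have h4 := P7_h x hx hfx hU ⟨x j, hx j⟩ (fun i => if i = j then 1 else 0)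
      (by simp) l
    rw [h1] at h4
    have h5 : (∑ i, (if i = j then (1 : S) else 0) * U l i) = U l j := by simp
    rw [h5] at h4
    exact (Submodule.Quotient.eq I).1 h4
  set a : Fin r → Fin m → S := fun k i => ∑ j, V j k * b j i with ha
  have hac : ∀ k l, (∑ i, a k i * c i l) - (if k = l then (1 : S) else 0) ∈ I := by
    intro k l
    have h1 : (∑ i, a k i * c i l) = ∑ j, V j k * (∑ i, b j i * c i l) := by
      simp only [ha, Finset.sum_mul, Finset.mul_sum]
      rw [Finset.sum_comm]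
      exact Finset.sum_congr rfl fun j _ => Finset.sum_congr rfl fun i _ => mul_assoc _ _ _
    have h2 : (∑ i, a k i * c i l) - (if k = l then (1 : S) else 0) =
        (∑ j, V j k * ((∑ i, b j i * c i l) - U l j)) +
          ((∑ j, U l j * V j k) - (if l = k then (1 : S) else 0)) := by
      rw [h1]
      simp only [mul_sub, Finset.sum_sub_distrib]
      have h3 : ∑ j, V j k * U l j = ∑ j, U l j * V j k :=
        Finset.sum_congr rfl fun j _ => mul_comm _ _
      have h4 : (if k = l then (1 : S) else 0) = (if l = k then (1 : S) else 0) := by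
        simp only [eq_comm]
      rw [h3, h4]
      ring
    rw [h2]
    exact I.add_mem (I.sum_mem fun j _ => I.mul_mem_left _ (hbU j l)) (hUV l k)
  refine ⟨bMap a (MvPolynomial.monomial (mon β) 1), ?_, fun β' => ?_⟩
  · refine P4_homog a _ (MvPolynomial.isHomogeneous_monomial _ ?_)
    rw [Finsupp.degree_eq_sum]
    exact β.2
  · rw [P4_comp]
    have h1 := P4_congr I (fun k l => ∑ i, a k i * c i l)
      (fun k l : Fin r => if k = l then (1 : S) else 0) hac (MvPolynomial.monomial (mon β) 1)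
      (mon β')
    rw [P4_one, MvPolynomial.coeff_monomial] at h1
    have h2 : (if mon β = mon β' then (1 : S) else 0) = (if β' = β then 1 else 0) := by
      by_cases h3 : β' = β
      · rw [h3, if_pos rfl, if_pos rfl]
      · rw [if_neg h3, if_neg]
        intro h4
        apply h3
        refine Subtype.ext (funext fun k => Fin.ext ?_)
        exact (DFunLike.congr_fun h4 k).symm
    rwa [h2] at h1

end Pool.Agent.Lib.H44V
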