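import Pool.Agent.Lib.H44V.P7
import Pool.Agent.Lib.H44V.L2
import Pool.Agent.Lib.H44V.D3

/-!
# P9 (M): the comparison away from the maximal ideal, and its consequences

`P9_loc`: apply `P7_crit` to `A = Localization.AtPrime P` (characteristic `p`: `p = 0` in `A`, `A`
nontrivial), `I A ≠ ⊤` as `I ≤ P`, `CI (I A) r` from `D.hloc`, the basis `h'` from `L2_nbasis`,
the images of `g` and `c`, and `G' = MvPolynomial.map (algebraMap S A) G`:
`aeval g' G' = algebraMap (aeval g G)`, `bMap c' G' = map (bMap c G)` (`MvPolynomial.aeval_map...`,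
`MvPolynomial.algHom_ext`/induction), `coeff β (map _ _) = algebraMap (coeff β _)`. An element
`a / 1` lies in `J A` iff `s a ∈ J` for some `s ∉ P` (`IsLocalization.mem_map_algebraMap_iff` or
`IsLocalization.algebraMap_mem_map_algebraMap_iff`); `(I A)^(j+1) ⊔ fpow p e (I A)` is the image of
`I^(j+1) ⊔ fpow p e I` (`Ideal.map_sup`, `Ideal.map_pow`, `Ideal.map_map`:
`iterateFrobenius` commutes with `algebraMap`).

`P9_ker`: fix `β` and let `w = coeff β (bMap c G)`; by `D3_socle` it suffices to find for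
each `P ≠ m` some `s ∉ P` with `s w ∈ I`: if `I ≤ P` by `P9_loc` with `s = 1` on the left; otherwise
`s ∈ I \\ P`.

`P9_fin`: if `I ≤ P` by `P9_loc`; otherwise `s = t^(j+1)` with `t ∈ I \\ P`.

`P9_surj`: if `I ≤ P`: `P7_surj` over `A` gives `G'`; clear the denominators of its coefficients
(`IsLocalization.exist_integer_multiples`, finitely many): `s G' = map G`, `G` homogeneous (take
the homogeneous component `j`), and then, multiplying by a further `s' ∉ P`, the finitely many
conditions (`TT r q j` is finite) hold in `I`. Otherwise `s ∈ I \\ P` and `G = 0`.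
-/

set_option autoImplicit false
open CategoryTheory CategoryTheory.Abelian IsLocalRing
open Pool.Agent.Lib.Helper92

namespace Pool.Agent.Lib.H44V
universe u
variable {S : Type u} [CommRing S]

section loc

variable [IsLocalRing S] {I : Ideal S} {r m : ℕ}

/-- the substitution commutes with base change. -/
lemma P9_bMap {A : Type u} [CommRing A] (F : S →+* A) (c : Fin m → Fin r → S)
    (G : MvPolynomial (Fin m) S) :
    bMap (fun i k => F (c i k)) (MvPolynomial.map F G) = MvPolynomial.map F (bMap c G) := by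
  have h1 : ((bMap (fun i k => F (c i k)) : MvPolynomial (Fin m) A →ₐ[A]
      MvPolynomial (Fin r) A) : MvPolynomial (Fin m) A →+* MvPolynomial (Fin r) A).comp
      (MvPolynomial.map F) = (MvPolynomial.map F).comp
      ((bMap c : MvPolynomial (Fin m) S →ₐ[S] MvPolynomial (Fin r) S) :
        MvPolynomial (Fin m) S →+* MvPolynomial (Fin r) S) := by
    refine MvPolynomial.ringHom_ext (fun a => ?_) fun i => ?_
    · simp [bMap]
    · simp [bMap, lf]
  exact DFunLike.congr_fun h1 G

lemma P9_aeval {A : Type u} [CommRing A] (F : S →+* A) (g : Fin m → S)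
    (G : MvPolynomial (Fin m) S) :
    MvPolynomial.aeval (fun i => F (g i)) (MvPolynomial.map F G) =
      F (MvPolynomial.aeval g G) := by
  have h1 : ((MvPolynomial.aeval (fun i => F (g i)) : MvPolynomial (Fin m) A →ₐ[A] A) :
      MvPolynomial (Fin m) A →+* A).comp (MvPolynomial.map F) =
      F.comp ((MvPolynomial.aeval g : MvPolynomial (Fin m) S →ₐ[S] S) :
        MvPolynomial (Fin m) S →+* S) := by
    refine MvPolynomial.ringHom_ext (fun a => ?_) fun i => ?_
    · simp
    · simp
  exact DFunLike.congr_fun h1 G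

lemma P9_fpow {A : Type u} [CommRing A] (F : S →+* A) (p : ℕ) [ExpChar S p] [ExpChar A p] (e : ℕ)
    (I : Ideal S) : fpow p e (I.map F) = (fpow p e I).map F := by
  unfold fpow
  rw [Ideal.map_map, Ideal.map_map, RingHom.iterateFrobenius_comm]

lemma P9_mem (P : Ideal S) [P.IsPrime] (J : Ideal S) (a : S) :
    algebraMap S (Localization.AtPrime P) a ∈ J.map (algebraMap S (Localization.AtPrime P)) ↔
      ∃ s, s ∉ P ∧ s * a ∈ J := by
  rw [IsLocalization.algebraMap_mem_map_algebraMap_iff P.primeCompl]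
  rfl

lemma P9_ne (P : Ideal S) [P.IsPrime] (hIP : I ≤ P) :
    I.map (algebraMap S (Localization.AtPrime P)) ≠ ⊤ := by
  intro h
  have h1 : algebraMap S (Localization.AtPrime P) 1 ∈
      I.map (algebraMap S (Localization.AtPrime P)) := by
    rw [h]
    exact Submodule.mem_top
  obtain ⟨s, hs, hs1⟩ := (P9_mem P I 1).1 h1
  rw [mul_one] at hs1
  exact hs (hIP hs1)

lemma P9_span (P : Ideal S) [P.IsPrime] (g : Fin m → S) (hg : Ideal.span (Set.range g) = I) :
    Ideal.span (Set.range fun i => algebraMap S (Localization.AtPrime P) (g i)) =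
      I.map (algebraMap S (Localization.AtPrime P)) := by
  rw [← hg, Ideal.map_span, ← Set.range_comp]
  rfl

end loc

theorem P9_loc (p : ℕ) [Fact p.Prime] [CharP S p] (e : ℕ) [IsNoetherianRing S] [IsLocalRing S]
    {I : Ideal S} {r m : ℕ} (D : Glob S I r m) (P : Ideal S) [P.IsPrime] (hIP : I ≤ P)
    (hP : P ≠ maximalIdeal S) (j : ℕ) (G : MvPolynomial (Fin m) S) (hG : G.IsHomogeneous j) :
    (∃ s, s ∉ P ∧ s * MvPolynomial.aeval D.g G ∈ I ^ (j + 1) ⊔ fpow p e I) ↔
      ∀ β : Fin r →₀ ℕ, (∀ k, β k < p ^ e) →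
        ∃ s, s ∉ P ∧ s * MvPolynomial.coeff β (bMap D.c G) ∈ I := by
  have hchar : CharP (Localization.AtPrime P) p := by
    rw [CharP.charP_iff_prime_eq_zero (Fact.out : p.Prime)]
    have h1 : algebraMap S (Localization.AtPrime P) (p : S) = 0 := by
      rw [CharP.cast_eq_zero, map_zero]
    rwa [map_natCast] at h1
  obtain ⟨h', hb', hval⟩ := L2_nbasis P D.hb
  have hN : IsNoetherianRing (Localization.AtPrime P) :=
    IsLocalization.isNoetherianRing P.primeCompl _ inferInstance
  have h1 := P7_crit p e (P9_ne P hIP) (D.hloc P hIP hP) hb'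
    (fun i => algebraMap S (Localization.AtPrime P) (D.g i))
    (fun i => Ideal.mem_map_of_mem _ (D.hgI i)) (P9_span P D.g D.hg)
    (fun i k => algebraMap S (Localization.AtPrime P) (D.c i k))
    (fun i k => hval k ⟨D.g i, D.hgI i⟩ (D.c i k) (D.hc i k)) j
    (MvPolynomial.map (algebraMap S (Localization.AtPrime P)) G) (hG.map _)
  rw [P9_aeval, P9_bMap, P9_fpow, ← Ideal.map_pow, ← Ideal.map_sup, P9_mem] at h1
  rw [h1]
  unfold Tr
  simp only [MvPolynomial.coeff_map, P9_mem]

theorem P9_ker (p : ℕ) [Fact p.Prime] [CharP S p] (e : ℕ) [IsNoetherianRing S] [IsLocalRing S]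
    {I : Ideal S} {r m : ℕ} (D : Glob S I r m) (hd : Dp (Qt I) 1) (j : ℕ)
    (G : MvPolynomial (Fin m) S) (hG : G.IsHomogeneous j)
    (h : MvPolynomial.aeval D.g G ∈ I ^ (j + 1) ⊔ fpow p e I) :
    Tr I (p ^ e) (bMap D.c G) := by
  intro β hβ
  refine D3_socle hd _ fun P _ hP => ?_
  by_cases hIP : I ≤ P
  · have hP1 : (1 : S) ∉ P := fun h1 => (inferInstance : P.IsPrime).ne_top
      ((Ideal.eq_top_iff_one P).2 h1)
    exact (P9_loc p e D P hIP hP j G hG).1 ⟨1, hP1, by rwa [one_mul]⟩ β hβ
  · obtain ⟨s, hsI, hsP⟩ := Set.not_subset.mp hIP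
    exact ⟨s, hsP, Ideal.mul_mem_right _ _ hsI⟩

theorem P9_fin (p : ℕ) [Fact p.Prime] [CharP S p] (e : ℕ) [IsNoetherianRing S] [IsLocalRing S]
    {I : Ideal S} {r m : ℕ} (D : Glob S I r m) (j : ℕ)
    (G : MvPolynomial (Fin m) S) (hG : G.IsHomogeneous j)
    (h : Tr I (p ^ e) (bMap D.c G)) (P : Ideal S) [P.IsPrime] (hP : P ≠ maximalIdeal S) :
    ∃ s, s ∉ P ∧ s * MvPolynomial.aeval D.g G ∈ I ^ (j + 1) ⊔ fpow p e I := by
  by_cases hIP : I ≤ P
  · have hP1 : (1 : S) ∉ P := fun h1 => (inferInstance : P.IsPrime).ne_top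
      ((Ideal.eq_top_iff_one P).2 h1)
    exact (P9_loc p e D P hIP hP j G hG).2 fun β hβ => ⟨1, hP1, by
      rw [one_mul]
      exact h β hβ⟩
  · obtain ⟨t, htI, htP⟩ := Set.not_subset.mp hIP
    refine ⟨t ^ (j + 1), fun h1 => htP ((inferInstance : P.IsPrime).mem_of_pow_mem _ h1), ?_⟩
    exact Ideal.mem_sup_left (Ideal.mul_mem_right _ _ (Ideal.pow_mem_pow htI _))

lemma P9_clear [IsLocalRing S] (P : Ideal S) [P.IsPrime] {m j : ℕ}
    (G' : MvPolynomial (Fin m) (Localization.AtPrime P)) (hG' : G'.IsHomogeneous j) :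
    ∃ b, b ∉ P ∧ ∃ G : MvPolynomial (Fin m) S, G.IsHomogeneous j ∧
      MvPolynomial.map (algebraMap S (Localization.AtPrime P)) G =
        MvPolynomial.C (algebraMap S (Localization.AtPrime P) b) * G' := by
  classical
  obtain ⟨b, hb⟩ := IsLocalization.exist_integer_multiples P.primeCompl G'.support
    (fun γ => MvPolynomial.coeff γ G')
  have hb' : ∀ γ, ∃ a : S, γ ∈ G'.support → algebraMap S (Localization.AtPrime P) a =
      (b : S) • MvPolynomial.coeff γ G' := by
    intro γ
    by_cases hγ : γ ∈ G'.support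
    · obtain ⟨a, ha⟩ := hb γ hγ
      exact ⟨a, fun _ => ha⟩
    · exact ⟨0, fun h => absurd h hγ⟩
  choose a ha using hb'
  refine ⟨b, b.2, ∑ γ ∈ G'.support, MvPolynomial.monomial γ (a γ), ?_, ?_⟩
  · refine MvPolynomial.IsHomogeneous.sum _ _ _ fun γ hγ => ?_
    refine MvPolynomial.isHomogeneous_monomial _ ?_
    by_contra hcon
    exact (MvPolynomial.mem_support_iff.1 hγ) (hG'.coeff_eq_zero hcon)
  · rw [map_sum]
    conv_rhs => rw [G'.as_sum, Finset.mul_sum]
    refine Finset.sum_congr rfl fun γ hγ => ?_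
    rw [MvPolynomial.map_monomial, ha γ hγ, MvPolynomial.C_mul_monomial, Algebra.smul_def]

theorem P9_surj [IsNoetherianRing S] [IsLocalRing S]
    {I : Ideal S} {r m : ℕ} (D : Glob S I r m) (q j : ℕ) (β : TT r q j)
    (P : Ideal S) [P.IsPrime] (hP : P ≠ maximalIdeal S) :
    ∃ s, s ∉ P ∧ ∃ G : MvPolynomial (Fin m) S, G.IsHomogeneous j ∧ ∀ β' : TT r q j,
      MvPolynomial.coeff (mon β') (bMap D.c G) - (if β' = β then s else 0) ∈ I := by
  classical
  by_cases hIP : I ≤ P
  · obtain ⟨h', hb', hval⟩ := L2_nbasis P D.hb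
    have hN : IsNoetherianRing (Localization.AtPrime P) :=
      IsLocalization.isNoetherianRing P.primeCompl _ inferInstance
    obtain ⟨G', hG', hcoef⟩ := P7_surj (P9_ne P hIP) (D.hloc P hIP hP) hb'
      (fun i => algebraMap S (Localization.AtPrime P) (D.g i))
      (fun i => Ideal.mem_map_of_mem _ (D.hgI i)) (P9_span P D.g D.hg)
      (fun i k => algebraMap S (Localization.AtPrime P) (D.c i k))
      (fun i k => hval k ⟨D.g i, D.hgI i⟩ (D.c i k) (D.hc i k)) q j β
    obtain ⟨b, hbP, G, hG, hmap⟩ := P9_clear P G' hG'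
    have h1 : ∀ β' : TT r q j, ∃ s, s ∉ P ∧
        s * (MvPolynomial.coeff (mon β') (bMap D.c G) - (if β' = β then b else 0)) ∈ I := by
      intro β'
      rw [← P9_mem]
      have h2 : algebraMap S (Localization.AtPrime P)
          (MvPolynomial.coeff (mon β') (bMap D.c G) - (if β' = β then b else 0)) =
          algebraMap S (Localization.AtPrime P) b *
          (MvPolynomial.coeff (mon β')
            (bMap (fun i k => algebraMap S (Localization.AtPrime P) (D.c i k)) G') -
            (if β' = β then 1 else 0)) := by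
        rw [map_sub, ← MvPolynomial.coeff_map, ← P9_bMap, hmap]
        have h3 : bMap (fun i k => algebraMap S (Localization.AtPrime P) (D.c i k))
            (MvPolynomial.C (algebraMap S (Localization.AtPrime P) b) * G') =
            MvPolynomial.C (algebraMap S (Localization.AtPrime P) b) *
            bMap (fun i k => algebraMap S (Localization.AtPrime P) (D.c i k)) G' := by
          rw [map_mul]
          congr 1
          simp [bMap]
        rw [h3, MvPolynomial.coeff_C_mul, mul_sub]
        congr 1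
        split_ifs
        · rw [mul_one]
        · rw [mul_zero, map_zero]
      rw [h2]
      exact Ideal.mul_mem_left _ _ (hcoef β')
    choose t htP ht using h1
    refine ⟨(∏ β', t β') * b, ?_, MvPolynomial.C (∏ β', t β') * G, ?_, fun β' => ?_⟩
    · intro hmem
      rcases (inferInstance : P.IsPrime).mem_or_mem hmem with h2 | h2
      · obtain ⟨β', _, h3⟩ := (inferInstance : P.IsPrime).prod_mem_iff.1 h2
        exact htP β' h3
      · exact hbP h2
    · have h2 := (MvPolynomial.isHomogeneous_C (Fin m) (∏ β', t β')).mul hG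
      rwa [zero_add] at h2
    · have h3 : bMap D.c (MvPolynomial.C (∏ β', t β') * G) =
          MvPolynomial.C (∏ β', t β') * bMap D.c G := by
        rw [map_mul]
        congr 1
        simp [bMap]
      rw [h3, MvPolynomial.coeff_C_mul]
      have h4 : (∏ β', t β') * MvPolynomial.coeff (mon β') (bMap D.c G) -
          (if β' = β then (∏ β', t β') * b else 0) =
          (∏ β'' ∈ Finset.univ.erase β', t β'') *
            (t β' * (MvPolynomial.coeff (mon β') (bMap D.c G) - (if β' = β then b else 0))) := by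
        rw [← mul_assoc, Finset.prod_erase_mul _ _ (Finset.mem_univ β'), mul_sub]
        congr 1
        split_ifs
        · rfl
        · rw [mul_zero]
      rw [h4]
      exact Ideal.mul_mem_left _ _ (ht β')
  · obtain ⟨s, hsI, hsP⟩ := Set.not_subset.mp hIP
    refine ⟨s, hsP, 0, MvPolynomial.isHomogeneous_zero _ _ _, fun β' => ?_⟩
    rw [map_zero, MvPolynomial.coeff_zero, zero_sub]
    refine I.neg_mem ?_
    split_ifs
    · exact hsI
    · exact I.zero_mem

end Pool.Agent.Lib.H44V
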